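import Mathlib

/-!
# The simplex mean width conjecture (blueprint of helper604): definitions
-/

set_option autoImplicit false

namespace Pool.Agent.H604R2.SW

open MeasureTheory Matrix Finset
open scoped BigOperators

section
variable {ι : Type} [Fintype ι] [DecidableEq ι]

/-- Gaussian density with covariance matrix `C`. -/
noncomputable def dens (C : Matrix ι ι ℝ) (x : ι → ℝ) : ℝ :=
  (Real.sqrt ((2 * Real.pi) ^ (Fintype.card ι) * C.det))⁻¹ *
    Real.exp (-(x ⬝ᵥ (C⁻¹ *ᵥ x)) / 2)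

/-- The first partial derivative of `dens C` in direction `k`. -/
noncomputable def dens1 (C : Matrix ι ι ℝ) (k : ι) (x : ι → ℝ) : ℝ :=
  -((C⁻¹ *ᵥ x) k) * dens C x

/-- The second partial derivative of `dens C` in directions `k`, `l`. -/
noncomputable def dens2 (C : Matrix ι ι ℝ) (k l : ι) (x : ι → ℝ) : ℝ :=
  ((C⁻¹ *ᵥ x) k * (C⁻¹ *ᵥ x) l - C⁻¹ k l) * dens C x

/-- The negative orthant. -/
def Neg (ι : Type) : Set (ι → ℝ) := {x | ∀ i, x i ≤ 0}

/-- Orthant probability. -/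
noncomputable def orth (C : Matrix ι ι ℝ) : ℝ := ∫ x in Neg ι, dens C x

/-- `tie C k l = ∂² (shifted orthant probability)`; for `k ≠ l` a tie density. -/
noncomputable def tie (C : Matrix ι ι ℝ) (k l : ι) : ℝ := ∫ x in Neg ι, dens2 C k l x

/-- Correlation matrices. -/
def Corr (R : Matrix ι ι ℝ) : Prop := R.PosSemidef ∧ ∀ i, R i i = 1

/-- The Gram matrix of the regular simplex. -/
noncomputable def R0 (ι : Type) [Fintype ι] [DecidableEq ι] : Matrix ι ι ℝ :=
  Matrix.of fun i j => if i = j then 1 else -1 / ((Fintype.card ι : ℝ) - 1)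

/-- The covariance matrix `I + ((κ-1)/N) J`. -/
noncomputable def Ek (ι : Type) [Fintype ι] [DecidableEq ι] (κ : ℝ) : Matrix ι ι ℝ :=
  Matrix.of fun i j => (if i = j then 1 else 0) + (κ - 1) / (Fintype.card ι : ℝ)

/-- The segment `Ek κ + s (R - R0)`. -/
noncomputable def Cm (κ s : ℝ) (R : Matrix ι ι ℝ) : Matrix ι ι ℝ :=
  Ek ι κ + s • (R - R0 ι)

/-- `AA C Q i j = ∑_{k ≠ i} (C j k - C i k) Q i k`. -/
noncomputable def AA (C Q : Matrix ι ι ℝ) (i j : ι) : ℝ :=
  ∑ k ∈ univ.erase i, (C j k - C i k) * Q i k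

end

section
variable {n : ℕ}

/-- the vector `(a, b, y)` -/
def vec (a b : ℝ) (y : Fin n → ℝ) : Fin (n + 2) → ℝ := Matrix.vecCons a (Matrix.vecCons b y)

/-- `G1 C t`: density at `x 0 = 0`, `x 1 = -t`, the other coordinates `≤ 0`. -/
noncomputable def G1 (C : Matrix (Fin (n + 2)) (Fin (n + 2)) ℝ) (t : ℝ) : ℝ :=
  ∫ y in Neg (Fin n), dens C (vec 0 (-t) y)

/-- the derivative of `G1` -/
noncomputable def dG1 (C : Matrix (Fin (n + 2)) (Fin (n + 2)) ℝ) (t : ℝ) : ℝ :=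
  ∫ y in Neg (Fin n), -dens1 C 1 (vec 0 (-t) y)

/-- the slopes -/
noncomputable def kap (C : Matrix (Fin (n + 2)) (Fin (n + 2)) ℝ) (j : Fin n) : ℝ :=
  (C 0 j.succ.succ - C 1 j.succ.succ) / (C 0 0 - C 0 1)

noncomputable def b1 (C : Matrix (Fin (n + 2)) (Fin (n + 2)) ℝ) (t : ℝ) : ℝ :=
  ∫ y in Neg (Fin n), ∑ j, kap C j * dens1 C j.succ.succ (vec 0 (-t) y)

/-- exchange of the coordinates `0` and `1` -/
def swp (C : Matrix (Fin (n + 2)) (Fin (n + 2)) ℝ) : Matrix (Fin (n + 2)) (Fin (n + 2)) ℝ :=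
  C.submatrix (Equiv.swap 0 1) (Equiv.swap 0 1)

/-- The interpolation of the log-concavity inequality. -/
noncomputable def kk (C : Matrix (Fin (n + 2)) (Fin (n + 2)) ℝ) (s t ε : ℝ) : ℝ :=
  ∫ y in Neg (Fin n), dens C (vec 0 (-(t + ε * (s - t))) (fun j => y j + ε * s * kap C j))

end

end Pool.Agent.H604R2.SW
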