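import Pool.Agent.H604R2.SW.Props

set_option autoImplicit false

namespace Pool.Agent.H604R2.SW

open MeasureTheory Matrix Finset Filter Topology Set ProbabilityTheory
open scoped BigOperators

namespace G1aux

variable {n : ℕ}

theorem sum_sq_vec (a b : ℝ) (y : Fin n → ℝ) :
    ∑ i, vec a b y i ^ 2 = a ^ 2 + b ^ 2 + ∑ j, y j ^ 2 := by
  unfold vec
  rw [Fin.sum_univ_succ, Fin.sum_univ_succ]
  simp only [Matrix.cons_val_zero, Matrix.cons_val_succ]
  ring

theorem sum_abs_vec (a b : ℝ) (y : Fin n → ℝ) :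
    ∑ i, |vec a b y i| = |a| + |b| + ∑ j, |y j| := by
  unfold vec
  rw [Fin.sum_univ_succ, Fin.sum_univ_succ]
  simp only [Matrix.cons_val_zero, Matrix.cons_val_succ]
  ring

theorem cont_vec : Continuous (fun p : ℝ × (Fin n → ℝ) => vec 0 (-p.1) p.2) := by
  unfold vec
  refine continuous_pi fun i => ?_
  refine Fin.cases ?_ (fun j => ?_) i
  · simp only [Matrix.cons_val_zero]
    exact continuous_const
  · refine Fin.cases ?_ (fun k => ?_) j
    · simp only [Matrix.cons_val_succ, Matrix.cons_val_zero]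
      fun_prop
    · simp only [Matrix.cons_val_succ]
      fun_prop

theorem cont_vec' (t : ℝ) : Continuous (fun y : Fin n → ℝ => vec 0 (-t) y) :=
  cont_vec.comp (Continuous.prodMk_right t)

theorem cont_dens {ι : Type} [Fintype ι] [DecidableEq ι] (C : Matrix ι ι ℝ) :
    Continuous (dens C) := by
  unfold dens
  have h1 : Continuous (fun x : ι → ℝ => x ⬝ᵥ (C⁻¹ *ᵥ x)) :=
    Continuous.dotProduct continuous_id (Continuous.matrix_mulVec continuous_const continuous_id)
  fun_prop

theorem cont_dens1 {ι : Type} [Fintype ι] [DecidableEq ι] (C : Matrix ι ι ℝ) (k : ι) :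
    Continuous (dens1 C k) := by
  unfold dens1
  have h1 : Continuous (fun x : ι → ℝ => (C⁻¹ *ᵥ x) k) :=
    (continuous_apply k).comp (Continuous.matrix_mulVec continuous_const continuous_id)
  exact h1.neg.mul (cont_dens C)

theorem dens_pos {ι : Type} [Fintype ι] [DecidableEq ι] (C : Matrix ι ι ℝ) (hC : C.PosDef)
    (x : ι → ℝ) : 0 < dens C x := by
  unfold dens
  have := hC.det_pos
  positivity

theorem gauss_int (c : ℝ) (hc : 0 < c) :
    Integrable (fun y : Fin n → ℝ => Real.exp (-c * ∑ j, y j ^ 2)) := by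
  have h : (fun y : Fin n → ℝ => Real.exp (-c * ∑ j, y j ^ 2)) =
      fun y : Fin n → ℝ => ∏ j, Real.exp (-c * y j ^ 2) := by
    funext y
    rw [← Real.exp_sum, Finset.mul_sum]
  rw [h]
  exact Integrable.fintype_prod (fun _ => integrable_exp_neg_mul_sq hc)

theorem Neg_meas : MeasurableSet (Neg (Fin n)) := by
  have : Neg (Fin n) = Set.pi Set.univ (fun _ => Set.Iic (0 : ℝ)) := by
    ext x
    exact ⟨fun h i _ => h i, fun h i => h i (Set.mem_univ i)⟩
  rw [this]
  exact MeasurableSet.univ_pi (fun _ => measurableSet_Iic)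

theorem Neg_pos : 0 < volume (Neg (Fin n)) := by
  have hsub : Set.pi Set.univ (fun _ : Fin n => Set.Iio (0 : ℝ)) ⊆ Neg (Fin n) := by
    intro x hx i
    exact le_of_lt (hx i (Set.mem_univ i))
  refine lt_of_lt_of_le ?_ (measure_mono hsub)
  apply IsOpen.measure_pos
  · exact isOpen_set_pi Set.finite_univ (fun _ _ => isOpen_Iio)
  · exact ⟨fun _ => -1, fun i _ => by simp⟩

theorem poly_bound (c : ℝ) (hc : 0 < c) (y : Fin n → ℝ) :
    (∑ j, |y j|) * Real.exp (-c * ∑ j, y j ^ 2) ≤
      ((n : ℝ) + n * (2 / c)) * Real.exp (-(c / 2) * ∑ j, y j ^ 2) := by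
  set S : ℝ := ∑ j, y j ^ 2 with hS
  have hS0 : 0 ≤ S := Finset.sum_nonneg fun j _ => sq_nonneg _
  have h1 : ∑ j, |y j| ≤ n * (1 + S) := by
    have : ∀ j ∈ (Finset.univ : Finset (Fin n)), |y j| ≤ 1 + S := by
      intro j _
      have h2 : y j ^ 2 ≤ S := Finset.single_le_sum (f := fun j => y j ^ 2)
        (fun i _ => sq_nonneg _) (Finset.mem_univ j)
      have h3 : |y j| ≤ 1 + y j ^ 2 := by
        have h4 := sq_abs (y j)
        nlinarith [sq_nonneg (|y j| - 1), abs_nonneg (y j)]
      linarith
    have h2 := Finset.sum_le_card_nsmul _ _ _ this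
    rw [Finset.card_univ, Fintype.card_fin, nsmul_eq_mul] at h2
    exact h2
  have e1 : Real.exp (-c * S) = Real.exp (-(c / 2) * S) * Real.exp (-(c / 2) * S) := by
    rw [← Real.exp_add]; congr 1; ring
  have e2 : Real.exp (-(c / 2) * S) ≤ 1 := by
    rw [Real.exp_le_one_iff]
    nlinarith
  have e3 : S * Real.exp (-(c / 2) * S) ≤ 2 / c := by
    have h2 : c / 2 * S ≤ Real.exp (c / 2 * S) := by
      have := Real.add_one_le_exp (c / 2 * S)
      linarith
    have h3 : Real.exp (-(c / 2) * S) = (Real.exp (c / 2 * S))⁻¹ := by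
      rw [← Real.exp_neg]; congr 1; ring
    rw [h3, ← div_eq_mul_inv, div_le_iff₀ (Real.exp_pos _)]
    calc S = 2 / c * (c / 2 * S) := by field_simp
      _ ≤ 2 / c * Real.exp (c / 2 * S) := by
        apply mul_le_mul_of_nonneg_left h2
        positivity
  have hE : 0 < Real.exp (-(c / 2) * S) := Real.exp_pos _
  calc (∑ j, |y j|) * Real.exp (-c * S) ≤ (n * (1 + S)) * Real.exp (-c * S) := by
        apply mul_le_mul_of_nonneg_right h1 (Real.exp_pos _).le
    _ = (n * (Real.exp (-(c / 2) * S) + S * Real.exp (-(c / 2) * S))) *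
          Real.exp (-(c / 2) * S) := by rw [e1]; ring
    _ ≤ (n * (1 + 2 / c)) * Real.exp (-(c / 2) * S) := by
        apply mul_le_mul_of_nonneg_right _ hE.le
        apply mul_le_mul_of_nonneg_left _ (Nat.cast_nonneg n)
        linarith
    _ = _ := by ring

end G1aux

open G1aux in
theorem G1_reg (h : St_dom) (h6 : St_line) : St_G1 := by
  intro n C hC
  obtain ⟨ε, hε, c, hc, M, hM, hdom⟩ := h C hC
  obtain ⟨-, hd, hl, -⟩ := hdom C hC.isHermitian (fun i j => by simpa using hε)
  -- bound of the density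
  have hb : ∀ (t : ℝ) (y : Fin n → ℝ), dens C (vec 0 (-t) y) ≤
      M * Real.exp (-c * t ^ 2) * Real.exp (-c * ∑ j, y j ^ 2) := by
    intro t y
    refine (hd _).trans (le_of_eq ?_)
    rw [sum_sq_vec, mul_assoc, ← Real.exp_add]
    congr 2
    ring
  have hb' : ∀ (t : ℝ) (y : Fin n → ℝ), dens C (vec 0 (-t) y) ≤
      M * Real.exp (-c * ∑ j, y j ^ 2) := by
    intro t y
    refine (hb t y).trans ?_
    apply mul_le_mul_of_nonneg_right _ (Real.exp_pos _).le
    have : Real.exp (-c * t ^ 2) ≤ 1 := by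
      rw [Real.exp_le_one_iff]
      nlinarith [sq_nonneg t]
    nlinarith
  have hgi : ∀ b : ℝ, 0 < b → Integrable (fun y : Fin n → ℝ => Real.exp (-b * ∑ j, y j ^ 2))
      (volume.restrict (Neg (Fin n))) := fun b hb => (gauss_int b hb).restrict
  have hmeas : ∀ t : ℝ, AEStronglyMeasurable (fun y : Fin n → ℝ => dens C (vec 0 (-t) y))
      (volume.restrict (Neg (Fin n))) := fun t =>
    ((cont_dens C).comp (cont_vec' t)).aestronglyMeasurable
  have hint : ∀ t : ℝ, Integrable (fun y : Fin n → ℝ => dens C (vec 0 (-t) y))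
      (volume.restrict (Neg (Fin n))) := by
    intro t
    apply Integrable.mono' ((hgi c hc).const_mul M) (hmeas t)
    refine Filter.Eventually.of_forall fun y => ?_
    rw [Real.norm_of_nonneg (dens_pos C hC _).le]
    exact hb' t y
  have hpos : ∀ t, 0 < G1 C t := by
    intro t
    unfold G1
    rw [setIntegral_pos_iff_support_of_nonneg_ae
      (Filter.Eventually.of_forall fun y => (dens_pos C hC _).le) (hint t)]
    have hsup : Function.support (fun y : Fin n → ℝ => dens C (vec 0 (-t) y)) = Set.univ := by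
      ext y
      simp [(dens_pos C hC _).ne']
    rw [hsup, Set.univ_inter]
    exact Neg_pos
  have hder : ∀ t, HasDerivAt (G1 C) (dG1 C t) t := by
    intro t₀
    unfold G1 dG1
    have key := hasDerivAt_integral_of_dominated_loc_of_deriv_le
      (μ := volume.restrict (Neg (Fin n))) (x₀ := t₀) (s := Metric.ball t₀ 1)
      (F := fun (t : ℝ) (y : Fin n → ℝ) => dens C (vec 0 (-t) y))
      (F' := fun (t : ℝ) (y : Fin n → ℝ) => -dens1 C 1 (vec 0 (-t) y))
      (bound := fun y => M ^ 2 * ((|t₀| + 1) * Real.exp (-c * ∑ j, y j ^ 2) +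
        ((n : ℝ) + n * (2 / c)) * Real.exp (-(c / 2) * ∑ j, y j ^ 2)))
      (Metric.ball_mem_nhds t₀ one_pos) (Filter.Eventually.of_forall hmeas) (hint t₀) ?_ ?_ ?_ ?_
    · exact key.2
    · exact ((cont_dens1 C 1).comp (cont_vec' t₀)).neg.aestronglyMeasurable
    · refine Filter.Eventually.of_forall fun y t ht => ?_
      have htt : |t| ≤ |t₀| + 1 := by
        rw [Metric.mem_ball, Real.dist_eq] at ht
        have := abs_sub_abs_le_abs_sub t t₀
        linarith
      have hS1 : |(C⁻¹ *ᵥ (vec 0 (-t) y)) 1| ≤ M * (|t| + ∑ j, |y j|) := by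
        refine (hl 1 _).trans (le_of_eq ?_)
        rw [sum_abs_vec]
        simp
      show ‖-dens1 C 1 (vec 0 (-t) y)‖ ≤ _
      unfold dens1
      rw [norm_neg, norm_mul, norm_neg, Real.norm_eq_abs, Real.norm_of_nonneg (dens_pos C hC _).le]
      have hAn : 0 ≤ ∑ j, |y j| := Finset.sum_nonneg fun j _ => abs_nonneg _
      have hE := Real.exp_pos (-c * ∑ j, y j ^ 2)
      calc |(C⁻¹ *ᵥ (vec 0 (-t) y)) 1| * dens C (vec 0 (-t) y)
          ≤ (M * (|t| + ∑ j, |y j|)) * (M * Real.exp (-c * ∑ j, y j ^ 2)) := by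
            apply mul_le_mul hS1 (hb' t y) (dens_pos C hC _).le
            positivity
        _ = M ^ 2 * (|t| * Real.exp (-c * ∑ j, y j ^ 2) +
              (∑ j, |y j|) * Real.exp (-c * ∑ j, y j ^ 2)) := by ring
        _ ≤ _ := by
            apply mul_le_mul_of_nonneg_left _ (by positivity)
            apply add_le_add
            · exact mul_le_mul_of_nonneg_right htt hE.le
            · exact poly_bound c hc y
    · exact (((hgi c hc).const_mul _).add ((hgi (c / 2) (by positivity)).const_mul _)).const_mul _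
    · refine Filter.Eventually.of_forall fun y t _ => ?_
      have h7 := (h6 C hC (vec 0 0 y) (-Pi.single 1 1) t).1
      have hfun : ∀ t : ℝ, (fun i => vec 0 0 y i + t * (-Pi.single 1 1 : Fin (n + 2) → ℝ) i) =
          vec 0 (-t) y := by
        intro t
        funext i
        refine Fin.cases ?_ (fun j => ?_) i
        · simp [vec]
        · refine Fin.cases ?_ (fun k => ?_) j
          · simp [vec]
          · have hk : (k.succ.succ : Fin (n + 2)) ≠ 1 := by
              intro h
              have := congrArg Fin.val h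
              simp at this
            simp [vec, Pi.single_eq_of_ne hk]
      have hsum : (∑ k, (-Pi.single 1 1 : Fin (n + 2) → ℝ) k *
          dens1 C k (fun i => vec 0 0 y i + t * (-Pi.single 1 1 : Fin (n + 2) → ℝ) i)) =
          -dens1 C 1 (vec 0 (-t) y) := by
        rw [hfun, Finset.sum_eq_single 1]
        · simp
        · intro k _ hk
          simp [Pi.single_eq_of_ne hk]
        · intro h
          exact absurd (Finset.mem_univ _) h
      rw [hsum] at h7
      have hfun2 : (fun t : ℝ => dens C (fun i => vec 0 0 y i +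
          t * (-Pi.single 1 1 : Fin (n + 2) → ℝ) i)) = fun t : ℝ => dens C (vec 0 (-t) y) := by
        funext t
        rw [hfun]
      rw [hfun2] at h7
      exact h7
  -- bound of `G1`
  set I : ℝ := ∫ y in Neg (Fin n), Real.exp (-c * ∑ j, y j ^ 2) with hI
  have hG : ∀ t, G1 C t ≤ M * I * Real.exp (-c * t ^ 2) := by
    intro t
    unfold G1
    calc ∫ y in Neg (Fin n), dens C (vec 0 (-t) y)
        ≤ ∫ y in Neg (Fin n), M * Real.exp (-c * t ^ 2) * Real.exp (-c * ∑ j, y j ^ 2) := by
          apply integral_mono (hint t) ((hgi c hc).const_mul _)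
          intro y
          exact hb t y
      _ = M * Real.exp (-c * t ^ 2) * I := by rw [integral_const_mul]
      _ = _ := by ring
  refine ⟨hpos, hder, ?_, ?_⟩
  · apply tendsto_of_tendsto_of_tendsto_of_le_of_le (tendsto_const_nhds (x := (0 : ℝ)))
      (h := fun t => M * I * Real.exp (-c * t ^ 2)) _ (fun t => (hpos t).le) hG
    have h8 : Tendsto (fun t : ℝ => Real.exp (-c * t ^ 2)) atTop (𝓝 0) := by
      apply Real.tendsto_exp_atBot.comp
      have : Tendsto (fun t : ℝ => t ^ 2) atTop atTop := tendsto_pow_atTop (by norm_num)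
      exact this.const_mul_atTop_of_neg (by linarith)
    have h9 := h8.const_mul (M * I)
    rwa [mul_zero] at h9
  · have hcont : Continuous (G1 C) := continuous_iff_continuousAt.2 fun t => (hder t).continuousAt
    apply Integrable.mono' ((integrable_exp_neg_mul_sq hc).restrict.const_mul (M * I))
      hcont.aestronglyMeasurable
    refine Filter.Eventually.of_forall fun t => ?_
    rw [Real.norm_of_nonneg (hpos t).le]
    exact hG t

end Pool.Agent.H604R2.SW
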