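import Pool.Agent.H604R2.SW.Props

set_option autoImplicit false

namespace Pool.Agent.H604R2.SW

open MeasureTheory Matrix Finset Filter Topology Set ProbabilityTheory
open scoped BigOperators

namespace K1aux

variable {ι : Type} [Fintype ι] [DecidableEq ι]

/-- the change of rows -/
noncomputable def U (i k : ι) (ε c : ℝ) : Matrix ι ι ℝ :=
  Matrix.of fun a b => if a = i then c * ((if b = i then 1 else 0) + ε * (if b = k then 1 else 0))
    else (if b = a then 1 else 0)

theorem U_mul (i k : ι) (ε c : ℝ) (R : Matrix ι ι ℝ) (a b : ι) :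
    (U i k ε c * R) a b = if a = i then c * (R i b + ε * R k b) else R a b := by
  rw [Matrix.mul_apply]
  simp only [U, Matrix.of_apply]
  split_ifs with h
  · have : ∀ x, c * ((if x = i then (1:ℝ) else 0) + ε * (if x = k then 1 else 0)) * R x b =
        c * ((if x = i then R x b else 0) + ε * (if x = k then R x b else 0)) := by
      intro x
      split_ifs <;> ring
    simp only [this]
    rw [← Finset.mul_sum, Finset.sum_add_distrib, ← Finset.mul_sum]
    simp
  · simp

theorem mul_Ut (i k : ι) (ε c : ℝ) (X : Matrix ι ι ℝ) (a b : ι) :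
    (X * (U i k ε c).conjTranspose) a b = if b = i then c * (X a i + ε * X a k) else X a b := by
  rw [Matrix.mul_apply]
  simp only [U, Matrix.conjTranspose_apply, Matrix.of_apply, star_trivial]
  split_ifs with h
  · have : ∀ x, X a x * (c * ((if x = i then (1:ℝ) else 0) + ε * (if x = k then 1 else 0))) =
        c * ((if x = i then X a x else 0) + ε * (if x = k then X a x else 0)) := by
      intro x
      split_ifs <;> ring
    simp only [this]
    rw [← Finset.mul_sum, Finset.sum_add_distrib, ← Finset.mul_sum]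
    simp
  · simp

/-- the new matrix -/
noncomputable def N (i k : ι) (ε c : ℝ) (R : Matrix ι ι ℝ) : Matrix ι ι ℝ :=
  U i k ε c * R * (U i k ε c).conjTranspose

theorem N_ne (i k : ι) (ε c : ℝ) (R : Matrix ι ι ℝ) {a b : ι} (ha : a ≠ i) (hb : b ≠ i) :
    N i k ε c R a b = R a b := by
  rw [N, mul_Ut, if_neg hb, U_mul, if_neg ha]

theorem N_i (i k : ι) (ε c : ℝ) (R : Matrix ι ι ℝ) {b : ι} (hb : b ≠ i) :
    N i k ε c R i b = c * (R i b + ε * R k b) := by
  rw [N, mul_Ut, if_neg hb, U_mul, if_pos rfl]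

theorem N_i' (i k : ι) (ε c : ℝ) (R : Matrix ι ι ℝ) {a : ι} (ha : a ≠ i) :
    N i k ε c R a i = c * (R a i + ε * R a k) := by
  rw [N, mul_Ut, if_pos rfl, U_mul, if_neg ha, U_mul, if_neg ha]

theorem N_ii (i k : ι) (ε c : ℝ) (R : Matrix ι ι ℝ) :
    N i k ε c R i i = c * (c * (R i i + ε * R k i) + ε * (c * (R i k + ε * R k k))) := by
  rw [N, mul_Ut, if_pos rfl, U_mul, if_pos rfl, U_mul, if_pos rfl]

theorem N_corr (i k : ι) (ε : ℝ) (R : Matrix ι ι ℝ) (hR : Corr R)
    (hν : 0 < 1 + 2 * ε * R i k + ε ^ 2) :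
    Corr (N i k ε (√(1 + 2 * ε * R i k + ε ^ 2))⁻¹ R) := by
  refine ⟨hR.1.mul_mul_conjTranspose_same _, fun a => ?_⟩
  have hsym : R k i = R i k := by
    have := hR.1.isHermitian.apply k i
    simpa using this.symm
  by_cases ha : a = i
  · subst ha
    rw [N_ii, hR.2, hR.2, hsym]
    have h1 := Real.sq_sqrt hν.le
    have h2 : 0 < √(1 + 2 * ε * R a k + ε ^ 2) := Real.sqrt_pos.2 hν
    field_simp
    rw [h1]
    ring
  · rw [N_ne i k ε _ R ha ha, hR.2]

theorem key (Q R : Matrix ι ι ℝ) (hQ : ∀ i j, Q i j = Q j i) (hR : IsMinCorr Q R) (i k : ι)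
    (ε : ℝ) (hν : 0 < 1 + 2 * ε * R i k + ε ^ 2) :
    0 ≤ -rho Q R i + ε * (∑ j ∈ univ.erase i, Q i j * R j k) +
      √(1 + 2 * ε * R i k + ε ^ 2) * rho Q R i := by
  have hsym : ∀ a b, R a b = R b a := fun a b => by
    have := hR.1.1.isHermitian.apply a b
    simpa using this.symm
  set ν := √(1 + 2 * ε * R i k + ε ^ 2) with hνd
  have hν0 : 0 < ν := Real.sqrt_pos.2 hν
  have h1 := hR.2 _ (N_corr i k ε R hR.1 hν)
  rw [← hνd] at h1
  set R' := N i k ε ν⁻¹ R with hR'
  have h2 : ∑ a, ∑ b ∈ univ.erase a, Q a b * R' a b - ∑ a, ∑ b ∈ univ.erase a, Q a b * R a b =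
      2 * ∑ j ∈ univ.erase i, Q i j * (ν⁻¹ * (R i j + ε * R k j) - R i j) := by
    rw [← Finset.sum_sub_distrib]
    simp only [← Finset.sum_sub_distrib]
    rw [← Finset.add_sum_erase univ _ (Finset.mem_univ i)]
    have h3 : ∑ a ∈ univ.erase i, ∑ b ∈ univ.erase a, (Q a b * R' a b - Q a b * R a b) =
        ∑ a ∈ univ.erase i, Q i a * (ν⁻¹ * (R i a + ε * R k a) - R i a) := by
      refine Finset.sum_congr rfl fun a ha => ?_
      have hai : a ≠ i := (Finset.mem_erase.1 ha).1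
      rw [Finset.sum_eq_single_of_mem i (Finset.mem_erase.2 ⟨hai.symm, Finset.mem_univ i⟩)]
      · rw [hR', N_i' i k ε _ R hai, hQ a i, hsym a i, hsym a k]
        ring
      · intro b _ hbi
        rw [hR', N_ne i k ε _ R hai hbi, sub_self]
    have h4 : ∑ b ∈ univ.erase i, (Q i b * R' i b - Q i b * R i b) =
        ∑ a ∈ univ.erase i, Q i a * (ν⁻¹ * (R i a + ε * R k a) - R i a) := by
      refine Finset.sum_congr rfl fun b hb => ?_
      have hbi : b ≠ i := (Finset.mem_erase.1 hb).1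
      rw [hR', N_i i k ε _ R hbi]
      ring
    rw [h3, h4]
    ring
  have h5 : ∑ j ∈ univ.erase i, Q i j * (ν⁻¹ * (R i j + ε * R k j) - R i j) =
      ν⁻¹ * (-rho Q R i + ε * (∑ j ∈ univ.erase i, Q i j * R j k) + ν * rho Q R i) := by
    unfold rho
    rw [neg_neg, Finset.mul_sum, mul_neg, Finset.mul_sum, ← sub_eq_add_neg,
      ← Finset.sum_add_distrib, ← Finset.sum_sub_distrib, Finset.mul_sum]
    refine Finset.sum_congr rfl fun j _ => ?_
    rw [hsym k j]
    field_simp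
  rw [h5] at h2
  have h6 : 0 ≤ ν⁻¹ * (-rho Q R i + ε * (∑ j ∈ univ.erase i, Q i j * R j k) + ν * rho Q R i) := by
    linarith
  by_contra hcon
  have h7 : ν⁻¹ * (-rho Q R i + ε * (∑ j ∈ univ.erase i, Q i j * R j k) + ν * rho Q R i) < 0 :=
    mul_neg_of_pos_of_neg (inv_pos.2 hν0) (not_le.1 hcon)
  linarith

end K1aux

theorem K1 : St_K1 := by
  intro ι _ _ Q R hQ hR i k
  set a := ∑ j ∈ univ.erase i, Q i j * R j k with ha
  let f : ℝ → ℝ := fun ε => -rho Q R i + ε * a + √(1 + 2 * ε * R i k + ε ^ 2) * rho Q R i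
  have hd0 : HasDerivAt (fun ε : ℝ => 1 + 2 * ε * R i k + ε ^ 2) (2 * R i k) 0 := by
    have h1 : HasDerivAt (fun ε : ℝ => ε) 1 (0:ℝ) := hasDerivAt_id 0
    have h2 := (((h1.const_mul 2).mul_const (R i k)).const_add 1).add (h1.pow 2)
    refine h2.congr_deriv ?_
    norm_num
  have hd1 : HasDerivAt (fun ε : ℝ => √(1 + 2 * ε * R i k + ε ^ 2)) (R i k) 0 := by
    have h2 := hd0.sqrt (by norm_num)
    refine h2.congr_deriv ?_
    norm_num
  have hd : HasDerivAt f (a + R i k * rho Q R i) 0 := by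
    have h1 : HasDerivAt (fun ε : ℝ => ε) 1 (0:ℝ) := hasDerivAt_id 0
    have h2 := ((h1.mul_const a).const_add (-rho Q R i)).add (hd1.mul_const (rho Q R i))
    refine h2.congr_deriv ?_
    ring
  have hf0 : f 0 = 0 := by
    show -rho Q R i + 0 * a + √(1 + 2 * 0 * R i k + 0 ^ 2) * rho Q R i = 0
    norm_num
  have hmin : IsLocalMin f 0 := by
    have h1 : ∀ᶠ ε in 𝓝 (0:ℝ), 0 < 1 + 2 * ε * R i k + ε ^ 2 := by
      have h2 : ContinuousAt (fun ε : ℝ => 1 + 2 * ε * R i k + ε ^ 2) 0 := hd0.continuousAt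
      have h3 : (0:ℝ) < (fun ε : ℝ => 1 + 2 * ε * R i k + ε ^ 2) 0 := by norm_num
      exact Filter.Tendsto.eventually_const_lt h3 h2
    filter_upwards [h1] with ε hε
    rw [hf0]
    exact K1aux.key Q R hQ hR i k ε hε
  have := hmin.hasDerivAt_eq_zero hd
  linarith

end Pool.Agent.H604R2.SW
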