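import Pool.Agent.H604R2.SW.Props

set_option autoImplicit false

namespace Pool.Agent.H604R2.SW

open MeasureTheory Matrix Finset Filter Topology Set ProbabilityTheory
open scoped BigOperators

theorem K2aux_quad {ι : Type} [Fintype ι] {R : Matrix ι ι ℝ} (hR : R.PosSemidef)
    (x : ι → ℝ) : 0 ≤ ∑ k, ∑ l, x k * R k l * x l := by
  have h := hR.dotProduct_mulVec_nonneg x
  have e : star x ⬝ᵥ (R *ᵥ x) = ∑ k, ∑ l, x k * R k l * x l := by
    unfold dotProduct mulVec dotProduct
    refine Finset.sum_congr rfl (fun k _ => ?_)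
    rw [Finset.mul_sum]
    refine Finset.sum_congr rfl (fun l _ => ?_)
    simp only [Pi.star_apply, star_trivial]
    ring
  rwa [e] at h

theorem K2aux_comp {ι : Type} [Fintype ι] {R : Matrix ι ι ℝ} (hR : Corr R) (c s : ι → ℝ)
    (h : ∀ k, c k ^ 2 + s k ^ 2 = 1) :
    Corr (Matrix.of fun k l => c k * c l * R k l + s k * s l) := by
  refine ⟨?_, ?_⟩
  · rw [posSemidef_iff_dotProduct_mulVec]
    constructor
    · ext k l
      have hs : R l k = R k l := by
        have := hR.1.isHermitian.apply k l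
        simpa using this
      simp only [conjTranspose_apply, Matrix.of_apply, star_trivial]
      rw [hs]; ring
    · intro x
      have h1 := K2aux_quad hR.1 (fun k => c k * x k)
      have e : star x ⬝ᵥ ((Matrix.of fun k l => c k * c l * R k l + s k * s l) *ᵥ x) =
          (∑ k, ∑ l, (c k * x k) * R k l * (c l * x l)) + (∑ k, s k * x k) * (∑ k, s k * x k) := by
        rw [Finset.sum_mul_sum, ← Finset.sum_add_distrib]
        unfold dotProduct mulVec dotProduct
        refine Finset.sum_congr rfl (fun k _ => ?_)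
        rw [Finset.mul_sum, ← Finset.sum_add_distrib]
        refine Finset.sum_congr rfl (fun l _ => ?_)
        simp only [Pi.star_apply, star_trivial, Matrix.of_apply]
        ring
      rw [e]
      exact add_nonneg h1 (mul_self_nonneg _)
  · intro k
    rw [Matrix.of_apply, hR.2 k]
    have := h k
    nlinarith

theorem K2aux_sum {ι : Type} [Fintype ι] [DecidableEq ι] (Q X : Matrix ι ι ℝ) :
    ∑ k, ∑ l ∈ univ.erase k, Q k l * X k l =
      ∑ k, ∑ l, (if k = l then 0 else Q k l) * X k l := by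
  refine Finset.sum_congr rfl (fun k _ => ?_)
  rw [← Finset.add_sum_erase univ (fun l => (if k = l then 0 else Q k l) * X k l)
    (Finset.mem_univ k), if_pos rfl, zero_mul, zero_add]
  refine Finset.sum_congr rfl (fun l hl => ?_)
  rw [if_neg (Finset.ne_of_mem_erase hl).symm]

theorem K2aux_bil {ι : Type} [Fintype ι] [DecidableEq ι] (B : ι → ι → ℝ) (i j : ι) (a b : ℝ) :
    ∑ k, ∑ l, B k l * ((if k = i then a else 0) + (if k = j then b else 0)) *
      ((if l = i then a else 0) + (if l = j then b else 0)) =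
      a * a * B i i + a * b * B i j + a * b * B j i + b * b * B j j := by
  simp only [mul_add, add_mul, Finset.sum_add_distrib, mul_ite, ite_mul, mul_zero, zero_mul,
    Finset.sum_ite_eq', Finset.mem_univ, if_true]
  ring

theorem K2aux_lin {ι : Type} [Fintype ι] [DecidableEq ι] (B : ι → ι → ℝ) (i j : ι) (a b : ℝ) :
    ∑ k, ∑ l, B k l * ((if k = i then a else 0) + (if k = j then b else 0)) =
      a * (∑ l, B i l) + b * ∑ l, B j l := by
  simp only [mul_add, Finset.sum_add_distrib, mul_ite, mul_zero,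
    Finset.sum_ite_irrel, Finset.sum_const_zero, Finset.sum_ite_eq', Finset.mem_univ, if_true]
  rw [← Finset.sum_mul, ← Finset.sum_mul]
  ring

theorem K2aux_main {ι : Type} [Fintype ι] [DecidableEq ι] (Q R : Matrix ι ι ℝ)
    (hQ : ∀ i j, Q i j = Q j i) (hmin : IsMinCorr Q R) (i j : ι) (hij : i ≠ j) (α β : ℝ) :
    0 ≤ (1 - Real.cos α) * rho Q R i + (1 - Real.cos β) * rho Q R j +
      Q i j * R i j * ((1 - Real.cos α) * (1 - Real.cos β)) -
        Q i j * (Real.sin α * Real.sin β) := by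
  set a := Real.cos α - 1 with ha
  set b := Real.cos β - 1 with hb
  set c : ι → ℝ := fun k => 1 + ((if k = i then a else 0) + (if k = j then b else 0)) with hc
  set s : ι → ℝ := fun k => (if k = i then Real.sin α else 0) + (if k = j then -Real.sin β else 0)
    with hs
  have hcs : ∀ k, c k ^ 2 + s k ^ 2 = 1 := by
    intro k
    by_cases h1 : k = i
    · have h2 : k ≠ j := fun h => hij (h1.symm.trans h)
      simp only [hc, hs, if_pos h1, if_neg h2]
      have := Real.sin_sq_add_cos_sq α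
      rw [ha]; nlinarith
    · by_cases h2 : k = j
      · simp only [hc, hs, if_neg h1, if_pos h2]
        have := Real.sin_sq_add_cos_sq β
        rw [hb]; nlinarith
      · simp only [hc, hs, if_neg h1, if_neg h2]
        ring
  have hR := hmin.1
  have hsym : ∀ k l, R k l = R l k := by
    intro k l
    have := hR.1.isHermitian.apply l k
    simpa using this
  have h := hmin.2 _ (K2aux_comp hR c s hcs)
  set P : Matrix ι ι ℝ := Matrix.of fun k l => if k = l then 0 else Q k l with hP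
  have hPs : ∀ k l, P k l = P l k := by
    intro k l
    simp only [hP, Matrix.of_apply]
    by_cases hkl : k = l
    · rw [if_pos hkl, if_pos hkl.symm]
    · rw [if_neg hkl, if_neg (fun h => hkl h.symm), hQ k l]
  have hP0 : ∀ k, P k k = 0 := by
    intro k
    simp only [hP, Matrix.of_apply, if_true]
  have hPij : P i j = Q i j := by
    simp only [hP, Matrix.of_apply, if_neg hij]
  have hrho : ∀ k, ∑ l, P k l * R k l = -rho Q R k := by
    intro k
    unfold rho
    rw [neg_neg, ← Finset.add_sum_erase univ (fun l => P k l * R k l) (Finset.mem_univ k), hP0 k,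
      zero_mul, zero_add]
    refine Finset.sum_congr rfl (fun l hl => ?_)
    simp only [hP, Matrix.of_apply]
    rw [if_neg (Finset.ne_of_mem_erase hl).symm]
  have e1 : ∑ k, ∑ l ∈ univ.erase k, Q k l * R k l = ∑ k, ∑ l, P k l * R k l := by
    rw [K2aux_sum]
    rfl
  have e2 : ∑ k, ∑ l ∈ univ.erase k, Q k l *
      (Matrix.of fun k l => c k * c l * R k l + s k * s l) k l =
      ∑ k, ∑ l, P k l * (c k * c l * R k l + s k * s l) := by
    rw [K2aux_sum]
    rfl
  rw [e1, e2] at h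
  have e3 : ∑ k, ∑ l, P k l * (c k * c l * R k l + s k * s l) =
      ∑ k, ∑ l, P k l * R k l +
        (∑ k, ∑ l, (P k l * R k l) * ((if k = i then a else 0) + (if k = j then b else 0))) +
        (∑ k, ∑ l, (P k l * R k l) * ((if l = i then a else 0) + (if l = j then b else 0))) +
        (∑ k, ∑ l, (P k l * R k l) * ((if k = i then a else 0) + (if k = j then b else 0)) *
          ((if l = i then a else 0) + (if l = j then b else 0))) +
        ∑ k, ∑ l, P k l * ((if k = i then Real.sin α else 0) + (if k = j then -Real.sin β else 0)) *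
          ((if l = i then Real.sin α else 0) + (if l = j then -Real.sin β else 0)) := by
    rw [← Finset.sum_add_distrib, ← Finset.sum_add_distrib, ← Finset.sum_add_distrib,
      ← Finset.sum_add_distrib]
    refine Finset.sum_congr rfl (fun k _ => ?_)
    rw [← Finset.sum_add_distrib, ← Finset.sum_add_distrib, ← Finset.sum_add_distrib,
      ← Finset.sum_add_distrib]
    refine Finset.sum_congr rfl (fun l _ => ?_)
    simp only [hc, hs]
    ring
  have e4 : (∑ k, ∑ l, (P k l * R k l) * ((if l = i then a else 0) + (if l = j then b else 0))) =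
      ∑ k, ∑ l, (P k l * R k l) * ((if k = i then a else 0) + (if k = j then b else 0)) := by
    rw [Finset.sum_comm]
    refine Finset.sum_congr rfl (fun k _ => Finset.sum_congr rfl (fun l _ => ?_))
    rw [hPs l k, hsym l k]
  rw [e3, e4, K2aux_lin (fun k l => P k l * R k l), K2aux_bil (fun k l => P k l * R k l),
    K2aux_bil (fun k l => P k l)] at h
  rw [hrho i, hrho j, hP0 i, hP0 j, hPs j i, hPij, hsym j i] at h
  nlinarith

theorem K2aux_ineq {ι : Type} [Fintype ι] [DecidableEq ι] (Q R : Matrix ι ι ℝ)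
    (hQ : ∀ i j, Q i j = Q j i) (hpos : ∀ i j, i ≠ j → 0 < Q i j)
    (hmin : IsMinCorr Q R) (i j : ι) (hij : i ≠ j) (hi : 0 ≤ rho Q R i) (hj : 0 ≤ rho Q R j)
    (a b : ℝ) (ha : 0 < a) (hb : 0 < b) :
    0 ≤ (a ^ 2 * rho Q R i + b ^ 2 * rho Q R j) / 2 - a * b * Q i j := by
  set X := (a ^ 2 * rho Q R i + b ^ 2 * rho Q R j) / 2 - a * b * Q i j with hX
  set Y := |Q i j * R i j| * a ^ 2 * b ^ 2 / 4 + Q i j * a * b * (a ^ 2 + b ^ 2) / 4 with hY
  have hlim : Tendsto (fun ε : ℝ => X + ε ^ 2 * Y) (𝓝[>] 0) (𝓝 X) := by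
    have h0 : Continuous (fun ε : ℝ => X + ε ^ 2 * Y) := by fun_prop
    have h1 := h0.tendsto 0
    have h2 : X + (0:ℝ) ^ 2 * Y = X := by ring
    rw [h2] at h1
    exact h1.mono_left nhdsWithin_le_nhds
  refine ge_of_tendsto hlim ?_
  have hev : ∀ᶠ ε : ℝ in 𝓝[>] 0, ε ∈ Set.Ioo (0:ℝ) (min (1 / a) (1 / b)) :=
    Ioo_mem_nhdsGT (by positivity)
  filter_upwards [hev] with ε hε
  have hε0 : 0 < ε := hε.1
  have h1a : ε * a ≤ 1 := by
    have := hε.2.le.trans (min_le_left _ _)
    rw [le_div_iff₀ ha] at this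
    exact this
  have h1b : ε * b ≤ 1 := by
    have := hε.2.le.trans (min_le_right _ _)
    rw [le_div_iff₀ hb] at this
    exact this
  have hαp : 0 < ε * a := by positivity
  have hβp : 0 < ε * b := by positivity
  have hm := K2aux_main Q R hQ hmin i j hij (ε * a) (ε * b)
  have hc1 : 1 - Real.cos (ε * a) ≤ (ε * a) ^ 2 / 2 := by
    have := Real.one_sub_sq_div_two_le_cos (x := ε * a)
    linarith
  have hc2 : 1 - Real.cos (ε * b) ≤ (ε * b) ^ 2 / 2 := by
    have := Real.one_sub_sq_div_two_le_cos (x := ε * b)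
    linarith
  have hc1' : 0 ≤ 1 - Real.cos (ε * a) := by linarith [Real.cos_le_one (ε * a)]
  have hc2' : 0 ≤ 1 - Real.cos (ε * b) := by linarith [Real.cos_le_one (ε * b)]
  have hs1 : ε * a * (1 - ε ^ 2 * a ^ 2 / 4) ≤ Real.sin (ε * a) := by
    have h7 := (Real.sin_gt_sub_cube hαp).le
    have h8 : 0 < (ε * a) ^ 3 := by positivity
    nlinarith
  have hs2 : ε * b * (1 - ε ^ 2 * b ^ 2 / 4) ≤ Real.sin (ε * b) := by
    have h7 := (Real.sin_gt_sub_cube hβp).le
    have h8 : 0 < (ε * b) ^ 3 := by positivity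
    nlinarith
  have ha2 : ε ^ 2 * a ^ 2 ≤ 1 := by
    have : (ε * a) ^ 2 ≤ 1 := pow_le_one₀ hαp.le h1a
    nlinarith
  have hb2 : ε ^ 2 * b ^ 2 ≤ 1 := by
    have : (ε * b) ^ 2 ≤ 1 := pow_le_one₀ hβp.le h1b
    nlinarith
  have hq := hpos i j hij
  have t1 : (1 - Real.cos (ε * a)) * rho Q R i ≤ (ε * a) ^ 2 / 2 * rho Q R i :=
    mul_le_mul_of_nonneg_right hc1 hi
  have t2 : (1 - Real.cos (ε * b)) * rho Q R j ≤ (ε * b) ^ 2 / 2 * rho Q R j :=
    mul_le_mul_of_nonneg_right hc2 hj
  have t3 : (1 - Real.cos (ε * a)) * (1 - Real.cos (ε * b)) ≤ (ε * a) ^ 2 / 2 * ((ε * b) ^ 2 / 2) :=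
    mul_le_mul hc1 hc2 hc2' (by positivity)
  have t4 : Q i j * R i j * ((1 - Real.cos (ε * a)) * (1 - Real.cos (ε * b))) ≤
      |Q i j * R i j| * ((ε * a) ^ 2 / 2 * ((ε * b) ^ 2 / 2)) := by
    refine (mul_le_mul_of_nonneg_right (le_abs_self _) (mul_nonneg hc1' hc2')).trans ?_
    exact mul_le_mul_of_nonneg_left t3 (abs_nonneg _)
  have t5 : (ε * a * (1 - ε ^ 2 * a ^ 2 / 4)) * (ε * b * (1 - ε ^ 2 * b ^ 2 / 4)) ≤
      Real.sin (ε * a) * Real.sin (ε * b) := by
    refine mul_le_mul hs1 hs2 ?_ ?_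
    · exact mul_nonneg hβp.le (by linarith)
    · exact le_trans (mul_nonneg hαp.le (by linarith)) hs1
  have t6 : ε * a * (ε * b) * (1 - ε ^ 2 * (a ^ 2 + b ^ 2) / 4) ≤
      (ε * a * (1 - ε ^ 2 * a ^ 2 / 4)) * (ε * b * (1 - ε ^ 2 * b ^ 2 / 4)) := by
    have : (1 - ε ^ 2 * (a ^ 2 + b ^ 2) / 4) ≤ (1 - ε ^ 2 * a ^ 2 / 4) * (1 - ε ^ 2 * b ^ 2 / 4) := by
      have h9 : 0 ≤ (ε ^ 2 * a ^ 2 / 4) * (ε ^ 2 * b ^ 2 / 4) := by positivity
      nlinarith
    have := mul_le_mul_of_nonneg_left this (mul_nonneg hαp.le hβp.le)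
    linarith
  have t7 : Q i j * (ε * a * (ε * b) * (1 - ε ^ 2 * (a ^ 2 + b ^ 2) / 4)) ≤
      Q i j * (Real.sin (ε * a) * Real.sin (ε * b)) :=
    mul_le_mul_of_nonneg_left (t6.trans t5) hq.le
  have hfin : 0 ≤ (ε * a) ^ 2 / 2 * rho Q R i + (ε * b) ^ 2 / 2 * rho Q R j +
      |Q i j * R i j| * ((ε * a) ^ 2 / 2 * ((ε * b) ^ 2 / 2)) -
      Q i j * (ε * a * (ε * b) * (1 - ε ^ 2 * (a ^ 2 + b ^ 2) / 4)) := by linarith
  have hfe : (ε * a) ^ 2 / 2 * rho Q R i + (ε * b) ^ 2 / 2 * rho Q R j +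
      |Q i j * R i j| * ((ε * a) ^ 2 / 2 * ((ε * b) ^ 2 / 2)) -
      Q i j * (ε * a * (ε * b) * (1 - ε ^ 2 * (a ^ 2 + b ^ 2) / 4)) = ε ^ 2 * (X + ε ^ 2 * Y) := by
    rw [hX, hY]; ring
  rw [hfe] at hfin
  exact nonneg_of_mul_nonneg_right hfin (by positivity)

theorem K2aux_nonneg {ι : Type} [Fintype ι] [DecidableEq ι] (Q R : Matrix ι ι ℝ)
    (hQ : ∀ i j, Q i j = Q j i) (hmin : IsMinCorr Q R) (i j : ι) (hij : i ≠ j) :
    0 ≤ rho Q R i := by
  have h := K2aux_main Q R hQ hmin i j hij Real.pi 0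
  simp only [Real.cos_pi, Real.cos_zero, Real.sin_zero, Real.sin_pi] at h
  linarith

theorem K2 : St_K2 := by
  intro ι _ _ Q R hQ hpos hmin i j hij
  have hi := K2aux_nonneg Q R hQ hmin i j hij
  have hj := K2aux_nonneg Q R hQ hmin j i hij.symm
  have hq := hpos i j hij
  refine ⟨hi, ?_⟩
  have key := fun a b ha hb => K2aux_ineq Q R hQ hpos hmin i j hij hi hj a b ha hb
  have hip : 0 < rho Q R i := by
    rcases hi.lt_or_eq with h | h
    · exact h
    · exfalso
      have := key (rho Q R j / (2 * Q i j) + 1) 1 (by positivity) one_pos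
      rw [← h] at this
      have e : (rho Q R j / (2 * Q i j) + 1) * 1 * Q i j = rho Q R j / 2 + Q i j := by
        field_simp
      rw [e] at this
      linarith
  have h := key (Q i j) (rho Q R i) hq hip
  have h2 : 0 ≤ rho Q R i * (rho Q R i * rho Q R j - Q i j ^ 2) := by nlinarith
  have h3 := nonneg_of_mul_nonneg_right h2 hip
  linarith

end Pool.Agent.H604R2.SW
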