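import Pool.Agent.H604R2.SW.Props

set_option autoImplicit false

namespace Pool.Agent.H604R2.SW

open MeasureTheory Matrix Finset Filter Topology Set ProbabilityTheory
open scoped BigOperators

theorem K3_Cm {ι : Type} [Fintype ι] [DecidableEq ι] (κ s : ℝ) (R : Matrix ι ι ℝ)
    (hN : 2 ≤ Fintype.card ι) (hR : ∀ i, R i i = 1) (a b : ι) :
    Cm κ s R a b = (if a = b then (1 - s * Fintype.card ι / ((Fintype.card ι : ℝ) - 1)) else 0) +
      ((κ - 1) / (Fintype.card ι : ℝ) + s / ((Fintype.card ι : ℝ) - 1)) + s * R a b := by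
  have h1 : ((Fintype.card ι : ℝ) - 1) ≠ 0 := by
    have : (2 : ℝ) ≤ Fintype.card ι := by exact_mod_cast hN
    linarith
  simp only [Cm, Ek, R0, Matrix.add_apply, Matrix.smul_apply, Matrix.sub_apply, Matrix.of_apply,
    smul_eq_mul]
  by_cases hab : a = b
  · subst hab
    rw [if_pos rfl, if_pos rfl, if_pos rfl, hR a]
    field_simp
    ring
  · rw [if_neg hab, if_neg hab, if_neg hab]
    ring

theorem K3 : St_K3 := by
  intro ι _ _ Q R κ s hN hQ hR h i j hij
  have hR1 : ∀ a, R a a = 1 := hR.2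
  have hsym : ∀ a b, R a b = R b a := by
    intro a b
    have := hR.1.isHermitian.apply b a
    simpa using this
  have h1 : ((Fintype.card ι : ℝ) - 1) ≠ 0 := by
    have : (2 : ℝ) ≤ Fintype.card ι := by exact_mod_cast hN
    linarith
  set δ : ℝ := 1 - s * Fintype.card ι / ((Fintype.card ι : ℝ) - 1) with hδ
  refine ⟨?_, ?_, ?_⟩
  · unfold AA
    have e1 : ∀ k ∈ univ.erase i, ((Cm κ s R) j k - (Cm κ s R) i k) * Q i k =
        (if j = k then δ * Q i k else 0) + (s * (Q i k * R k j) - s * (Q i k * R i k)) := by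
      intro k hk
      have hki : i ≠ k := fun h => (Finset.mem_erase.mp hk).1 h.symm
      rw [K3_Cm κ s R hN hR1 j k, K3_Cm κ s R hN hR1 i k, if_neg hki, hsym k j, ← hδ]
      by_cases hjk : j = k
      · rw [if_pos hjk, if_pos hjk]; ring
      · rw [if_neg hjk, if_neg hjk]; ring
    rw [Finset.sum_congr rfl e1, Finset.sum_add_distrib, Finset.sum_sub_distrib, ← Finset.mul_sum,
      ← Finset.mul_sum, h i j, Finset.sum_ite_eq]
    rw [if_pos (Finset.mem_erase.mpr ⟨fun h => hij h.symm, Finset.mem_univ _⟩)]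
    have e2 : ∑ k ∈ univ.erase i, Q i k * R i k = -rho Q R i := by
      unfold rho; ring
    rw [e2]
    ring
  · rw [K3_Cm κ s R hN hR1 i i, K3_Cm κ s R hN hR1 j j, if_pos rfl, if_pos rfl, hR1, hR1]
  · rw [K3_Cm κ s R hN hR1 i i, K3_Cm κ s R hN hR1 i j, if_pos rfl, if_neg hij, hR1, ← hδ]
    ring

end Pool.Agent.H604R2.SW
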