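import Pool.Agent.H604R2.SW.Props

set_option autoImplicit false

namespace Pool.Agent.H604R2.SW

open MeasureTheory Matrix Finset Filter Topology Set ProbabilityTheory
open scoped BigOperators

theorem K4aux_quad {ι : Type} [Fintype ι] {R : Matrix ι ι ℝ} (hR : R.PosSemidef)
    (x : ι → ℝ) : 0 ≤ ∑ k, ∑ l, R k l * x k * x l := by
  have h := hR.dotProduct_mulVec_nonneg x
  have e : star x ⬝ᵥ (R *ᵥ x) = ∑ k, ∑ l, R k l * x k * x l := by
    unfold dotProduct mulVec dotProduct
    refine Finset.sum_congr rfl (fun k _ => ?_)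
    rw [Finset.mul_sum]
    refine Finset.sum_congr rfl (fun l _ => ?_)
    simp only [Pi.star_apply, star_trivial]
    ring
  rwa [e] at h

theorem K4aux_bil {ι : Type} [Fintype ι] [DecidableEq ι] (B : ι → ι → ℝ) (i j k : ι) (a b c : ℝ) :
    ∑ m, ∑ l, B m l * ((if m = i then a else 0) + (if m = j then b else 0) +
      (if m = k then c else 0)) *
      ((if l = i then a else 0) + (if l = j then b else 0) + (if l = k then c else 0)) =
      a * a * B i i + a * b * B i j + a * b * B j i + b * b * B j j +
      a * c * (B i k + B k i) + b * c * (B j k + B k j) + c * c * B k k := by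
  simp only [mul_add, add_mul, Finset.sum_add_distrib, mul_ite, ite_mul, mul_zero, zero_mul,
    Finset.sum_ite_eq', Finset.mem_univ, if_true]
  ring

theorem K4aux_sym {ι : Type} [Fintype ι] [DecidableEq ι] {R : Matrix ι ι ℝ} (hR : Corr R)
    (k l : ι) : R k l = R l k := by
  have := hR.1.isHermitian.apply l k
  simpa using this

theorem K4aux_three {ι : Type} [Fintype ι] [DecidableEq ι] {R : Matrix ι ι ℝ} (hR : Corr R)
    (i j k : ι) (a b c : ℝ) : 0 ≤ a ^ 2 + b ^ 2 + c ^ 2 + 2 * a * b * R i j +
      2 * a * c * R i k + 2 * b * c * R j k := by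
  have h := K4aux_quad hR.1 (fun m => (if m = i then a else 0) + (if m = j then b else 0) +
      (if m = k then c else 0))
  rw [K4aux_bil (fun m l => R m l)] at h
  rw [hR.2 i, hR.2 j, hR.2 k, K4aux_sym hR j i, K4aux_sym hR k i, K4aux_sym hR k j] at h
  linarith

theorem K4aux_le_one {ι : Type} [Fintype ι] [DecidableEq ι] {R : Matrix ι ι ℝ} (hR : Corr R)
    (i j : ι) : R i j ≤ 1 := by
  have h := K4aux_three hR i j j 1 (-1) 0
  linarith

theorem K4aux_ker {ι : Type} [Fintype ι] [DecidableEq ι] {R : Matrix ι ι ℝ} (hR : Corr R)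
    (i j : ι) (hij : R i j = 1) (k : ι) : R i k = R j k := by
  by_contra hne
  have hd : R i k - R j k ≠ 0 := sub_ne_zero.mpr hne
  have h := K4aux_three hR i j k (-(1 / (R i k - R j k))) (1 / (R i k - R j k)) 1
  rw [hij] at h
  have e : (-(1 / (R i k - R j k))) ^ 2 + (1 / (R i k - R j k)) ^ 2 + 1 ^ 2 +
      2 * (-(1 / (R i k - R j k))) * (1 / (R i k - R j k)) * 1 +
      2 * (-(1 / (R i k - R j k))) * 1 * R i k + 2 * (1 / (R i k - R j k)) * 1 * R j k = -1 := by
    field_simp
    ring
  rw [e] at h
  linarith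

theorem K4 : St_K4 := by
  intro ι _ _ Q R s hN hs hδ hQ hpos hR h1 h2 h3
  set δ := 1 - s * Fintype.card ι / ((Fintype.card ι : ℝ) - 1) with hδd
  -- pairs with R i j ≠ 1
  have hA : ∀ i j, R i j ≠ 1 → rho Q R i = Q i j ∧ rho Q R j = Q i j := by
    intro i j hne
    have hij : i ≠ j := by
      rintro rfl
      exact hne (hR.2 i)
    have hx : 0 < s * (1 - R i j) := by
      have := lt_of_le_of_ne (K4aux_le_one hR i j) hne
      exact mul_pos hs (by linarith)
    obtain ⟨hi, hij2⟩ := h2 i j hij
    obtain ⟨hj, _⟩ := h2 j i hij.symm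
    have hq := hpos i j hij
    have hp := h3 i j hij
    set x := s * (1 - R i j) with hxd
    set q := Q i j with hqd
    have hsum : 2 * q ≤ rho Q R i + rho Q R j := by
      by_contra hlt
      push Not at hlt
      have h5 : (rho Q R i + rho Q R j) ^ 2 < (2 * q) ^ 2 :=
        pow_lt_pow_left₀ hlt (by linarith) two_ne_zero
      nlinarith [sq_nonneg (rho Q R i - rho Q R j)]
    have h6 : δ * q * x * (rho Q R i + rho Q R j - 2 * q) +
        x ^ 2 * (rho Q R i * rho Q R j - q ^ 2) ≤ 0 := by nlinarith
    have h7 : 0 ≤ x ^ 2 * (rho Q R i * rho Q R j - q ^ 2) :=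
      mul_nonneg (sq_nonneg x) (by linarith)
    have h8 : δ * q * x * (rho Q R i + rho Q R j - 2 * q) ≤ 0 := by linarith
    have h9 : 0 < δ * q * x := by positivity
    have h10 : rho Q R i + rho Q R j - 2 * q ≤ 0 := by
      by_contra hc
      push Not at hc
      have := mul_pos h9 hc
      linarith
    have h11 : rho Q R i + rho Q R j = 2 * q := by linarith
    have h12 : (rho Q R i - rho Q R j) ^ 2 ≤ 0 := by
      have : (rho Q R i - rho Q R j) ^ 2 = (rho Q R i + rho Q R j) ^ 2 -
        4 * (rho Q R i * rho Q R j) := by ring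
      rw [this, h11]
      nlinarith
    have h13 : rho Q R i - rho Q R j = 0 := by
      have := le_antisymm h12 (sq_nonneg _)
      exact pow_eq_zero_iff two_ne_zero |>.mp this
    constructor <;> linarith
  by_cases hall : ∀ i j, R i j = 1
  · exfalso
    obtain ⟨i, j, hij⟩ := Fintype.exists_pair_of_one_lt_card (α := ι) (by omega)
    have hi := (h2 i j hij).1
    unfold rho at hi
    have h4 : 0 < ∑ k ∈ univ.erase i, Q i k * R i k := by
      refine Finset.sum_pos (fun k hk => ?_) ⟨j, Finset.mem_erase.mpr ⟨hij.symm, Finset.mem_univ j⟩⟩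
      rw [hall i k, mul_one]
      exact hpos i k (Finset.ne_of_mem_erase hk).symm
    linarith
  push Not at hall
  obtain ⟨p, q, hpq⟩ := hall
  set r := rho Q R p with hr
  have hpq' : p ≠ q := by
    rintro rfl
    exact hpq (hR.2 p)
  have hr0 : 0 < r := by
    rw [hr, (hA p q hpq).1]
    exact hpos p q hpq'
  have hrq : rho Q R q = r := by
    rw [hr, (hA p q hpq).1, (hA p q hpq).2]
  have hρ : ∀ i, rho Q R i = r := by
    intro i
    by_cases hip : R i p = 1
    · have h5 := K4aux_ker hR i p hip q
      have h6 : R i q ≠ 1 := by rw [h5]; exact hpq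
      rw [(hA i q h6).1, ← (hA i q h6).2, hrq]
    · rw [(hA i p hip).1, ← (hA i p hip).2]
  have hQr : ∀ i j, i ≠ j → Q i j ≤ r := by
    intro i j hij
    have h5 := (h2 i j hij).2
    rw [hρ i, hρ j, ← sq] at h5
    exact le_of_sq_le_sq h5 hr0.le
  set lam : ι → ℝ := fun i => ∑ j ∈ univ.erase i, (r - Q i j) with hlam
  have hlam0 : ∀ i, 0 ≤ lam i := by
    intro i
    refine Finset.sum_nonneg (fun j hj => ?_)
    have := hQr i j (Finset.ne_of_mem_erase hj).symm
    linarith
  have hL1 : ∀ i k, lam i * R i k = r * ∑ j, R j k := by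
    intro i k
    have h5 := h1 i k
    rw [hρ i] at h5
    rw [← Finset.add_sum_erase univ (fun j => R j k) (Finset.mem_univ i)]
    have h6 : ∑ j ∈ univ.erase i, (r - Q i j) * R j k = lam i * R i k := by
      rw [hlam, Finset.sum_mul]
      refine Finset.sum_congr rfl (fun j _ => ?_)
      by_cases hij : R i j = 1
      · rw [K4aux_ker hR i j hij k]
      · have h7 := (hA i j hij).1
        rw [hρ i] at h7
        rw [h7]; ring
    rw [← h6]
    have h8 : ∑ j ∈ univ.erase i, (r - Q i j) * R j k =
        r * ∑ j ∈ univ.erase i, R j k - ∑ j ∈ univ.erase i, Q i j * R j k := by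
      rw [Finset.mul_sum, ← Finset.sum_sub_distrib]
      refine Finset.sum_congr rfl (fun j _ => ?_)
      ring
    rw [h8, h5]
    ring
  have hL2 : ∀ i k, lam i * R i k = lam k := by
    intro i k
    rw [hL1 i k, ← hL1 k k, hR.2 k, mul_one]
  have hL3 : ∀ i, lam i = 0 := by
    intro i
    by_contra hne
    have hi : 0 < lam i := lt_of_le_of_ne (hlam0 i) (Ne.symm hne)
    have hone : ∀ k, R i k = 1 := by
      intro k
      have h5 := hL2 i k
      have h6 := hL2 k i
      rw [K4aux_sym hR k i, ← h5, mul_assoc] at h6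
      have h7 : R i k * R i k = 1 := by
        have : lam i * (R i k * R i k - 1) = 0 := by linarith
        rcases mul_eq_zero.mp this with h | h
        · exact absurd h hne
        · linarith
      have h8 : 0 ≤ R i k := by
        by_contra hc
        push Not at hc
        have := mul_neg_of_pos_of_neg hi hc
        rw [h5] at this
        linarith [hlam0 k]
      nlinarith
    exact hpq (by rw [← K4aux_ker hR i p (hone p) q]; exact hone q)
  have hQe : ∀ i j, i ≠ j → Q i j = r := by
    intro i j hij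
    have h5 := (Finset.sum_eq_zero_iff_of_nonneg (fun j hj => by
      have := hQr i j (Finset.ne_of_mem_erase hj).symm
      linarith)).mp (hL3 i) j (Finset.mem_erase.mpr ⟨hij.symm, Finset.mem_univ j⟩)
    linarith
  have hN1 : (0:ℝ) < (Fintype.card ι : ℝ) - 1 := by
    have : (2:ℝ) ≤ Fintype.card ι := by exact_mod_cast hN
    linarith
  refine le_of_eq ?_
  symm
  refine Finset.sum_eq_zero (fun i _ => ?_)
  have h5 : ∑ j ∈ univ.erase i, Q i j * (R i j + 1 / ((Fintype.card ι : ℝ) - 1)) =
      ∑ j ∈ univ.erase i, Q i j * R i j +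
        ∑ j ∈ univ.erase i, r * (1 / ((Fintype.card ι : ℝ) - 1)) := by
    rw [← Finset.sum_add_distrib]
    refine Finset.sum_congr rfl (fun j hj => ?_)
    rw [hQe i j (Finset.ne_of_mem_erase hj).symm]
    ring
  have h6 : ∑ j ∈ univ.erase i, Q i j * R i j = -r := by
    have := hρ i
    unfold rho at this
    linarith
  rw [h5, h6, Finset.sum_const, Finset.card_erase_of_mem (Finset.mem_univ i), Finset.card_univ,
    nsmul_eq_mul, Nat.cast_sub (by omega), Nat.cast_one]
  field_simp
  ring

end Pool.Agent.H604R2.SW
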