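import Pool.Agent.H604R2.SW.Props

set_option autoImplicit false

namespace Pool.Agent.H604R2.SW

open MeasureTheory Matrix Finset Filter Topology Set ProbabilityTheory
open scoped BigOperators

namespace O1aux

theorem base {ι : Type} [Fintype ι] [DecidableEq ι] (a c : ℝ) (hN : 0 < Fintype.card ι)
    (ha : 0 < a) (hc : 0 < a / Fintype.card ι + c) :
    (a • (1 : Matrix ι ι ℝ) + Matrix.of (fun _ _ => c)).PosDef := by
  have hN' : (0 : ℝ) < Fintype.card ι := by exact_mod_cast hN
  apply Matrix.PosDef.of_dotProduct_mulVec_pos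
  · ext i j
    simp [Matrix.conjTranspose_apply, Matrix.one_apply, eq_comm]
  · intro x hx
    have hq : star x ⬝ᵥ ((a • (1 : Matrix ι ι ℝ) + Matrix.of (fun _ _ => c)) *ᵥ x) =
        a * ∑ i, x i ^ 2 + c * (∑ i, x i) ^ 2 := by
      rw [Matrix.add_mulVec, dotProduct_add, Matrix.smul_mulVec, Matrix.one_mulVec,
        dotProduct_smul]
      congr 1
      · simp [dotProduct, pow_two]
      · simp only [dotProduct, Matrix.mulVec, Matrix.of_apply, Pi.star_apply, star_trivial]
        rw [← Finset.sum_mul, ← Finset.mul_sum]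
        ring
    rw [hq]
    have hcs : (∑ i, x i) ^ 2 ≤ Fintype.card ι * ∑ i, x i ^ 2 := by
      have := sq_sum_le_card_mul_sum_sq (s := (Finset.univ : Finset ι)) (f := x)
      simpa using this
    have hpos : 0 < ∑ i, x i ^ 2 := by
      obtain ⟨i, hi⟩ := Function.ne_iff.1 hx
      apply Finset.sum_pos' (fun j _ => sq_nonneg _)
      exact ⟨i, Finset.mem_univ i, by have : x i ≠ 0 := hi; positivity⟩
    by_cases hs : ∑ i, x i = 0
    · rw [hs]
      have : 0 < a * ∑ i, x i ^ 2 := mul_pos ha hpos
      simpa using this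
    · have hs2 : 0 < (∑ i, x i) ^ 2 := by positivity
      have h1 : 0 < (a / Fintype.card ι + c) * (∑ i, x i) ^ 2 := mul_pos hc hs2
      have h2 : a / Fintype.card ι * (∑ i, x i) ^ 2 ≤ a * ∑ i, x i ^ 2 := by
        rw [div_mul_eq_mul_div, div_le_iff₀ hN']
        nlinarith
      nlinarith

end O1aux

theorem O1 : St_O1 := by
  intro ι _ _ κ s R hN hκ hs hδ hR
  set N : ℝ := (Fintype.card ι : ℝ) with hNdef
  have hN2 : (2 : ℝ) ≤ N := by rw [hNdef]; exact_mod_cast hN
  have hN1 : (0 : ℝ) < N - 1 := by linarith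
  have hCm : Cm κ s R = ((1 - s * N / (N - 1)) • (1 : Matrix ι ι ℝ) +
      Matrix.of (fun _ _ => (κ - 1) / N + s / (N - 1))) + s • R := by
    ext i j
    simp only [Cm, Ek, R0, Matrix.add_apply, Matrix.smul_apply, Matrix.sub_apply, Matrix.of_apply,
      Matrix.one_apply, smul_eq_mul, ← hNdef]
    by_cases hij : i = j
    · simp only [hij, if_true]
      field_simp
      ring
    · simp only [hij, if_false]
      field_simp
      ring
  rw [hCm]
  apply Matrix.PosDef.add_posSemidef
  · apply O1aux.base _ _ (by omega) hδ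
    rw [← hNdef]
    have : (1 - s * N / (N - 1)) / N + ((κ - 1) / N + s / (N - 1)) = κ / N := by
      field_simp
      ring
    rw [this]
    positivity
  · exact hR.1.smul hs

end Pool.Agent.H604R2.SW
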