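import Pool.Agent.H604R2.SW.Props

set_option autoImplicit false

namespace Pool.Agent.H604R2.SW

open MeasureTheory Matrix Finset Filter Topology Set ProbabilityTheory
open scoped BigOperators

namespace O2aux

theorem quad_single {ι : Type} [Fintype ι] [DecidableEq ι] (R : Matrix ι ι ℝ) (hR : R.PosSemidef)
    (i j : ι) (s : ℝ) : 0 ≤ R i i + s * R i j + s * R j i + s * s * R j j := by
  have h := hR.dotProduct_mulVec_nonneg (Pi.single i 1 + s • Pi.single j (1 : ℝ))
  have e : star (Pi.single i 1 + s • Pi.single j (1 : ℝ)) ⬝ᵥ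
      (R *ᵥ (Pi.single i 1 + s • Pi.single j (1 : ℝ))) =
      R i i + s * R i j + s * R j i + s * s * R j j := by
    rw [star_trivial, Matrix.mulVec_add, Matrix.mulVec_smul, add_dotProduct, dotProduct_add,
      dotProduct_add, smul_dotProduct, smul_dotProduct, dotProduct_smul, dotProduct_smul]
    simp only [Matrix.mulVec_single_one, single_one_dotProduct, Matrix.col_apply, smul_eq_mul]
    ring
  rw [e] at h
  exact h

theorem bound {ι : Type} [Fintype ι] [DecidableEq ι] (R : Matrix ι ι ℝ) (hR : Corr R) (i j : ι) :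
    -1 ≤ R i j ∧ R i j ≤ 1 := by
  have hsym : R j i = R i j := by
    have := congrFun (congrFun hR.1.isHermitian i) j
    simpa using this
  have h1 := quad_single R hR.1 i j 1
  have h2 := quad_single R hR.1 i j (-1)
  rw [hR.2 i, hR.2 j, hsym] at h1 h2
  constructor <;> linarith

theorem closed {ι : Type} [Fintype ι] [DecidableEq ι] : IsClosed {R : Matrix ι ι ℝ | Corr R} := by
  have hset : {R : Matrix ι ι ℝ | Corr R} =
      {R : Matrix ι ι ℝ | Rᴴ = R} ∩ ((⋂ x : ι → ℝ, {R : Matrix ι ι ℝ | 0 ≤ star x ⬝ᵥ (R *ᵥ x)}) ∩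
        ⋂ i : ι, {R : Matrix ι ι ℝ | R i i = 1}) := by
    ext R
    simp only [Corr, Matrix.posSemidef_iff_dotProduct_mulVec, Matrix.IsHermitian,
      Set.mem_ofPred_eq, Set.mem_inter_iff, Set.mem_iInter]
    tauto
  rw [hset]
  apply IsClosed.inter
  · exact isClosed_eq (Continuous.matrix_conjTranspose continuous_id) continuous_id
  · apply IsClosed.inter
    · apply isClosed_iInter
      intro x
      apply isClosed_le continuous_const
      exact Continuous.dotProduct continuous_const
        (Continuous.matrix_mulVec continuous_id continuous_const)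
    · apply isClosed_iInter
      intro i
      apply isClosed_eq _ continuous_const
      exact continuous_id.matrix_elem i i

end O2aux

theorem O2 : St_O2 := by
  intro ι _ _
  refine ⟨?_, ⟨Matrix.PosSemidef.one, fun i => Matrix.one_apply_eq i⟩, ?_⟩
  · have hK : IsCompact (Set.pi Set.univ (fun _ : ι => Set.pi Set.univ (fun _ : ι =>
        Set.Icc (-1 : ℝ) 1))) :=
      isCompact_univ_pi fun _ => isCompact_univ_pi fun _ => isCompact_Icc
    apply IsCompact.of_isClosed_subset hK O2aux.closed
    intro R hR i _ j _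
    exact ⟨(O2aux.bound R hR i j).1, (O2aux.bound R hR i j).2⟩
  · intro R R' hR hR' a ha0 ha1
    constructor
    · have e : R + a • (R' - R) = (1 - a) • R + a • R' := by
        rw [smul_sub, sub_smul, one_smul]
        abel
      rw [e]
      exact (hR.1.smul (by linarith : (0 : ℝ) ≤ 1 - a)).add (hR'.1.smul ha0)
    · intro i
      simp only [Matrix.add_apply, Matrix.smul_apply, Matrix.sub_apply, hR.2 i, hR'.2 i,
        smul_eq_mul]
      ring

end Pool.Agent.H604R2.SW
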