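import Pool.Agent.H604R2.SW.Props

set_option autoImplicit false

namespace Pool.Agent.H604R2.SW

open MeasureTheory Matrix Finset Filter Topology Set ProbabilityTheory
open scoped BigOperators

theorem PI_exists_perm {n : ℕ} (i j : Fin (n + 2)) (hij : i ≠ j) :
    ∃ σ : Equiv.Perm (Fin (n + 2)), σ 0 = i ∧ σ 1 = j := by
  set j' : Fin (n + 2) := (Equiv.swap 0 i).symm j with hj'
  have h0 : j' ≠ 0 := by
    intro h
    have h2 : (Equiv.swap 0 i) j' = (Equiv.swap 0 i) 0 := by rw [h]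
    rw [hj', Equiv.apply_symm_apply, Equiv.swap_apply_left] at h2
    exact hij h2.symm
  refine ⟨(Equiv.swap 1 j').trans (Equiv.swap 0 i), ?_, ?_⟩
  · rw [Equiv.trans_apply, Equiv.swap_apply_of_ne_of_ne (by simp) h0.symm,
      Equiv.swap_apply_left]
  · rw [Equiv.trans_apply, Equiv.swap_apply_left, hj', Equiv.apply_symm_apply]

theorem PI_AA {n : ℕ} (C : Matrix (Fin (n + 2)) (Fin (n + 2)) ℝ) (σ : Equiv.Perm (Fin (n + 2)))
    (ht : ∀ k l, tie (C.submatrix σ σ) k l = tie C (σ k) (σ l)) (a b : Fin (n + 2)) :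
    AA (C.submatrix σ σ) (Matrix.of (tie (C.submatrix σ σ))) a b =
      AA C (Matrix.of (tie C)) (σ a) (σ b) := by
  unfold AA
  simp only [Matrix.submatrix_apply, Matrix.of_apply, ht]
  apply Finset.sum_equiv σ
  · intro k
    simp
  · intro k _
    rfl

theorem PI_ (h1 : St_PI01) (h6 : St_relabel) : St_PI := by
  intro n C hC i j hij hd hA hB
  obtain ⟨σ, h0, h1'⟩ := PI_exists_perm i j hij
  have ht := (h6 C σ).2.2
  have hC' : (C.submatrix σ σ).PosDef := hC.submatrix σ.injective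
  have h := h1 (C.submatrix σ σ) hC' (by simp only [Matrix.submatrix_apply, h0, h1', hd])
  rw [PI_AA C σ ht, PI_AA C σ ht, h0, h1', ht, Matrix.submatrix_apply, Matrix.submatrix_apply, h0,
    h1'] at h
  exact h hA hB

end Pool.Agent.H604R2.SW
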