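import Pool.Agent.H604R2.SW.Props

set_option autoImplicit false

namespace Pool.Agent.H604R2.SW

open MeasureTheory Matrix Finset Filter Topology Set ProbabilityTheory
open scoped BigOperators

section
variable {n : ℕ}

theorem PI01_Dpos (C : Matrix (Fin (n + 2)) (Fin (n + 2)) ℝ) (hC : C.PosDef)
    (h : C 0 0 = C 1 1) : 0 < C 0 0 - C 0 1 := by
  have h01 : C 1 0 = C 0 1 := by
    have := hC.1.apply 0 1
    simpa using this
  have hx : ((Pi.single (0 : Fin (n + 2)) (1 : ℝ) : Fin (n + 2) → ℝ) -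
      (Pi.single (1 : Fin (n + 2)) (1 : ℝ) : Fin (n + 2) → ℝ)) ≠ 0 := by
    intro hh
    have := congrFun hh 0
    simp at this
  have := hC.dotProduct_mulVec_pos hx
  simp only [star_trivial, Matrix.mulVec_sub, sub_dotProduct, dotProduct_sub,
    Matrix.mulVec_single_one, single_dotProduct, one_mul, Matrix.col_apply] at this
  linarith

theorem PI01_swp_swp (C : Matrix (Fin (n + 2)) (Fin (n + 2)) ℝ) : swp (swp C) = C := by
  ext i j
  simp [swp]

theorem PI01_swp_pos (C : Matrix (Fin (n + 2)) (Fin (n + 2)) ℝ) (hC : C.PosDef) :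
    (swp C).PosDef := by
  unfold swp
  exact hC.submatrix (Equiv.injective _)

theorem PI01_AA_swp (h6 : St_relabel) (C : Matrix (Fin (n + 2)) (Fin (n + 2)) ℝ) :
    AA (swp C) (Matrix.of (tie (swp C))) 0 1 = AA C (Matrix.of (tie C)) 1 0 := by
  unfold AA
  have hE : (univ.erase (1 : Fin (n + 2))) =
      (univ.erase (0 : Fin (n + 2))).map (Equiv.swap (0 : Fin (n + 2)) 1).toEmbedding := by
    ext k
    simp only [mem_erase, Finset.mem_univ, and_true, Finset.mem_map, Equiv.coe_toEmbedding]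
    constructor
    · intro hk
      refine ⟨Equiv.swap 0 1 k, ?_, by simp⟩
      intro h
      apply hk
      have := congrArg (Equiv.swap (0 : Fin (n + 2)) 1) h
      simpa using this
    · rintro ⟨a, ha, rfl⟩ h
      apply ha
      have := congrArg (Equiv.swap (0 : Fin (n + 2)) 1) h
      simpa using this
  rw [hE, Finset.sum_map]
  refine Finset.sum_congr rfl fun k _ => ?_
  have h3 := (h6 C (Equiv.swap 0 1)).2.2 0 k
  simp only [Equiv.swap_apply_left] at h3
  simp only [Matrix.of_apply, Equiv.coe_toEmbedding]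
  have : tie (swp C) 0 k = tie C 1 (Equiv.swap 0 1 k) := h3
  rw [this]
  simp [swp]

theorem PI01_AA (h1 : St_tie01) (h2 : St_tie0j) (C : Matrix (Fin (n + 2)) (Fin (n + 2)) ℝ)
    (hC : C.PosDef) (h : C 0 0 = C 1 1) :
    AA C (Matrix.of (tie C)) 0 1 =
      (C 0 0 - C 0 1) * (G1 C 0 - ∫ t in Ioi (0 : ℝ), b1 C t) := by
  have hD := PI01_Dpos C hC h
  rw [← (h2 C hC).2, ← h1 C hC]
  unfold AA
  have hs := Finset.sum_erase_eq_sub (f := fun k => (C 1 k - C 0 k) * (Matrix.of (tie C)) 0 k)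
    (Finset.mem_univ (0 : Fin (n + 2)))
  rw [hs, Fin.sum_univ_succ, Fin.sum_univ_succ, mul_sub, Finset.mul_sum]
  have e : ∀ i : Fin n, (C 0 0 - C 0 1) * (kap C i * tie C 0 i.succ.succ) =
      -((C 1 i.succ.succ - C 0 i.succ.succ) * (Matrix.of (tie C)) 0 i.succ.succ) := by
    intro i
    unfold kap
    simp only [Matrix.of_apply]
    field_simp
    ring
  rw [Finset.sum_congr rfl (fun i _ => e i), Finset.sum_neg_distrib]
  simp only [Matrix.of_apply, Fin.succ_zero_eq_one]
  rw [h]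
  ring

theorem PI01_G1_swp (h6 : St_relabel) (C : Matrix (Fin (n + 2)) (Fin (n + 2)) ℝ) :
    G1 (swp C) 0 = G1 C 0 := by
  unfold G1
  refine integral_congr_ae (Filter.Eventually.of_forall fun y => ?_)
  have := (h6 C (Equiv.swap 0 1)).1 (vec 0 (-0) y)
  simp only
  rw [← this]
  unfold swp
  congr 1
  ext i
  refine Fin.cases ?_ (fun i => Fin.cases ?_ (fun i => ?_) i) i
  · simp [vec]
  · simp [vec]
  · rw [Equiv.swap_apply_of_ne_of_ne]
    · exact Fin.succ_ne_zero _
    · intro h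
      have := congrArg Fin.val h
      simp at this

end

theorem PI01 (h1 : St_tie01) (h2 : St_tie0j) (h3 : St_G1) (h4 : St_lci) (h5 : St_lemG)
    (h6 : St_relabel) : St_PI01 := by
  intro n C hC h hA hB
  have hD := PI01_Dpos C hC h
  have hS := PI01_swp_pos C hC
  have h01 : C 1 0 = C 0 1 := by
    have := hC.1.apply 0 1
    simpa using this
  have hs00 : swp C 0 0 = C 1 1 := by simp [swp]
  have hs11 : swp C 1 1 = C 0 0 := by simp [swp]
  have hs01 : swp C 0 1 = C 1 0 := by simp [swp]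
  have hSe : swp C 0 0 = swp C 1 1 := by rw [hs00, hs11, h]
  have e1 := PI01_AA h1 h2 C hC h
  have e2 := PI01_AA h1 h2 (swp C) hS hSe
  rw [PI01_AA_swp h6, hs00, hs01, h01, ← h] at e2
  obtain ⟨g1, g2, g3, g4⟩ := h3 C hC
  obtain ⟨k1, k2, k3, k4⟩ := h3 (swp C) hS
  have key := h5 (G1 C) (G1 (swp C)) (b1 C) (b1 (swp C)) (dG1 C) (dG1 (swp C))
    (fun t _ => g1 t) (fun t _ => k1 t) g2 k2 g3 k3 g4 k4 (h2 C hC).1 (h2 (swp C) hS).1
    (fun s t hs ht => h4 C hC h s t hs ht)
    (fun s t hs ht => by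
      have := h4 (swp C) hS hSe s t hs ht
      rwa [PI01_swp_swp] at this)
    (by rw [e1] at hA; exact nonneg_of_mul_nonneg_right hA hD)
    (by rw [e2] at hB; exact nonneg_of_mul_nonneg_right hB hD)
  rw [e1, e2, h1 C hC]
  rw [PI01_G1_swp h6] at key
  rw [PI01_G1_swp h6]
  have hD2 : 0 ≤ (C 0 0 - C 0 1) ^ 2 := sq_nonneg _
  nlinarith [mul_le_mul_of_nonneg_left key hD2]

end Pool.Agent.H604R2.SW
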