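import Pool.Agent.H604R2.SW.Props

set_option autoImplicit false

namespace Pool.Agent.H604R2.SW

open MeasureTheory Matrix Finset Filter Topology Set ProbabilityTheory
open scoped BigOperators

theorem cont_dens_x {ι : Type} [Fintype ι] [DecidableEq ι] (C : Matrix ι ι ℝ) :
    Continuous (dens C) := by
  unfold dens
  refine continuous_const.mul (Real.continuous_exp.comp ?_)
  unfold dotProduct mulVec dotProduct
  fun_prop

theorem cont_dens_C {ι : Type} [Fintype ι] [DecidableEq ι] (C₀ : Matrix ι ι ℝ) (h : C₀.PosDef)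
    (x : ι → ℝ) : ContinuousAt (fun C : Matrix ι ι ℝ => dens C x) C₀ := by
  have hd : C₀.det ≠ 0 := h.det_pos.ne'
  have hdet : Continuous fun C : Matrix ι ι ℝ => C.det := continuous_id.matrix_det
  have hadj : Continuous fun C : Matrix ι ι ℝ => C.adjugate := continuous_id.matrix_adjugate
  have hinv : ContinuousAt (fun C : Matrix ι ι ℝ => C⁻¹) C₀ := by
    have e : (fun C : Matrix ι ι ℝ => C⁻¹) = fun C => (C.det)⁻¹ • C.adjugate := by
      funext C
      rw [Matrix.inv_def, Ring.inverse_eq_inv']
    rw [e]
    exact (hdet.continuousAt.inv₀ hd).smul hadj.continuousAt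
  have hent : ∀ i j, ContinuousAt (fun C : Matrix ι ι ℝ => C⁻¹ i j) C₀ := fun i j =>
    (continuous_apply_apply i j).continuousAt.comp hinv
  unfold dens
  refine ContinuousAt.mul ?_ ?_
  · refine ContinuousAt.inv₀ ?_ ?_
    · exact Real.continuous_sqrt.continuousAt.comp (continuousAt_const.mul hdet.continuousAt)
    · have : 0 < (2 * Real.pi) ^ (Fintype.card ι) * C₀.det :=
        mul_pos (by positivity) h.det_pos
      exact (Real.sqrt_pos.2 this).ne'
  · refine Real.continuous_exp.continuousAt.comp ?_
    unfold dotProduct mulVec dotProduct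
    refine ContinuousAt.div_const (ContinuousAt.neg ?_) _
    refine tendsto_finsetSum _ fun i _ => ?_
    refine Tendsto.const_mul _ ?_
    refine tendsto_finsetSum _ fun j _ => ?_
    exact (hent i j).mul_const _

theorem cont_ (h : St_dom) : St_cont := by
  intro ι _ _ C₀ hC₀
  obtain ⟨ε, hε, c, hc, M, hM, hdom⟩ := h C₀ hC₀
  have hev : ∀ᶠ C in 𝓝[{C : Matrix ι ι ℝ | C.PosDef}] C₀,
      C.PosDef ∧ (∀ x, dens C x ≤ M * Real.exp (-c * ∑ i, x i ^ 2)) := by
    have h1 : ∀ᶠ C in 𝓝 C₀, ∀ i j, |C i j - C₀ i j| < ε := by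
      refine Filter.eventually_all.2 fun i => Filter.eventually_all.2 fun j => ?_
      have hcont : ContinuousAt (fun C : Matrix ι ι ℝ => |C i j - C₀ i j|) C₀ := by
        have : Continuous (fun C : Matrix ι ι ℝ => C i j) := continuous_apply_apply i j
        exact ((this.sub continuous_const).abs).continuousAt
      refine hcont.eventually_lt continuousAt_const ?_
      simpa using hε
    filter_upwards [nhdsWithin_le_nhds h1, self_mem_nhdsWithin] with C hC hP
    exact ⟨hP, (hdom C hP.1 hC).2.1⟩
  haveI : FirstCountableTopology (Matrix ι ι ℝ) :=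
    inferInstanceAs (FirstCountableTopology (ι → ι → ℝ))
  unfold ContinuousWithinAt orth
  refine tendsto_integral_filter_of_dominated_convergence
    (fun x => M * Real.exp (-c * ∑ i, x i ^ 2)) ?_ ?_ ?_ ?_
  · exact Eventually.of_forall fun C => (cont_dens_x C).aestronglyMeasurable
  · filter_upwards [hev] with C hC
    refine Eventually.of_forall fun x => ?_
    have h0 : 0 ≤ dens C x := by unfold dens; positivity
    rw [Real.norm_of_nonneg h0]
    exact hC.2 x
  · refine Integrable.integrableOn ?_
    refine Integrable.const_mul ?_ M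
    have e : (fun x : ι → ℝ => Real.exp (-c * ∑ i, x i ^ 2)) =
        fun x => ∏ i, Real.exp (-c * (x i) ^ 2) := by
      funext x
      rw [Finset.mul_sum, Real.exp_sum]
    rw [e]
    exact Integrable.fintype_prod fun _ => integrable_exp_neg_mul_sq hc
  · refine Eventually.of_forall fun x => ?_
    exact (cont_dens_C C₀ hC₀ x).continuousWithinAt

end Pool.Agent.H604R2.SW
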