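import Pool.Agent.H604R2.SW.Props

set_option autoImplicit false

namespace Pool.Agent.H604R2.SW

open MeasureTheory Matrix Finset Filter Topology Set ProbabilityTheory
open scoped BigOperators

/-- `Ek κ` in terms of `R0` -/
theorem end_Cm (d : ℕ) (κ s : ℝ) (R : Matrix (Fin (d + 2)) (Fin (d + 2)) ℝ) :
    Cm κ s R = s • R + ((((d : ℝ) + 1) / ((d : ℝ) + 2)) - s) • R0 (Fin (d + 2)) +
      Matrix.of (fun _ _ => κ / ((d : ℝ) + 2)) := by
  have h1 : ((d : ℝ) + 1) ≠ 0 := by positivity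
  have h2 : ((d : ℝ) + 2) ≠ 0 := by positivity
  have hcast : ((d + 2 : ℕ) : ℝ) = (d : ℝ) + 2 := by push_cast; ring
  have h3 : ((d : ℝ) + 2 - 1) ≠ 0 := by
    have : (d : ℝ) + 2 - 1 = (d : ℝ) + 1 := by ring
    rw [this]; exact h1
  ext i j
  simp only [Cm, Ek, R0, Matrix.add_apply, Matrix.smul_apply, Matrix.sub_apply, Matrix.of_apply,
    smul_eq_mul, Fintype.card_fin, hcast]
  by_cases hij : i = j
  · simp only [hij, if_true]
    field_simp
    ring
  · simp only [hij, if_false]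
    field_simp
    ring

theorem end_ (h1 : St_OP) (h2 : St_cont) (h3 : St_smul) (h4 : St_O1) : St_end := by
  intro d a b R ha hb hR hP
  have hd1 : (0 : ℝ) < (d : ℝ) + 1 := by positivity
  have hd2 : (0 : ℝ) < (d : ℝ) + 2 := by positivity
  obtain ⟨s0, hs0⟩ : ∃ s0 : ℝ, s0 = ((d : ℝ) + 1) / ((d : ℝ) + 2) := ⟨_, rfl⟩
  obtain ⟨c, hc⟩ : ∃ c : ℝ, c = b * ((d : ℝ) + 2) / ((d : ℝ) + 1) := ⟨_, rfl⟩
  obtain ⟨κ, hκ⟩ : ∃ κ : ℝ, κ = a * ((d : ℝ) + 1) / b := ⟨_, rfl⟩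
  have hs0p : 0 < s0 := by rw [hs0]; positivity
  have hcp : 0 < c := by rw [hc]; positivity
  have hκp : 0 < κ := by rw [hκ]; positivity
  have hcs : c * s0 = b := by rw [hc, hs0]; field_simp
  have hcκ : c * (κ / ((d : ℝ) + 2)) = a := by rw [hc, hκ]; field_simp
  have key : ∀ R' : Matrix (Fin (d + 2)) (Fin (d + 2)) ℝ,
      b • R' + Matrix.of (fun _ _ => a) = c • Cm κ s0 R' := by
    intro R'
    rw [end_Cm, hs0, sub_self, zero_smul, add_zero, smul_add, smul_smul, ← hs0, hcs]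
    congr 1
    ext i j
    simp only [Matrix.smul_apply, Matrix.of_apply, smul_eq_mul, hcκ]
  have hEk : Cm κ s0 (R0 (Fin (d + 2))) = Ek (Fin (d + 2)) κ := by
    unfold Cm
    rw [sub_self, smul_zero, add_zero]
  have hcond : ∀ s : ℝ, s < s0 → 0 < 1 - s * ((d : ℝ) + 2) / ((d : ℝ) + 1) := by
    intro s hs
    rw [sub_pos, div_lt_one hd1]
    rw [hs0, lt_div_iff₀ hd2] at hs
    exact hs
  have hcard : ((Fintype.card (Fin (d + 2)) : ℕ) : ℝ) = (d : ℝ) + 2 := by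
    rw [Fintype.card_fin]; push_cast; ring
  have hPD : ∀ s : ℝ, 0 ≤ s → s < s0 → (Cm κ s R).PosDef := by
    intro s hs hs'
    refine h4 κ s R (by rw [Fintype.card_fin]; omega) hκp hs ?_ hR
    rw [hcard]
    have : (d : ℝ) + 2 - 1 = (d : ℝ) + 1 := by ring
    rw [this]
    exact hcond s hs'
  have hPD0 : (Cm κ s0 R).PosDef := by
    have h5 : Cm κ s0 R = c⁻¹ • (b • R + Matrix.of (fun _ _ => a)) := by
      rw [key R, smul_smul, inv_mul_cancel₀ hcp.ne', one_smul]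
    rw [h5]
    exact hP.smul (inv_pos.2 hcp)
  have hEkPD : (Ek (Fin (d + 2)) κ).PosDef := by
    have := hPD 0 le_rfl hs0p
    unfold Cm at this
    rwa [zero_smul, add_zero] at this
  rw [key R, key (R0 (Fin (d + 2))), hEk, h3 _ c hEkPD hcp, h3 _ c hPD0 hcp]
  -- the limit
  have hcont : Continuous (fun s : ℝ => Cm κ s R) := by
    unfold Cm
    fun_prop
  have hlim : Tendsto (fun s : ℝ => orth (Cm κ s R)) (𝓝[<] s0) (𝓝 (orth (Cm κ s0 R))) := by
    have h6 : ContinuousWithinAt (fun C : Matrix (Fin (d + 2)) (Fin (d + 2)) ℝ => orth C)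
        {C | C.PosDef} (Cm κ s0 R) := h2 _ hPD0
    refine h6.tendsto.comp (tendsto_nhdsWithin_iff.2 ⟨?_, ?_⟩)
    · exact (hcont.tendsto s0).mono_left nhdsWithin_le_nhds
    · filter_upwards [Ico_mem_nhdsLT hs0p] with s hs
      exact hPD s hs.1 hs.2
  refine ge_of_tendsto hlim ?_
  filter_upwards [Ico_mem_nhdsLT hs0p] with s hs
  exact h1 κ s R hκp hs.1 (hcond s hs.2) hR

end Pool.Agent.H604R2.SW
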