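import Pool.Agent.H604R2.SW.Props

set_option autoImplicit false

namespace Pool.Agent.H604R2.SW

open MeasureTheory Matrix Finset Filter Topology Set ProbabilityTheory
open scoped BigOperators

theorem ftc : St_ftc := by
  intro n f g hg hd h0
  have hmp := (volume_preserving_piFinSuccAbove (fun _ : Fin (n + 1) => ℝ) 0).symm
  set e := (MeasurableEquiv.piFinSuccAbove (fun _ : Fin (n + 1) => ℝ) 0).symm with he
  have hev : ∀ p : ℝ × (Fin n → ℝ), e p = Matrix.vecCons p.1 p.2 := by
    intro p
    funext i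
    refine Fin.cases ?_ (fun j => ?_) i
    · rfl
    · rfl
  have hpre : e ⁻¹' Neg (Fin (n + 1)) = Iic (0 : ℝ) ×ˢ Neg (Fin n) := by
    ext ⟨t, y⟩
    rw [Set.mem_preimage, hev]
    simp only [Neg, Set.mem_ofPred_eq, Set.mem_prod, Set.mem_Iic]
    constructor
    · intro h
      exact ⟨by simpa using h 0, fun i => by simpa using h i.succ⟩
    · rintro ⟨h1, h2⟩ i
      refine Fin.cases ?_ (fun j => ?_) i
      · simpa using h1
      · simpa using h2 j
  have hI : Integrable (fun p : ℝ × (Fin n → ℝ) => g (Matrix.vecCons p.1 p.2))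
      ((volume : Measure ℝ).prod (volume : Measure (Fin n → ℝ))) := by
    have h1 : Integrable (g ∘ e) (volume : Measure (ℝ × (Fin n → ℝ))) :=
      (hmp.integrable_comp_emb e.measurableEmbedding).2 hg
    have h2 : (g ∘ e) = fun p : ℝ × (Fin n → ℝ) => g (Matrix.vecCons p.1 p.2) := by
      funext p
      rw [Function.comp_apply, hev]
    rw [h2] at h1
    exact h1
  have h1 : ∫ x in Neg (Fin (n + 1)), g x =
      ∫ p in Iic (0 : ℝ) ×ˢ Neg (Fin n), g (Matrix.vecCons p.1 p.2) := by
    rw [← hpre, ← hmp.setIntegral_preimage_emb e.measurableEmbedding]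
    simp only [hev]
  rw [h1]
  have h2 : ∫ p in Iic (0 : ℝ) ×ˢ Neg (Fin n), g (Matrix.vecCons p.1 p.2) =
      ∫ y in Neg (Fin n), ∫ t in Iic (0 : ℝ), g (Matrix.vecCons t y) := by
    have h3 : ((volume : Measure (ℝ × (Fin n → ℝ))).restrict (Iic (0 : ℝ) ×ˢ Neg (Fin n))) =
        ((volume : Measure ℝ).restrict (Iic 0)).prod
          ((volume : Measure (Fin n → ℝ)).restrict (Neg (Fin n))) := by
      rw [Measure.prod_restrict]
      rfl
    rw [h3]
    refine integral_prod_symm _ ?_
    rw [Measure.prod_restrict]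
    exact hI.integrableOn
  rw [h2]
  have h4 : ∀ᵐ y : Fin n → ℝ ∂(volume.restrict (Neg (Fin n))),
      ∫ t in Iic (0 : ℝ), g (Matrix.vecCons t y) = f (Matrix.vecCons 0 y) := by
    refine ae_restrict_of_ae ?_
    filter_upwards [hI.prod_left_ae] with y hy
    have h5 := integral_Iic_of_hasDerivAt_of_tendsto' (a := (0 : ℝ)) (m := (0 : ℝ))
      (f := fun t : ℝ => f (Matrix.vecCons t y)) (f' := fun t : ℝ => g (Matrix.vecCons t y))
      (fun t _ => hd y t) hy.integrableOn (h0 y)
    rw [h5, sub_zero]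
  exact integral_congr_ae h4

end Pool.Agent.H604R2.SW
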