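import Pool.Agent.H604R2.SW.Props

set_option autoImplicit false

namespace Pool.Agent.H604R2.SW

open MeasureTheory Matrix Finset Filter Topology Set ProbabilityTheory
open scoped BigOperators

theorem half : St_half := by
  intro G H b dG T hG hH hdG hG0 hb hineq hT hdT τ hτ
  set F : ℝ → ℝ := fun t => G t * (1 - t / T t) with hF
  set F' : ℝ → ℝ := fun t => dG t * (1 - t / T t) + G t * (-(1 * T t - t * (G t / t * (T t / H (T t)))) / T t ^ 2) with hF'
  have hder : ∀ t, 0 < t → HasDerivAt F (F' t) t := by
    intro t ht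
    have h1 := hdG t ht
    have h2 : HasDerivAt (fun t => t / T t)
        ((1 * T t - t * (G t / t * (T t / H (T t)))) / T t ^ 2) t :=
      (hasDerivAt_id t).div (hdT t ht) (hT t ht).ne'
    have h3 := h1.mul (h2.const_sub 1)
    have h4 : dG t * (1 - t / T t) + G t * -((1 * T t - t * (G t / t * (T t / H (T t)))) / T t ^ 2)
        = F' t := by
      simp only [hF']
      ring
    rw [← h4]
    exact h3
  have hge : ∀ t, 0 < t → -b t ≤ F' t := by
    intro t ht
    have hTt := hT t ht
    have hGt := hG t ht.le
    have hHt := hH (T t) hTt.le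
    have h1 := hineq (T t) t hTt ht
    have h2 : Real.log (G t / H (T t)) ≤ G t / H (T t) - 1 :=
      Real.log_le_sub_one_of_pos (div_pos hGt hHt)
    rw [Real.log_div hGt.ne' hHt.ne'] at h2
    have h3 : G t * (Real.log (G t) - Real.log (H (T t))) ≤ G t * (G t / H (T t) - 1) :=
      mul_le_mul_of_nonneg_left h2 hGt.le
    have h4 : -b t * T t ≤ (T t - t) * dG t + G t * (G t / H (T t) - 1) := by nlinarith
    have h5 : F' t * T t = (T t - t) * dG t + G t * (G t / H (T t) - 1) := by
      simp only [hF']
      field_simp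
      ring
    rw [← h5] at h4
    exact le_of_mul_le_mul_right h4 hTt
  have hint : IntegrableOn b (Ioi τ) := hb.mono_set (Ioi_subset_Ioi hτ.le)
  have hle : ∀ R, τ ≤ R → ∫ t in τ..R, (-b t) ≤ G R - F τ := by
    intro R hR
    have h1 : ∫ t in τ..R, (-b t) ≤ F R - F τ := by
      refine intervalIntegral.integral_le_sub_of_hasDeriv_right_of_le hR ?_ (g' := F') ?_ ?_ ?_
      · intro t ht
        exact (hder t (lt_of_lt_of_le hτ ht.1)).continuousAt.continuousWithinAt
      · intro t ht
        exact (hder t (hτ.trans ht.1)).hasDerivWithinAt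
      · refine Integrable.neg ?_
        exact hb.mono_set (fun t ht => lt_of_lt_of_le hτ ht.1)
      · intro t ht
        exact hge t (hτ.trans ht.1)
    have hRp : 0 < R := lt_of_lt_of_le hτ hR
    have h2 : F R ≤ G R := by
      simp only [hF]
      have : 0 < G R * (R / T R) := mul_pos (hG R hRp.le) (div_pos hRp (hT R hRp))
      nlinarith
    linarith
  have hlim1 : Tendsto (fun R => ∫ t in τ..R, (-b t)) atTop (𝓝 (∫ t in Ioi τ, (-b t))) :=
    intervalIntegral_tendsto_integral_Ioi τ hint.neg tendsto_id
  have hlim2 : Tendsto (fun R => G R - F τ) atTop (𝓝 (0 - F τ)) := hG0.sub_const _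
  have h := le_of_tendsto_of_tendsto hlim1 hlim2
    ((eventually_ge_atTop τ).mono fun R hR => hle R hR)
  rw [integral_neg] at h
  simp only [hF] at h
  linarith

end Pool.Agent.H604R2.SW
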