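import Pool.Agent.H604R2.SW.Props
import Pool.Agent.Helper843.SphB

set_option autoImplicit false
set_option linter.unusedSectionVars false

namespace Pool.Agent.H604R2.SW

open MeasureTheory Matrix Finset Filter Topology Set ProbabilityTheory
open scoped BigOperators

namespace hausAux

open Pool.Agent.Helper843.Haar Pool.Agent.Helper843.SphB

attribute [local instance] compactSpace_UG secondCountable_UG measUG borelUG

variable {E : Type*} [NormedAddCommGroup E] [InnerProductSpace ℝ E] [CompleteSpace E]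
  [FiniteDimensional ℝ E] [MeasurableSpace E] [BorelSpace E]

/-- Gaussian version for cones -/
lemma avg_gauss {n : ℕ} (hn : Module.finrank ℝ E = n + 1)
    (h0 : ∀ᵐ z ∂(stdGaussian E), z ≠ 0)
    (W : Set E) (hW : MeasurableSet W) (hcone : ∀ (r : ℝ) (z : E), 0 < r → (r • z ∈ W ↔ z ∈ W))
    (x0 : E) (hx0 : ‖x0‖ = 1) :
    avg W x0 = stdGaussian E W * tot E := by
  have hm : Measurable (W.indicator (fun _ => (1 : ENNReal))) := measurable_const.indicator hW
  have h := haar_avg (stdGaussian E) _ hm x0 ?_ ?_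
  · have h1 := lintegral_indicator_const (μ := stdGaussian E) hW (1 : ENNReal)
    rw [one_mul] at h1
    rw [measure_univ, h1, mul_one] at h
    exact h
  · intro Q
    have hmp : MeasurePreserving
        (Unitary.linearIsometryEquiv (Q⁻¹ : unitary (E →L[ℝ] E)) : E → E)
        (stdGaussian E) (stdGaussian E) :=
      ⟨(Unitary.linearIsometryEquiv (Q⁻¹ : unitary (E →L[ℝ] E))).continuous.measurable,
        stdGaussian_map _⟩
    have := hmp.lintegral_comp hm
    rw [act_eq]
    exact this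
  · filter_upwards [h0] with x hx
    have hx' : 0 < ‖x‖ := norm_pos_iff.2 hx
    have hn' : ‖(‖x‖⁻¹ • x : E)‖ = 1 := by
      rw [norm_smul, norm_inv, norm_norm, inv_mul_cancel₀ hx'.ne']
    have e : ∀ Q : unitary (E →L[ℝ] E), W.indicator (fun _ => (1 : ENNReal)) (act Q x)
        = W.indicator (fun _ => (1 : ENNReal)) (act Q (‖x‖⁻¹ • x)) := by
      intro Q
      have h1 : act Q (‖x‖⁻¹ • x) = ‖x‖⁻¹ • act Q x := by simp [act]
      rw [h1]
      have h2 := hcone ‖x‖⁻¹ (act Q x) (inv_pos.2 hx')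
      by_cases hz : act Q x ∈ W
      · rw [indicator_of_mem hz, indicator_of_mem (h2.2 hz)]
      · rw [indicator_of_notMem hz, indicator_of_notMem (fun hh => hz (h2.1 hh))]
    simp_rw [e]
    exact avg_const hn W _ x0 hn' hx0

lemma gauss_ne_zero (d : ℕ) :
    ∀ᵐ z ∂(stdGaussian (EuclideanSpace ℝ (Fin (d + 1)))), z ≠ 0 := by
  have hna : ∀ _ : Fin (d + 1), NullSingletonClass (gaussianReal 0 1) :=
    fun _ => nullSingletonClass_gaussianReal one_ne_zero
  rw [← map_pi_eq_stdGaussian]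
  refine (ae_map_iff (by fun_prop)
    (measurableSet_singleton (0 : EuclideanSpace ℝ (Fin (d + 1)))).compl).mpr ?_
  have h1 : ∀ᵐ x ∂(Measure.pi (fun _ : Fin (d + 1) => gaussianReal 0 1)), x ≠ 0 := by
    rw [ae_iff]
    simp
  filter_upwards [h1] with x hx h2
  exact hx ((WithLp.toLp_injective 2) (by simpa using h2))

end hausAux

open Pool.Agent.Helper843.SphB in
theorem haus (h : St_sphfin) : St_haus := by
  intro d
  refine ⟨Measure.hausdorffMeasure (d : ℝ) {x : EuclideanSpace ℝ (Fin (d + 1)) | ‖x‖ = 1}, ?_⟩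
  intro D hD hcone
  have hn : Module.finrank ℝ (EuclideanSpace ℝ (Fin (d + 1))) = d + 1 := by simp
  obtain ⟨x0, hx0⟩ : ∃ x0 : EuclideanSpace ℝ (Fin (d + 1)), ‖x0‖ = 1 :=
    ⟨EuclideanSpace.single 0 1, by simp⟩
  have h1 := avg_sphere hn (d : ℝ) _ rfl (h d) D hD x0 hx0
  have h2 := hausAux.avg_gauss hn (hausAux.gauss_ne_zero d) D hD hcone x0 hx0
  rw [h2] at h1
  have h3 : Measure.hausdorffMeasure (d : ℝ) (D ∩ {x | ‖x‖ = 1}) * tot (EuclideanSpace ℝ (Fin (d + 1)))
      = (Measure.hausdorffMeasure (d : ℝ) {x : EuclideanSpace ℝ (Fin (d + 1)) | ‖x‖ = 1} *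
        stdGaussian (EuclideanSpace ℝ (Fin (d + 1))) D) * tot (EuclideanSpace ℝ (Fin (d + 1))) := by
    rw [← h1]; ring
  exact (ENNReal.mul_left_inj tot_ne_zero tot_ne_top).1 h3

end Pool.Agent.H604R2.SW
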