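import Pool.Agent.H604R2.SW.Props
import Pool.Agent.H988R2.Gauss

set_option autoImplicit false

namespace Pool.Agent.H604R2.SW

open MeasureTheory Matrix Finset Filter Topology Set ProbabilityTheory
open scoped BigOperators

namespace homaux

/-- radial factor -/
noncomputable def Jr (d : ℕ) (g : ℝ → ℝ) : ℝ := ∫ r in Ioi (0 : ℝ), r ^ (d - 1) * (r * g r)

lemma polar (d : ℕ) (f : EuclideanSpace ℝ (Fin d) → ℝ)
    (hf : ∀ (t : ℝ) (x : EuclideanSpace ℝ (Fin d)), 0 ≤ t → f (t • x) = t * f x)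
    (hd : 1 ≤ d) (g : ℝ → ℝ) :
    ∫ x, f x * g ‖x‖ = (∫ u : Metric.sphere (0 : EuclideanSpace ℝ (Fin d)) 1,
          f (u : EuclideanSpace ℝ (Fin d)) ∂(Measure.toSphere
            (volume : Measure (EuclideanSpace ℝ (Fin d))))) * Jr d g := by
  haveI : Nonempty (Fin d) := ⟨⟨0, hd⟩⟩
  have h0 : ∫ x, f x * g ‖x‖ = ∫ x : ({(0)}ᶜ : Set (EuclideanSpace ℝ (Fin d))), f x.1 * g ‖x.1‖
        ∂((volume : Measure (EuclideanSpace ℝ (Fin d))).comap Subtype.val) := by
      rw [integral_subtype_comap (measurableSet_singleton _).compl (fun x => f x * g ‖x‖),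
        restrict_compl_singleton]
  rw [h0]
  calc
    _ = ∫ z : Metric.sphere (0 : EuclideanSpace ℝ (Fin d)) 1 × Ioi (0 : ℝ),
        f (z.1 : EuclideanSpace ℝ (Fin d)) * ((z.2 : ℝ) * g (z.2 : ℝ))
        ∂((volume : Measure (EuclideanSpace ℝ (Fin d))).toSphere.prod
          (.volumeIoiPow (Module.finrank ℝ (EuclideanSpace ℝ (Fin d)) - 1))) := by
      rw [← (volume : Measure (EuclideanSpace ℝ (Fin d))).measurePreserving_homeomorphUnitSphereProd.integral_comp
        (Homeomorph.measurableEmbedding _)]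
      refine integral_congr_ae (Eventually.of_forall fun x => ?_)
      have hx : ‖(x : EuclideanSpace ℝ (Fin d))‖ ≠ 0 := by
        rw [norm_ne_zero_iff]
        exact x.2
      have h1 : (x : EuclideanSpace ℝ (Fin d)) = ‖(x : EuclideanSpace ℝ (Fin d))‖ •
          (‖(x : EuclideanSpace ℝ (Fin d))‖⁻¹ • (x : EuclideanSpace ℝ (Fin d))) := by
        rw [smul_smul, mul_inv_cancel₀ hx, one_smul]
      have h2 : f x = ‖(x : EuclideanSpace ℝ (Fin d))‖ *
          f (‖(x : EuclideanSpace ℝ (Fin d))‖⁻¹ • (x : EuclideanSpace ℝ (Fin d))) := by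
        conv_lhs => rw [h1]
        exact hf _ _ (norm_nonneg _)
      simp only [homeomorphUnitSphereProd_apply_fst_coe, homeomorphUnitSphereProd_apply_snd_coe]
      rw [h2]
      ring
    _ = (∫ u : Metric.sphere (0 : EuclideanSpace ℝ (Fin d)) 1,
          f (u : EuclideanSpace ℝ (Fin d)) ∂(Measure.toSphere
            (volume : Measure (EuclideanSpace ℝ (Fin d))))) *
        ∫ r : Ioi (0 : ℝ), (r : ℝ) * g (r : ℝ)
          ∂(Measure.volumeIoiPow (Module.finrank ℝ (EuclideanSpace ℝ (Fin d)) - 1)) :=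
      integral_prod_mul (fun u : Metric.sphere (0 : EuclideanSpace ℝ (Fin d)) 1 =>
        f (u : EuclideanSpace ℝ (Fin d))) (fun r : Ioi (0 : ℝ) => (r : ℝ) * g (r : ℝ))
    _ = _ := by
      congr 1
      unfold Jr
      simp only [Measure.volumeIoiPow, ENNReal.ofReal]
      rw [integral_withDensity_eq_integral_smul,
        integral_subtype_comap measurableSet_Ioi fun a =>
          Real.toNNReal (a ^ (Module.finrank ℝ (EuclideanSpace ℝ (Fin d)) - 1)) • (a * g a),
        setIntegral_congr_fun measurableSet_Ioi fun x hx => ?_]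
      · rw [NNReal.smul_def, Real.coe_toNNReal _ (pow_nonneg hx.out.le _), finrank_euclideanSpace,
          Fintype.card_fin, smul_eq_mul]
      · exact (measurable_subtype_coe.pow_const _).real_toNNReal

end homaux

open homaux

theorem hom : St_hom := by
  intro d hd
  have hgauss : Jr d (fun r => Real.exp (-r ^ 2 / 2)) =
      ∫ r in Ioi (0 : ℝ), r ^ (d : ℝ) * Real.exp (-(1 / 2 : ℝ) * r ^ (2 : ℝ)) := by
    unfold Jr
    refine setIntegral_congr_fun measurableSet_Ioi fun r hr => ?_
    simp only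
    rw [Real.rpow_natCast, Real.rpow_two, ← mul_assoc, ← pow_succ, Nat.sub_add_cancel hd]
    congr 2
    ring
  have hg0 : 0 < Jr d (fun r => Real.exp (-r ^ 2 / 2)) := by
    rw [hgauss, integral_rpow_mul_exp_neg_mul_rpow (by norm_num)
      (lt_of_lt_of_le (by norm_num) (Nat.cast_nonneg d)) (by norm_num)]
    have : 0 < Real.Gamma (((d : ℝ) + 1) / 2) := Real.Gamma_pos_of_pos (by positivity)
    positivity
  have hball : Jr d ((Iio (1 : ℝ)).indicator (fun _ => 1)) = 1 / ((d : ℝ) + 1) := by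
    unfold Jr
    have h1 : ∀ r : ℝ, r ^ (d - 1) * (r * (Iio (1 : ℝ)).indicator (fun _ => (1 : ℝ)) r) =
        (Iio (1 : ℝ)).indicator (fun r => r ^ d) r := by
      intro r
      by_cases h : r ∈ Iio (1 : ℝ)
      · rw [indicator_of_mem h, indicator_of_mem h, mul_one, ← pow_succ, Nat.sub_add_cancel hd]
      · rw [indicator_of_notMem h, indicator_of_notMem h, mul_zero, mul_zero]
    simp_rw [h1]
    rw [setIntegral_indicator measurableSet_Iio]
    have h2 : Ioi (0 : ℝ) ∩ Iio 1 = Set.Ioo 0 1 := rfl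
    rw [h2, ← integral_Ioc_eq_integral_Ioo, ← intervalIntegral.integral_of_le zero_le_one,
      integral_pow]
    simp
  refine ⟨((Real.sqrt (2 * Real.pi))⁻¹) ^ d * Jr d (fun r => Real.exp (-r ^ 2 / 2)),
    by positivity, 1 / ((d : ℝ) + 1), by positivity, fun f hfc hf => ⟨?_, ?_⟩⟩
  · rw [Pool.Agent.H988R2.integral_stdGaussian]
    have h := polar d f hf hd (fun r => ((Real.sqrt (2 * Real.pi))⁻¹) ^ d * Real.exp (-r ^ 2 / 2))
    have h2 : ∀ x : EuclideanSpace ℝ (Fin d), Pool.Agent.H988R2.gdens (Fin d) x * f x =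
        f x * (((Real.sqrt (2 * Real.pi))⁻¹) ^ d * Real.exp (-‖x‖ ^ 2 / 2)) := by
      intro x
      unfold Pool.Agent.H988R2.gdens
      rw [Fintype.card_fin]
      ring
    simp_rw [h2]
    rw [h]
    have h3 : Jr d (fun r => ((Real.sqrt (2 * Real.pi))⁻¹) ^ d * Real.exp (-r ^ 2 / 2)) =
        ((Real.sqrt (2 * Real.pi))⁻¹) ^ d * Jr d (fun r => Real.exp (-r ^ 2 / 2)) := by
      unfold Jr
      rw [← integral_const_mul]
      refine setIntegral_congr_fun measurableSet_Ioi fun r hr => ?_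
      simp only
      ring
    rw [h3]
    ring
  · have h := polar d f hf hd ((Iio (1 : ℝ)).indicator (fun _ => 1))
    rw [hball] at h
    rw [mul_comm, ← h, ← integral_indicator measurableSet_ball]
    refine integral_congr_ae (Eventually.of_forall fun x => ?_)
    by_cases hx : x ∈ Metric.ball (0 : EuclideanSpace ℝ (Fin d)) 1
    · have hx' : ‖x‖ ∈ Iio (1 : ℝ) := by simpa using hx
      simp only
      rw [indicator_of_mem hx, indicator_of_mem hx', mul_one]
    · have hx' : ‖x‖ ∉ Iio (1 : ℝ) := by simpa using hx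
      simp only
      rw [indicator_of_notMem hx, indicator_of_notMem hx', mul_zero]

end Pool.Agent.H604R2.SW
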