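import Pool.Agent.H604R2.SW.Props

set_option autoImplicit false

namespace Pool.Agent.H604R2.SW

open MeasureTheory Matrix Finset Filter Topology Set ProbabilityTheory
open scoped BigOperators

theorem int_gauss {ι : Type} [Fintype ι] (c : ℝ) (hc : 0 < c) :
    Integrable (fun x : ι → ℝ => (1 + ∑ i, |x i|) ^ 2 * Real.exp (-c * ∑ i, x i ^ 2)) := by
  have h1 : Integrable (fun x : ι → ℝ => ∏ i, Real.exp (-(c / 2) * x i ^ 2)) :=
    MeasureTheory.Integrable.fintype_prod (f := fun _ : ι => fun t : ℝ =>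
      Real.exp (-(c / 2) * t ^ 2)) fun _ => integrable_exp_neg_mul_sq (by positivity)
  have h2 := h1.const_mul (((Fintype.card ι : ℝ) + 1) * (1 + 2 / c))
  refine h2.mono' ?_ (Eventually.of_forall fun x => ?_)
  · exact Continuous.aestronglyMeasurable (by fun_prop)
  · have hS : 0 ≤ ∑ i, x i ^ 2 := Finset.sum_nonneg fun i _ => sq_nonneg _
    set S := ∑ i, x i ^ 2 with hSd
    have hA : 0 ≤ ∑ i, |x i| := Finset.sum_nonneg fun i _ => abs_nonneg _
    have h3 : (∑ i, |x i|) ^ 2 ≤ (Fintype.card ι : ℝ) * S := by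
      have := sq_sum_le_card_mul_sum_sq (s := (Finset.univ : Finset ι)) (f := fun i => |x i|)
      simpa [hSd, sq_abs] using this
    have hN : (0 : ℝ) ≤ Fintype.card ι := Nat.cast_nonneg _
    have h4 : (1 + ∑ i, |x i|) ^ 2 ≤ ((Fintype.card ι : ℝ) + 1) * (1 + S) := by
      -- (1 + A)^2 <= (1 + N) (1 + A^2 / N), elementary
      have hab : ∀ a s N : ℝ, 0 ≤ a → 0 ≤ s → 0 ≤ N → a ^ 2 ≤ N * s →
          (1 + a) ^ 2 ≤ (N + 1) * (1 + s) := by
        intro a s N ha hs hN h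
        have h5 : 2 * a ≤ N + s := by
          nlinarith [sq_nonneg (N - s), sq_nonneg (a - (N + s) / 2), sq_nonneg (N + s)]
        nlinarith
      exact hab _ _ _ hA hS hN h3
    have h5 : 1 + S ≤ (1 + 2 / c) * Real.exp (c / 2 * S) := by
      have e1 := Real.add_one_le_exp (c / 2 * S)
      have e2 : 1 ≤ Real.exp (c / 2 * S) := Real.one_le_exp (by positivity)
      have e3 : S ≤ 2 / c * Real.exp (c / 2 * S) := by
        have : S = 2 / c * (c / 2 * S) := by field_simp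
        calc S = 2 / c * (c / 2 * S) := this
          _ ≤ 2 / c * Real.exp (c / 2 * S) :=
            mul_le_mul_of_nonneg_left (by linarith) (by positivity)
      nlinarith
    have h6 : ∏ i, Real.exp (-(c / 2) * x i ^ 2) = Real.exp (-(c / 2) * S) := by
      rw [← Real.exp_sum, hSd, Finset.mul_sum]
    have h7 : Real.exp (-c * S) = Real.exp (-(c / 2) * S) * Real.exp (-(c / 2) * S) := by
      rw [← Real.exp_add]
      congr 1
      ring
    have h8 : Real.exp (c / 2 * S) * Real.exp (-(c / 2) * S) = 1 := by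
      rw [← Real.exp_add]
      have : c / 2 * S + -(c / 2) * S = 0 := by ring
      rw [this, Real.exp_zero]
    rw [Real.norm_eq_abs, abs_of_nonneg (by positivity), h6, h7]
    have hE : 0 < Real.exp (-(c / 2) * S) := Real.exp_pos _
    calc (1 + ∑ i, |x i|) ^ 2 * (Real.exp (-(c / 2) * S) * Real.exp (-(c / 2) * S))
        ≤ (((Fintype.card ι : ℝ) + 1) * (1 + S)) *
            (Real.exp (-(c / 2) * S) * Real.exp (-(c / 2) * S)) :=
          mul_le_mul_of_nonneg_right h4 (by positivity)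
      _ ≤ (((Fintype.card ι : ℝ) + 1) * ((1 + 2 / c) * Real.exp (c / 2 * S))) *
            (Real.exp (-(c / 2) * S) * Real.exp (-(c / 2) * S)) :=
          mul_le_mul_of_nonneg_right (mul_le_mul_of_nonneg_left h5 (by positivity))
            (by positivity)
      _ = ((Fintype.card ι : ℝ) + 1) * (1 + 2 / c) *
            (Real.exp (c / 2 * S) * Real.exp (-(c / 2) * S)) * Real.exp (-(c / 2) * S) := by ring
      _ = ((Fintype.card ι : ℝ) + 1) * (1 + 2 / c) * Real.exp (-(c / 2) * S) := by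
          rw [h8, mul_one]

theorem int_cont {ι : Type} [Fintype ι] [DecidableEq ι] (C : Matrix ι ι ℝ) :
    Continuous (dens C) ∧ ∀ k, Continuous (fun x : ι → ℝ => (C⁻¹ *ᵥ x) k) := by
  have h1 : ∀ k, Continuous (fun x : ι → ℝ => (C⁻¹ *ᵥ x) k) := by
    intro k
    simp only [mulVec, dotProduct]
    fun_prop
  refine ⟨?_, h1⟩
  have h2 : Continuous (fun x : ι → ℝ => x ⬝ᵥ (C⁻¹ *ᵥ x)) := by
    simp only [dotProduct]
    exact continuous_finsetSum _ fun i _ => (continuous_apply i).mul (h1 i)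
  unfold dens
  fun_prop

theorem int_dens_nonneg {ι : Type} [Fintype ι] [DecidableEq ι] (C : Matrix ι ι ℝ) (x : ι → ℝ) :
    0 ≤ dens C x := by
  unfold dens
  positivity

theorem int_ (h : St_dom) : St_int := by
  intro ι _ _ C hC
  obtain ⟨ε, hε, c, hc, M, hM, hD⟩ := h C hC
  obtain ⟨-, h1, h2, h3⟩ := hD C hC.1 (fun i j => by rw [sub_self, abs_zero]; exact hε)
  have hg := int_gauss (ι := ι) c hc
  obtain ⟨c1, c2⟩ := int_cont C
  have hA : ∀ x : ι → ℝ, 0 ≤ ∑ i, |x i| := fun x => Finset.sum_nonneg fun i _ => abs_nonneg _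
  refine ⟨?_, fun k => ?_, fun k l => ?_⟩
  · refine (hg.const_mul M).mono' c1.aestronglyMeasurable (Eventually.of_forall fun x => ?_)
    rw [Real.norm_eq_abs, abs_of_nonneg (int_dens_nonneg C x)]
    refine (h1 x).trans ?_
    have e1 : 1 ≤ (1 + ∑ i, |x i|) ^ 2 := by nlinarith [hA x]
    have e2 : 0 < Real.exp (-c * ∑ i, x i ^ 2) := Real.exp_pos _
    refine mul_le_mul_of_nonneg_left ?_ hM.le
    nlinarith
  · refine (hg.const_mul (M * M)).mono' ?_ (Eventually.of_forall fun x => ?_)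
    · exact (((c2 k).neg).mul c1).aestronglyMeasurable
    · unfold dens1
      rw [Real.norm_eq_abs, abs_mul, abs_neg, abs_of_nonneg (int_dens_nonneg C x)]
      have e2 : 0 < Real.exp (-c * ∑ i, x i ^ 2) := Real.exp_pos _
      have e1 : ∑ i, |x i| ≤ (1 + ∑ i, |x i|) ^ 2 := by nlinarith [hA x]
      calc |(C⁻¹ *ᵥ x) k| * dens C x
          ≤ (M * ∑ i, |x i|) * (M * Real.exp (-c * ∑ i, x i ^ 2)) :=
            mul_le_mul (h2 k x) (h1 x) (int_dens_nonneg C x) (mul_nonneg hM.le (hA x))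
        _ = M * M * ((∑ i, |x i|) * Real.exp (-c * ∑ i, x i ^ 2)) := by ring
        _ ≤ M * M * ((1 + ∑ i, |x i|) ^ 2 * Real.exp (-c * ∑ i, x i ^ 2)) :=
            mul_le_mul_of_nonneg_left (mul_le_mul_of_nonneg_right e1 e2.le) (by positivity)
  · refine (hg.const_mul ((M * M + M) * M)).mono' ?_ (Eventually.of_forall fun x => ?_)
    · exact ((((c2 k).mul (c2 l)).sub continuous_const).mul c1).aestronglyMeasurable
    · unfold dens2
      rw [Real.norm_eq_abs, abs_mul, abs_of_nonneg (int_dens_nonneg C x)]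
      have e2 : 0 < Real.exp (-c * ∑ i, x i ^ 2) := Real.exp_pos _
      have e3 : |(C⁻¹ *ᵥ x) k * (C⁻¹ *ᵥ x) l - C⁻¹ k l| ≤
          (M * M + M) * (1 + ∑ i, |x i|) ^ 2 := by
        have a1 : |(C⁻¹ *ᵥ x) k * (C⁻¹ *ᵥ x) l| ≤ (M * ∑ i, |x i|) * (M * ∑ i, |x i|) := by
          rw [abs_mul]
          exact mul_le_mul (h2 k x) (h2 l x) (abs_nonneg _) (mul_nonneg hM.le (hA x))
        have a2 := abs_sub ((C⁻¹ *ᵥ x) k * (C⁻¹ *ᵥ x) l) (C⁻¹ k l)
        have a3 := h3 k l
        have a4 : (∑ i, |x i|) * (∑ i, |x i|) ≤ (1 + ∑ i, |x i|) ^ 2 := by nlinarith [hA x]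
        have a5 : 1 ≤ (1 + ∑ i, |x i|) ^ 2 := by nlinarith [hA x]
        have a6 : M * M * ((∑ i, |x i|) * (∑ i, |x i|)) ≤ M * M * (1 + ∑ i, |x i|) ^ 2 :=
          mul_le_mul_of_nonneg_left a4 (by positivity)
        have a7 : M * 1 ≤ M * (1 + ∑ i, |x i|) ^ 2 := mul_le_mul_of_nonneg_left a5 hM.le
        nlinarith
      calc |(C⁻¹ *ᵥ x) k * (C⁻¹ *ᵥ x) l - C⁻¹ k l| * dens C x
          ≤ ((M * M + M) * (1 + ∑ i, |x i|) ^ 2) * (M * Real.exp (-c * ∑ i, x i ^ 2)) :=
            mul_le_mul e3 (h1 x) (int_dens_nonneg C x) (by positivity)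
        _ = (M * M + M) * M * ((1 + ∑ i, |x i|) ^ 2 * Real.exp (-c * ∑ i, x i ^ 2)) := by ring

end Pool.Agent.H604R2.SW
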