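import Pool.Agent.H604R2.SW.Props

set_option autoImplicit false

namespace Pool.Agent.H604R2.SW

open MeasureTheory Matrix Finset Filter Topology Set ProbabilityTheory
open scoped BigOperators

lemma kkd_gauss1 {c : ℝ} (hc : 0 < c) :
    Integrable (fun x : ℝ => (1 + |x|) * Real.exp (-c * x ^ 2)) := by
  have h1 := integrable_exp_neg_mul_sq hc
  have h2 := (integrable_mul_exp_neg_mul_sq hc).abs
  refine (h1.add h2).congr (Eventually.of_forall fun x => ?_)
  simp only [Pi.add_apply]
  rw [abs_mul, abs_of_pos (Real.exp_pos _)]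
  ring

lemma kkd_sum_le_prod {n : ℕ} (a : Fin n → ℝ) (ha : ∀ i, 0 ≤ a i) :
    1 + ∑ i, a i ≤ ∏ i, (1 + a i) := by
  classical
  have : ∀ s : Finset (Fin n), 1 + ∑ i ∈ s, a i ≤ ∏ i ∈ s, (1 + a i) := by
    intro s
    induction s using Finset.induction_on with
    | empty => simp
    | insert i s hi ih =>
      rw [Finset.sum_insert hi, Finset.prod_insert hi]
      have h1 : 0 ≤ ∑ j ∈ s, a j := Finset.sum_nonneg fun j _ => ha j
      nlinarith [ha i, mul_nonneg (ha i) h1]
  exact this univ

lemma kkd_gauss {n : ℕ} {c : ℝ} (hc : 0 < c) :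
    Integrable (fun y : Fin n → ℝ => (1 + ∑ j, |y j|) * Real.exp (-c * ∑ j, y j ^ 2)) := by
  have h1 : Integrable (fun y : Fin n → ℝ => ∏ j, ((1 + |y j|) * Real.exp (-c * y j ^ 2))) :=
    Integrable.fintype_prod (f := fun _ x => (1 + |x|) * Real.exp (-c * x ^ 2))
      (fun _ => kkd_gauss1 hc)
  refine h1.mono' ?_ ?_
  · exact (by fun_prop : Continuous fun y : Fin n → ℝ =>
      (1 + ∑ j, |y j|) * Real.exp (-c * ∑ j, y j ^ 2)).aestronglyMeasurable
  · refine Eventually.of_forall fun y => ?_
    have h0 : 0 ≤ ∑ j, |y j| := Finset.sum_nonneg fun j _ => abs_nonneg _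
    rw [Real.norm_of_nonneg (mul_nonneg (by linarith) (Real.exp_pos _).le),
      Finset.prod_mul_distrib, ← Real.exp_sum, ← Finset.mul_sum]
    exact mul_le_mul_of_nonneg_right (kkd_sum_le_prod _ fun j => abs_nonneg _) (Real.exp_pos _).le

lemma kkd_vec {n : ℕ} (a b : ℝ) (y : Fin n → ℝ) : vec a b y 0 = a ∧ vec a b y 1 = b ∧
    ∀ j : Fin n, vec a b y j.succ.succ = y j := by
  refine ⟨rfl, rfl, fun j => rfl⟩

lemma kkd_sum {n : ℕ} (f : Fin (n + 2) → ℝ) :
    ∑ i, f i = f 0 + f 1 + ∑ j : Fin n, f j.succ.succ := by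
  rw [Fin.sum_univ_succ, Fin.sum_univ_succ]
  simp only [Fin.succ_zero_eq_one]
  ring

lemma kkd_continuous_dens {ι : Type} [Fintype ι] [DecidableEq ι] (C : Matrix ι ι ℝ) :
    Continuous (dens C) := by
  unfold dens
  have h1 : Continuous fun x : ι → ℝ => C⁻¹ *ᵥ x := Continuous.matrix_mulVec continuous_const continuous_id
  have h2 : Continuous fun x : ι → ℝ => x ⬝ᵥ (C⁻¹ *ᵥ x) := Continuous.dotProduct continuous_id h1
  fun_prop

lemma kkd_continuous_dens1 {ι : Type} [Fintype ι] [DecidableEq ι] (C : Matrix ι ι ℝ) (k : ι) :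
    Continuous (dens1 C k) := by
  unfold dens1
  have h1 : Continuous fun x : ι → ℝ => C⁻¹ *ᵥ x := Continuous.matrix_mulVec continuous_const continuous_id
  exact (((continuous_apply k).comp h1).neg).mul (kkd_continuous_dens C)

lemma kkd_continuous_vec {n : ℕ} (a b : ℝ) : Continuous (fun y : Fin n → ℝ => vec a b y) := by
  refine continuous_pi fun i => ?_
  refine Fin.cases ?_ (fun i => Fin.cases ?_ (fun j => ?_) i) i
  · exact continuous_const
  · exact continuous_const
  · exact continuous_apply j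

theorem kkd (h : St_dom) (h6 : St_line) : St_kkd := by
  intro n C hC s t
  obtain ⟨ε₀, hε₀, c, hc, M, hM, hdom⟩ := h C hC
  obtain ⟨-, hd0, hd1, -⟩ := hdom C hC.isHermitian (by intro i j; simpa using hε₀)
  set v : Fin (n + 2) → ℝ := vec 0 (-(s - t)) (fun j => s * kap C j) with hv
  set x : (Fin n → ℝ) → Fin (n + 2) → ℝ := fun y => vec 0 (-t) y with hx
  have hdens0 : ∀ z, 0 ≤ dens C z := by
    intro z
    unfold dens
    positivity
  have hdb : ∀ k z, |dens1 C k z| ≤ M ^ 2 * (∑ i, |z i|) * Real.exp (-c * ∑ i, z i ^ 2) := by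
    intro k z
    unfold dens1
    rw [abs_mul, abs_neg, abs_of_nonneg (hdens0 z)]
    calc |(C⁻¹ *ᵥ z) k| * dens C z ≤ (M * ∑ i, |z i|) * (M * Real.exp (-c * ∑ i, z i ^ 2)) :=
          mul_le_mul (hd1 k z) (hd0 z) (hdens0 z)
            (mul_nonneg hM.le (Finset.sum_nonneg fun i _ => abs_nonneg _))
      _ = M ^ 2 * (∑ i, |z i|) * Real.exp (-c * ∑ i, z i ^ 2) := by ring
  -- the integrand along the segment
  have hkk : kk C s t = fun ε => ∫ y in Neg (Fin n), dens C (fun i => x y i + ε * v i) := by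
    ext1 ε
    unfold kk
    congr 1
    ext1 y
    congr 1
    ext1 i
    refine Fin.cases ?_ (fun i => Fin.cases ?_ (fun j => ?_) i) i
    · change (0:ℝ) = 0 + ε * 0
      ring
    · change -(t + ε * (s - t)) = -t + ε * (-(s - t))
      ring
    · change y j + ε * s * kap C j = y j + ε * (s * kap C j)
      ring
  set V : ℝ := ∑ k, |v k| with hV
  have hV0 : 0 ≤ V := Finset.sum_nonneg fun k _ => abs_nonneg _
  set W : ℝ := ∑ j : Fin n, (s * kap C j) ^ 2 with hW
  set bound : (Fin n → ℝ) → ℝ := fun y => V * (M ^ 2 * (|t| + V + 1) * Real.exp (c * W)) *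
    ((1 + ∑ j, |y j|) * Real.exp (-(c / 2) * ∑ j, y j ^ 2)) with hbound
  have hbi : Integrable bound := (kkd_gauss (by positivity : 0 < c / 2)).const_mul _
  have hle : ∀ (k : Fin (n + 2)) (y : Fin n → ℝ) (ε : ℝ), |ε| ≤ 1 →
      |dens1 C k (fun i => x y i + ε * v i)| ≤ (M ^ 2 * (|t| + V + 1) * Real.exp (c * W)) *
        ((1 + ∑ j, |y j|) * Real.exp (-(c / 2) * ∑ j, y j ^ 2)) := by
    intro k y ε hε
    refine (hdb k _).trans ?_
    have e1 : ∑ i, |x y i + ε * v i| ≤ (|t| + V + 1) * (1 + ∑ j, |y j|) := by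
      have e2 : ∑ i, |x y i + ε * v i| ≤ ∑ i, (|x y i| + |v i|) := by
        refine Finset.sum_le_sum fun i _ => ?_
        refine (abs_add_le _ _).trans ?_
        rw [abs_mul]
        have := mul_le_mul_of_nonneg_right hε (abs_nonneg (v i))
        linarith
      have e3 : ∑ i, |x y i| = |t| + ∑ j, |y j| := by
        rw [kkd_sum]
        change |(0:ℝ)| + |-t| + ∑ j, |y j| = _
        rw [abs_zero, abs_neg, zero_add]
      rw [Finset.sum_add_distrib, e3] at e2
      have e4 : 0 ≤ ∑ j, |y j| := Finset.sum_nonneg fun j _ => abs_nonneg _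
      have e5 : 0 ≤ |t| := abs_nonneg t
      nlinarith [mul_nonneg e5 e4, mul_nonneg hV0 e4]
    have e6 : (∑ j, y j ^ 2) / 2 - W ≤ ∑ i, (x y i + ε * v i) ^ 2 := by
      rw [kkd_sum (fun i => (x y i + ε * v i) ^ 2)]
      have e7 : (∑ j, y j ^ 2) / 2 - W ≤ ∑ j : Fin n, (x y j.succ.succ + ε * v j.succ.succ) ^ 2 := by
        rw [hW, Finset.sum_div, ← Finset.sum_sub_distrib]
        refine Finset.sum_le_sum fun j _ => ?_
        change y j ^ 2 / 2 - (s * kap C j) ^ 2 ≤ (y j + ε * (s * kap C j)) ^ 2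
        have e8 : ε ^ 2 ≤ 1 := by
          rw [← sq_abs]
          nlinarith [abs_nonneg ε]
        have e9 : ε ^ 2 * (s * kap C j) ^ 2 ≤ (s * kap C j) ^ 2 := by
          nlinarith [sq_nonneg (s * kap C j)]
        nlinarith [sq_nonneg (y j + 2 * (ε * (s * kap C j)))]
      nlinarith [sq_nonneg (x y 0 + ε * v 0), sq_nonneg (x y 1 + ε * v 1)]
    have e10 : Real.exp (-c * ∑ i, (x y i + ε * v i) ^ 2) ≤
        Real.exp (c * W) * Real.exp (-(c / 2) * ∑ j, y j ^ 2) := by
      rw [← Real.exp_add]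
      apply Real.exp_le_exp.2
      nlinarith [mul_le_mul_of_nonneg_left e6 hc.le]
    calc M ^ 2 * (∑ i, |x y i + ε * v i|) * Real.exp (-c * ∑ i, (x y i + ε * v i) ^ 2)
        ≤ M ^ 2 * ((|t| + V + 1) * (1 + ∑ j, |y j|)) *
          (Real.exp (c * W) * Real.exp (-(c / 2) * ∑ j, y j ^ 2)) := by
          refine mul_le_mul (mul_le_mul_of_nonneg_left e1 (by positivity)) e10
            (Real.exp_pos _).le ?_
          have e4 : 0 ≤ ∑ j, |y j| := Finset.sum_nonneg fun j _ => abs_nonneg _
          positivity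
      _ = _ := by ring
  have hint1 : ∀ k : Fin (n + 2), IntegrableOn (fun y : Fin n → ℝ => dens1 C k (x y))
      (Neg (Fin n)) := by
    intro k
    refine Integrable.integrableOn ?_
    have hb2 := (kkd_gauss (n := n) (by positivity : 0 < c / 2)).const_mul
      (M ^ 2 * (|t| + V + 1) * Real.exp (c * W))
    refine hb2.mono' ?_ ?_
    · exact ((kkd_continuous_dens1 C k).comp (kkd_continuous_vec 0 (-t))).aestronglyMeasurable
    · refine Eventually.of_forall fun y => ?_
      have := hle k y 0 (by simp)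
      simp only [zero_mul, add_zero] at this
      exact this
  have hderiv := hasDerivAt_integral_of_dominated_loc_of_deriv_le (μ := volume.restrict (Neg (Fin n)))
    (F := fun ε y => dens C (fun i => x y i + ε * v i))
    (F' := fun ε y => ∑ k, v k * dens1 C k (fun i => x y i + ε * v i))
    (x₀ := (0:ℝ)) (s := Metric.ball 0 1) (bound := bound) (Metric.ball_mem_nhds _ one_pos)
    (by
      refine Eventually.of_forall fun ε => ?_
      have hc1 : Continuous fun y : Fin n → ℝ => (fun i => x y i + ε * v i) :=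
        continuous_pi fun i => (((continuous_apply i).comp (kkd_continuous_vec 0 (-t)))).add
          continuous_const
      exact ((kkd_continuous_dens C).comp hc1).aestronglyMeasurable)
    (by
      simp only [zero_mul, add_zero]
      refine Integrable.integrableOn ?_
      have hb3 := (kkd_gauss (n := n) hc).const_mul M
      refine hb3.mono' ?_ ?_
      · exact ((kkd_continuous_dens C).comp (kkd_continuous_vec 0 (-t))).aestronglyMeasurable
      · refine Eventually.of_forall fun y => ?_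
        rw [Real.norm_of_nonneg (hdens0 _)]
        refine (hd0 _).trans ?_
        have e1 : ∑ j, y j ^ 2 ≤ ∑ i, x y i ^ 2 := by
          rw [kkd_sum (fun i => x y i ^ 2)]
          change ∑ j, y j ^ 2 ≤ (0:ℝ) ^ 2 + (-t) ^ 2 + ∑ j, y j ^ 2
          nlinarith [sq_nonneg t]
        have e2 : Real.exp (-c * ∑ i, x y i ^ 2) ≤ Real.exp (-c * ∑ j, y j ^ 2) := by
          apply Real.exp_le_exp.2
          nlinarith
        have e4 : 0 ≤ ∑ j, |y j| := Finset.sum_nonneg fun j _ => abs_nonneg _
        have e5 := Real.exp_pos (-c * ∑ j, y j ^ 2)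
        have e6 : Real.exp (-c * ∑ j, y j ^ 2) ≤
            (1 + ∑ j, |y j|) * Real.exp (-c * ∑ j, y j ^ 2) := by nlinarith
        exact mul_le_mul_of_nonneg_left (e2.trans e6) hM.le)
    (by
      simp only [zero_mul, add_zero]
      have hc1 : Continuous fun y : Fin n → ℝ => ∑ k, v k * dens1 C k (x y) :=
        continuous_finsetSum _ fun k _ =>
          continuous_const.mul ((kkd_continuous_dens1 C k).comp (kkd_continuous_vec 0 (-t)))
      exact hc1.aestronglyMeasurable)
    (by
      refine Eventually.of_forall fun y ε hε => ?_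
      have hε1 : |ε| ≤ 1 := by
        rw [Metric.mem_ball, dist_zero_right, Real.norm_eq_abs] at hε
        exact hε.le
      rw [Real.norm_eq_abs]
      refine (Finset.abs_sum_le_sum_abs _ _).trans ?_
      simp only [hbound]
      rw [hV, mul_assoc, Finset.sum_mul]
      refine Finset.sum_le_sum fun k _ => ?_
      rw [abs_mul]
      exact mul_le_mul_of_nonneg_left (hle k y ε hε1) (abs_nonneg _))
    hbi.integrableOn
    (by
      refine Eventually.of_forall fun y ε _ => ?_
      exact (h6 C hC (x y) v ε).1)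
  rw [hkk]
  refine hderiv.2.congr_deriv ?_
  simp only [zero_mul, add_zero]
  have hsplit : (fun y : Fin n → ℝ => ∑ k, v k * dens1 C k (x y)) = fun y =>
      (s - t) * (-dens1 C 1 (x y)) + s * ∑ j, kap C j * dens1 C j.succ.succ (x y) := by
    ext1 y
    rw [kkd_sum]
    change 0 * _ + -(s - t) * _ + ∑ j, (s * kap C j) * dens1 C j.succ.succ (x y) = _
    rw [Finset.mul_sum]
    simp only [mul_assoc]
    ring
  rw [hsplit]
  rw [integral_add, integral_const_mul, integral_const_mul]
  · rfl
  · exact ((hint1 1).neg).const_mul _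
  · refine Integrable.const_mul ?_ _
    exact integrable_finsetSum _ fun j _ => (hint1 j.succ.succ).const_mul _

end Pool.Agent.H604R2.SW
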