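import Pool.Agent.H604R2.SW.Props

set_option autoImplicit false

namespace Pool.Agent.H604R2.SW

open MeasureTheory Matrix Finset Filter Topology Set ProbabilityTheory
open scoped BigOperators

theorem lemGaux_tail (b : ℝ → ℝ) (hb : IntegrableOn b (Ioi 0)) :
    Tendsto (fun τ : ℝ => ∫ t in Ioi τ, b t) (𝓝[>] 0) (𝓝 (∫ t in Ioi (0:ℝ), b t)) := by
  have h1 : ∀ᶠ τ : ℝ in 𝓝[>] 0, ∫ t in Ioi τ, b t =
      ∫ t in Ioi (0:ℝ), (Ioi τ).indicator b t := by
    filter_upwards [self_mem_nhdsWithin] with τ hτ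
    rw [setIntegral_indicator measurableSet_Ioi]
    congr 2
    ext x
    constructor
    · intro h
      exact ⟨lt_trans (show (0:ℝ) < τ from hτ) h, h⟩
    · exact fun h => h.2
  refine Tendsto.congr' (h1.mono (fun _ h => h.symm)) ?_
  refine tendsto_integral_filter_of_dominated_convergence (fun t => ‖b t‖) ?_ ?_ hb.norm ?_
  · exact Eventually.of_forall (fun τ => hb.aestronglyMeasurable.indicator measurableSet_Ioi)
  · exact Eventually.of_forall (fun τ => Eventually.of_forall (fun t =>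
      norm_indicator_le_norm_self b t))
  · refine (ae_restrict_iff' measurableSet_Ioi).mpr (Eventually.of_forall (fun t ht => ?_))
    refine tendsto_const_nhds.congr' ?_
    have : ∀ᶠ τ : ℝ in 𝓝[>] 0, τ ∈ Ioo (0:ℝ) t := Ioo_mem_nhdsGT ht
    filter_upwards [this] with τ hτ
    rw [indicator_of_mem (show t ∈ Ioi τ from hτ.2)]

theorem lemG (h1 : St_trans) (h2 : St_half) : St_lemG := by
  intro G H b c dG dH hG hH hdG hdH hG0 hH0 hGi hHi hb hc hi1 hi2 hX hY
  have hGc : Continuous G := continuous_iff_continuousAt.mpr (fun t => (hdG t).continuousAt)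
  have hHc : Continuous H := continuous_iff_continuousAt.mpr (fun t => (hdH t).continuousAt)
  obtain ⟨T, S, hTS, hdT, hdS, hT0⟩ := h1 G H hG hH hGc.continuousOn hHc.continuousOn hGi hHi
  have hA := h2 G H b dG T hG hH (fun t _ => hdG t) hG0 hb hi1 (fun t ht => (hTS t ht).1) hdT
  have hB := h2 H G c dH S hH hG (fun t _ => hdH t) hH0 hc hi2 (fun t ht => (hTS t ht).2.1) hdS
  set X := G 0 - ∫ t in Ioi (0:ℝ), b t with hXd
  set Y := H 0 - ∫ t in Ioi (0:ℝ), c t with hYd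
  have hTpos : Tendsto T (𝓝[>] 0) (𝓝[>] 0) := by
    refine tendsto_nhdsWithin_iff.mpr ⟨hT0, ?_⟩
    filter_upwards [self_mem_nhdsWithin] with τ hτ
    exact (hTS τ hτ).1
  have hXl : Tendsto (fun τ => G τ - ∫ t in Ioi τ, b t) (𝓝[>] 0) (𝓝 X) :=
    ((hGc.tendsto 0).mono_left nhdsWithin_le_nhds).sub (lemGaux_tail b hb)
  have hYl : Tendsto (fun τ => H (T τ) - ∫ t in Ioi (T τ), c t) (𝓝[>] 0) (𝓝 Y) := by
    have : Tendsto (fun τ => H τ - ∫ t in Ioi τ, c t) (𝓝[>] 0) (𝓝 Y) :=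
      ((hHc.tendsto 0).mono_left nhdsWithin_le_nhds).sub (lemGaux_tail c hc)
    exact this.comp hTpos
  have hGH : 0 < G 0 * H 0 := mul_pos (hG 0 le_rfl) (hH 0 le_rfl)
  rcases hX.eq_or_lt with h0 | hXp
  · rw [← h0, zero_mul]; exact hGH.le
  rcases hY.eq_or_lt with h0 | hYp
  · rw [← h0, mul_zero]; exact hGH.le
  have hR : Tendsto (fun τ => G τ * H (T τ)) (𝓝[>] 0) (𝓝 (G 0 * H 0)) := by
    refine ((hGc.tendsto 0).mono_left nhdsWithin_le_nhds).mul ?_
    exact (hHc.tendsto 0).comp hT0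
  refine le_of_tendsto_of_tendsto (hXl.mul hYl) hR ?_
  filter_upwards [self_mem_nhdsWithin, hXl.eventually (lt_mem_nhds hXp),
    hYl.eventually (lt_mem_nhds hYp)] with τ hτ h3 h4
  have hτ' : (0:ℝ) < τ := hτ
  obtain ⟨hT, _, hST⟩ := hTS τ hτ'
  have h5 := hA τ hτ'
  have h6 := hB (T τ) hT
  rw [hST] at h6
  calc (G τ - ∫ t in Ioi τ, b t) * (H (T τ) - ∫ t in Ioi (T τ), c t)
      ≤ (G τ * (τ / T τ)) * (H (T τ) * (T τ / τ)) :=
        mul_le_mul h5 h6 h4.le (h3.le.trans h5)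
    _ = G τ * H (T τ) := by field_simp

end Pool.Agent.H604R2.SW
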