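import Pool.Agent.H604R2.SW.Props

set_option autoImplicit false

namespace Pool.Agent.H604R2.SW

open MeasureTheory Matrix Finset Filter Topology Set ProbabilityTheory
open scoped BigOperators

lemma lim_continuous_pdf : Continuous (gaussianPDFReal 0 1) := by
  unfold gaussianPDFReal
  fun_prop

lemma lim_pdf_le_one (x : ℝ) : ‖gaussianPDFReal 0 1 x‖ ≤ 1 := by
  rw [Real.norm_of_nonneg (gaussianPDFReal_nonneg 0 1 x)]
  unfold gaussianPDFReal
  have h1 : (1:ℝ) ≤ Real.sqrt (2 * Real.pi * ((1 : NNReal) : ℝ)) := by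
    rw [Real.one_le_sqrt]
    have := Real.pi_gt_three
    push_cast
    linarith
  have h2 : (Real.sqrt (2 * Real.pi * ((1 : NNReal) : ℝ)))⁻¹ ≤ 1 := inv_le_one_of_one_le₀ h1
  have h3 : Real.exp (-(x - 0) ^ 2 / (2 * ((1 : NNReal) : ℝ))) ≤ 1 := by
    rw [Real.exp_le_one_iff]
    have : 0 ≤ (x - 0) ^ 2 / (2 * ((1 : NNReal) : ℝ)) := by positivity
    rw [neg_div]
    linarith
  calc (Real.sqrt (2 * Real.pi * ((1 : NNReal) : ℝ)))⁻¹ *
        Real.exp (-(x - 0) ^ 2 / (2 * ((1 : NNReal) : ℝ))) ≤ 1 * 1 :=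
        mul_le_mul h2 h3 (Real.exp_pos _).le zero_le_one
    _ = 1 := one_mul 1

lemma lim_aux {Ω : Type} [MeasurableSpace Ω] (P : Measure Ω) [IsProbabilityMeasure P] (M : Ω → ℝ)
    (hM : Measurable M) (hMi : Integrable M P) :
    Tendsto (fun τ : ℝ => τ * (((P.prod (gaussianReal 0 1)) {p | M p.1 + τ * p.2 ≤ 0}).toReal -
      ∫ x in Iic (0:ℝ), gaussianPDFReal 0 1 x)) atTop
      (𝓝 (∫ ω, -(M ω) * gaussianPDFReal 0 1 0 ∂P)) := by
  set φ : ℝ → ℝ := gaussianPDFReal 0 1 with hφ
  have hφc : Continuous φ := lim_continuous_pdf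
  have hφi : Integrable φ := integrable_gaussianPDFReal 0 1
  set Ψ : ℝ → ℝ := fun u => ∫ t in (0:ℝ)..u, φ t with hΨ
  have hΨd : ∀ u, HasDerivAt Ψ (φ u) u := fun u =>
    (hφc.integral_hasStrictDerivAt 0 u).hasDerivAt
  have hΨc : Continuous Ψ := continuous_iff_continuousAt.2 fun u => (hΨd u).continuousAt
  have hΨ0 : Ψ 0 = 0 := by simp [hΨ]
  have hΨb : ∀ u, |Ψ u| ≤ |u| := by
    intro u
    have := intervalIntegral.norm_integral_le_of_norm_le_const (a := 0) (b := u) (C := 1) (f := φ)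
      (fun x _ => lim_pdf_le_one x)
    rwa [one_mul, sub_zero, Real.norm_eq_abs] at this
  have hcdf : ∀ u : ℝ, (gaussianReal 0 1 (Iic u)).toReal = (∫ x in Iic (0:ℝ), φ x) + Ψ u := by
    intro u
    rw [gaussianReal_apply_eq_integral 0 one_ne_zero,
      ENNReal.toReal_ofReal (integral_nonneg fun x => gaussianPDFReal_nonneg 0 1 x)]
    have := intervalIntegral.integral_Iic_sub_Iic (a := 0) (b := u) hφi.integrableOn
      hφi.integrableOn
    simp only [hΨ]
    rw [← this]
    ring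
  have hint : ∀ τ : ℝ, 0 < τ → Integrable (fun ω => Ψ (-(M ω) / τ)) P := by
    intro τ hτ
    refine Integrable.mono' (hMi.abs.div_const τ) ?_ ?_
    · exact (hΨc.measurable.comp ((hM.neg).div_const τ)).aestronglyMeasurable
    · refine Eventually.of_forall fun ω => ?_
      have := hΨb (-(M ω) / τ)
      rw [abs_div, abs_neg, abs_of_pos hτ] at this
      exact this
  have hprob : ∀ τ : ℝ, 0 < τ → ((P.prod (gaussianReal 0 1)) {p | M p.1 + τ * p.2 ≤ 0}).toReal -
      ∫ x in Iic (0:ℝ), φ x = ∫ ω, Ψ (-(M ω) / τ) ∂P := by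
    intro τ hτ
    have hmeas : MeasurableSet {p : Ω × ℝ | M p.1 + τ * p.2 ≤ 0} :=
      measurableSet_le ((hM.comp measurable_fst).add (measurable_snd.const_mul τ)) measurable_const
    rw [Measure.prod_apply hmeas]
    have hsec : ∀ ω, Prod.mk ω ⁻¹' {p : Ω × ℝ | M p.1 + τ * p.2 ≤ 0} = Iic (-(M ω) / τ) := by
      intro ω
      ext ξ
      simp only [Set.mem_preimage, Set.mem_ofPred_eq, Set.mem_Iic]
      rw [le_div_iff₀ hτ]
      constructor <;> intro h <;> linarith
    simp only [hsec]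
    have hmono : Monotone fun u : ℝ => gaussianReal 0 1 (Iic u) := fun a b hab =>
      measure_mono (Iic_subset_Iic.2 hab)
    rw [← integral_toReal]
    · simp only [hcdf]
      rw [integral_add (integrable_const _) (hint τ hτ), integral_const]
      simp
    · exact (hmono.measurable.comp ((hM.neg).div_const τ)).aemeasurable
    · exact Eventually.of_forall fun ω => measure_lt_top _ _
  have hlim : Tendsto (fun τ : ℝ => ∫ ω, τ * Ψ (-(M ω) / τ) ∂P) atTop
      (𝓝 (∫ ω, -(M ω) * φ 0 ∂P)) := by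
    refine tendsto_integral_filter_of_dominated_convergence (fun ω => |M ω|) ?_ ?_ hMi.abs ?_
    · refine Eventually.of_forall fun τ => ?_
      exact ((hΨc.measurable.comp ((hM.neg).div_const τ)).const_mul τ).aestronglyMeasurable
    · filter_upwards [eventually_gt_atTop (0:ℝ)] with τ hτ
      refine Eventually.of_forall fun ω => ?_
      have h1 := hΨb (-(M ω) / τ)
      rw [abs_div, abs_neg, abs_of_pos hτ, le_div_iff₀ hτ] at h1
      rw [Real.norm_eq_abs, abs_mul, abs_of_pos hτ]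
      linarith
    · refine Eventually.of_forall fun ω => ?_
      have h1 : HasDerivAt (fun x : ℝ => Ψ (-(M ω) * x)) (φ 0 * -(M ω)) 0 := by
        have h2 : HasDerivAt (fun x : ℝ => -(M ω) * x) (-(M ω)) 0 := by
          simpa using (hasDerivAt_id (0:ℝ)).const_mul (-(M ω))
        have h3 : HasDerivAt Ψ (φ 0) (-(M ω) * 0) := by
          rw [mul_zero]
          exact hΨd 0
        exact h3.comp 0 h2
      rw [hasDerivAt_iff_tendsto_slope] at h1
      have h4 := h1.comp ((tendsto_inv_atTop_nhdsGT_zero (𝕜 := ℝ)).mono_right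
        (nhdsWithin_mono _ fun x (hx : 0 < x) => (ne_of_gt hx : x ≠ 0)))
      rw [mul_comm (-(M ω))]
      refine h4.congr' ?_
      filter_upwards [eventually_gt_atTop (0:ℝ)] with τ hτ
      simp only [Function.comp_apply, slope_def_field, mul_zero, hΨ0, sub_zero]
      rw [div_eq_mul_inv (-(M ω)) τ, div_eq_mul_inv, inv_inv, mul_comm]
  refine hlim.congr' ?_
  filter_upwards [eventually_gt_atTop (0:ℝ)] with τ hτ
  rw [hprob τ hτ, integral_const_mul]

theorem lim_ : St_lim := by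
  intro Ω Ω' _ _ P P' _ _ M M' hM hM' hMi hMi' τ₀ hτ
  have h1 := lim_aux P M hM hMi
  have h2 := lim_aux P' M' hM' hMi'
  have h3 : ∫ ω, -(M' ω) * gaussianPDFReal 0 1 0 ∂P' ≤ ∫ ω, -(M ω) * gaussianPDFReal 0 1 0 ∂P := by
    refine le_of_tendsto_of_tendsto h2 h1 ?_
    filter_upwards [eventually_gt_atTop (0:ℝ), eventually_ge_atTop τ₀] with τ hτ0 hτ1
    exact mul_le_mul_of_nonneg_left (sub_le_sub_right (hτ τ hτ0 hτ1) _) hτ0.le
  rw [integral_mul_const, integral_mul_const, integral_neg, integral_neg] at h3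
  have h4 : 0 < gaussianPDFReal 0 1 0 := gaussianPDFReal_pos _ _ _ one_ne_zero
  have h5 := le_of_mul_le_mul_right h3 h4
  linarith

end Pool.Agent.H604R2.SW
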