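import Pool.Agent.H604R2.SW.Props

set_option autoImplicit false

namespace Pool.Agent.H604R2.SW

open MeasureTheory Matrix Finset Filter Topology Set ProbabilityTheory
open scoped BigOperators

section line_aux
variable {ι : Type} [Fintype ι] [DecidableEq ι]

private theorem line_mv (P : Matrix ι ι ℝ) (x v : ι → ℝ) (k : ι) (t : ℝ) :
    HasDerivAt (fun t : ℝ => (P *ᵥ (fun i => x i + t * v i)) k) ((P *ᵥ v) k) t := by
  simp only [Matrix.mulVec, dotProduct]
  refine HasDerivAt.fun_sum fun i _ => ?_
  have h := ((hasDerivAt_id t).mul_const (v i)).const_add (x i)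
  simpa using h.const_mul (P k i)

private theorem line_q (P : Matrix ι ι ℝ) (hP : ∀ k l, P k l = P l k) (x v : ι → ℝ) (t : ℝ) :
    HasDerivAt (fun t : ℝ => (fun i => x i + t * v i) ⬝ᵥ (P *ᵥ (fun i => x i + t * v i)))
      (2 * ∑ k, v k * (P *ᵥ (fun i => x i + t * v i)) k) t := by
  have h1 : HasDerivAt (fun t : ℝ => (fun i => x i + t * v i) ⬝ᵥ (P *ᵥ (fun i => x i + t * v i)))
      (∑ k, (v k * (P *ᵥ (fun i => x i + t * v i)) k + (x k + t * v k) * (P *ᵥ v) k)) t := by
    simp only [dotProduct]
    refine HasDerivAt.fun_sum fun k _ => ?_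
    have h2 : HasDerivAt (fun t : ℝ => x k + t * v k) (v k) t := by
      simpa using ((hasDerivAt_id t).mul_const (v k)).const_add (x k)
    exact h2.mul (line_mv P x v k t)
  convert h1 using 1
  rw [Finset.sum_add_distrib, two_mul]
  congr 1
  simp only [Matrix.mulVec, dotProduct, Finset.mul_sum]
  rw [Finset.sum_comm]
  refine Finset.sum_congr rfl fun i _ => Finset.sum_congr rfl fun k _ => ?_
  rw [hP i k]; ring

end line_aux

theorem line : St_line := by
  intro ι _ _ C hC x v t
  set P : Matrix ι ι ℝ := C⁻¹ with hPdef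
  have hP : ∀ k l, P k l = P l k := by
    intro k l
    have h := hC.isHermitian.inv
    have h2 := h.apply l k
    simpa using h2
  have hd : HasDerivAt (fun t : ℝ => dens C (fun i => x i + t * v i))
      (∑ k, v k * dens1 C k (fun i => x i + t * v i)) t := by
    have h1 := ((line_q P hP x v t).neg.div_const 2).exp.const_mul
      (Real.sqrt ((2 * Real.pi) ^ (Fintype.card ι) * C.det))⁻¹
    refine HasDerivAt.congr_deriv (f := fun t : ℝ => dens C (fun i => x i + t * v i)) h1 ?_
    have h3 : -(2 * ∑ k, v k * (P *ᵥ (fun i => x i + t * v i)) k) / 2 =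
        ∑ k, v k * (-((P *ᵥ (fun i => x i + t * v i)) k)) := by
      rw [show -(2 * ∑ k, v k * (P *ᵥ (fun i => x i + t * v i)) k) / 2 =
        -∑ k, v k * (P *ᵥ (fun i => x i + t * v i)) k by ring, ← Finset.sum_neg_distrib]
      refine Finset.sum_congr rfl fun k _ => by ring
    rw [h3, Finset.mul_sum, Finset.mul_sum]
    refine Finset.sum_congr rfl fun k _ => ?_
    simp only [dens1, dens, ← hPdef, Pi.neg_apply]
    ring
  refine ⟨hd, fun l => ?_⟩
  have h1 : HasDerivAt (fun t : ℝ => -((P *ᵥ (fun i => x i + t * v i)) l) *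
      dens C (fun i => x i + t * v i))
      (-((P *ᵥ v) l) * dens C (fun i => x i + t * v i) + -((P *ᵥ (fun i => x i + t * v i)) l) *
        (∑ k, v k * dens1 C k (fun i => x i + t * v i))) t :=
    ((line_mv P x v l t).neg).mul hd
  refine HasDerivAt.congr_deriv (f := fun t : ℝ => dens1 C l (fun i => x i + t * v i)) h1 ?_
  have h3 : (P *ᵥ v) l = ∑ k, v k * P k l := by
    simp only [Matrix.mulVec, dotProduct]
    refine Finset.sum_congr rfl fun k _ => ?_
    rw [hP l k]; ring
  rw [h3, Finset.mul_sum, neg_mul, Finset.sum_mul, ← Finset.sum_neg_distrib,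
    ← Finset.sum_add_distrib]
  refine Finset.sum_congr rfl fun k _ => ?_
  simp only [dens2, dens1, ← hPdef]
  ring

end Pool.Agent.H604R2.SW
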