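import Pool.Agent.H604R2.SW.Props
import Mathlib.Probability.Distributions.Gaussian.Fernique

set_option autoImplicit false

namespace Pool.Agent.H604R2.SW

open MeasureTheory Matrix Finset Filter Topology Set ProbabilityTheory
open scoped BigOperators

namespace maxaux

/-- continuity of a finite supremum of continuous functions -/
lemma cont_sup {X : Type*} [TopologicalSpace X] {n : ℕ} (f : Fin (n + 2) → X → ℝ)
    (hf : ∀ i, Continuous (f i)) : Continuous fun p => ⨆ i, f i p := by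
  have h : (fun p => ⨆ i, f i p) = fun p => univ.sup' univ_nonempty fun i => f i p := by
    funext p
    rw [sup'_univ_eq_ciSup]
  rw [h]
  exact Continuous.finset_sup'_apply _ fun i _ => hf i

lemma abs_sup_le {n : ℕ} (f g : Fin (n + 2) → ℝ) (h : ∀ i, |f i| ≤ g i) :
    |⨆ i, f i| ≤ ∑ i, g i := by
  have hg : ∀ i, 0 ≤ g i := fun i => (abs_nonneg _).trans (h i)
  have h1 : ∀ i, g i ≤ ∑ j, g j := fun i => single_le_sum (fun j _ => hg j) (mem_univ i)
  rw [abs_le]
  constructor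
  · have h2 : f 0 ≤ ⨆ i, f i := le_ciSup (Set.finite_range f).bddAbove 0
    have h3 := neg_abs_le (f 0)
    have := h 0
    have := h1 0
    linarith
  · exact ciSup_le fun i => (le_abs_self _).trans ((h i).trans (h1 i))

variable {n : ℕ}

/-- the integrand -/
noncomputable def F (x : Fin (n + 2) → EuclideanSpace ℝ (Fin (n + 1))) (η : ℝ)
    (p : EuclideanSpace ℝ (Fin (n + 1)) × EuclideanSpace ℝ (Fin (n + 2))) : ℝ :=
  ⨆ i, (Real.sqrt ((n + 1) / (n + 2) * (1 - η)) * inner ℝ (x i) p.1 + Real.sqrt η * p.2 i)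

lemma F_cont_p (x : Fin (n + 2) → EuclideanSpace ℝ (Fin (n + 1))) (η : ℝ) :
    Continuous (F x η) := by
  unfold F
  exact cont_sup _ fun i => by fun_prop

lemma F_cont_η (x : Fin (n + 2) → EuclideanSpace ℝ (Fin (n + 1)))
    (p : EuclideanSpace ℝ (Fin (n + 1)) × EuclideanSpace ℝ (Fin (n + 2))) :
    Continuous fun η => F x η p := by
  unfold F
  exact cont_sup (fun i η => Real.sqrt ((n + 1) / (n + 2) * (1 - η)) * inner ℝ (x i) p.1 +
    Real.sqrt η * p.2 i) fun i => by fun_prop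

lemma F_bound (x : Fin (n + 2) → EuclideanSpace ℝ (Fin (n + 1))) (hx : ∀ i, ‖x i‖ = 1)
    (η : ℝ) (h0 : 0 ≤ η) (h1 : η ≤ 1)
    (p : EuclideanSpace ℝ (Fin (n + 1)) × EuclideanSpace ℝ (Fin (n + 2))) :
    ‖F x η p‖ ≤ (n + 2) * (‖p.1‖ + ‖p.2‖) := by
  have key : ∀ i : Fin (n + 2),
      |Real.sqrt ((n + 1) / (n + 2) * (1 - η)) * inner ℝ (x i) p.1 + Real.sqrt η * p.2 i| ≤
        ‖p.1‖ + ‖p.2‖ := by
    intro i
    have a1 : |inner ℝ (x i) p.1| ≤ ‖p.1‖ := by
      have := abs_real_inner_le_norm (x i) p.1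
      rwa [hx i, one_mul] at this
    have a2 : |p.2 i| ≤ ‖p.2‖ := by
      have := EuclideanSpace.norm_eq p.2
      have h := PiLp.norm_apply_le p.2 i
      rwa [Real.norm_eq_abs] at h
    have s1 : Real.sqrt ((n + 1) / (n + 2) * (1 - η)) ≤ 1 := by
      rw [Real.sqrt_le_one]
      have : ((n : ℝ) + 1) / (n + 2) ≤ 1 := by
        rw [div_le_one (by positivity)]; linarith
      have h3 : 0 ≤ ((n : ℝ) + 1) / (n + 2) := by positivity
      nlinarith
    have s2 : Real.sqrt η ≤ 1 := by rwa [Real.sqrt_le_one]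
    have t1 := Real.sqrt_nonneg ((n + 1) / (n + 2) * (1 - η))
    have t2 := Real.sqrt_nonneg η
    calc |Real.sqrt ((n + 1) / (n + 2) * (1 - η)) * inner ℝ (x i) p.1 + Real.sqrt η * p.2 i|
        ≤ |Real.sqrt ((n + 1) / (n + 2) * (1 - η)) * inner ℝ (x i) p.1|
          + |Real.sqrt η * p.2 i| := abs_add_le _ _
      _ = Real.sqrt ((n + 1) / (n + 2) * (1 - η)) * |inner ℝ (x i) p.1|
          + Real.sqrt η * |p.2 i| := by
            rw [abs_mul, abs_mul, abs_of_nonneg t1, abs_of_nonneg t2]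
      _ ≤ 1 * ‖p.1‖ + 1 * ‖p.2‖ := by gcongr
      _ = _ := by ring
  have h := abs_sup_le _ (fun _ => ‖p.1‖ + ‖p.2‖) key
  rw [Real.norm_eq_abs]
  unfold F
  refine h.trans (le_of_eq ?_)
  simp
  ring

lemma bound_int : Integrable (fun p : EuclideanSpace ℝ (Fin (n + 1)) × EuclideanSpace ℝ
    (Fin (n + 2)) => ((n : ℝ) + 2) * (‖p.1‖ + ‖p.2‖))
    ((stdGaussian (EuclideanSpace ℝ (Fin (n + 1)))).prod
        (stdGaussian (EuclideanSpace ℝ (Fin (n + 2))))) := by
  have h1 : Integrable (fun z : EuclideanSpace ℝ (Fin (n + 1)) => ‖z‖)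
      (stdGaussian (EuclideanSpace ℝ (Fin (n + 1)))) := IsGaussian.integrable_id.norm
  have h2 : Integrable (fun z : EuclideanSpace ℝ (Fin (n + 2)) => ‖z‖)
      (stdGaussian (EuclideanSpace ℝ (Fin (n + 2)))) := IsGaussian.integrable_id.norm
  exact ((h1.comp_fst _).add (h2.comp_snd _)).const_mul _

lemma F_tendsto (x : Fin (n + 2) → EuclideanSpace ℝ (Fin (n + 1))) (hx : ∀ i, ‖x i‖ = 1) :
    Tendsto (fun η => ∫ p, F x η p ∂((stdGaussian (EuclideanSpace ℝ (Fin (n + 1)))).prod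
        (stdGaussian (EuclideanSpace ℝ (Fin (n + 2)))))) (𝓝[>] 0)
      (𝓝 (Real.sqrt ((n + 1) / (n + 2)) *
        ∫ z, (⨆ i, inner ℝ (x i) z) ∂(stdGaussian (EuclideanSpace ℝ (Fin (n + 1)))))) := by
  have h0 : Real.sqrt ((n + 1) / (n + 2)) *
        ∫ z, (⨆ i, inner ℝ (x i) z) ∂(stdGaussian (EuclideanSpace ℝ (Fin (n + 1)))) =
      ∫ p, F x 0 p ∂((stdGaussian (EuclideanSpace ℝ (Fin (n + 1)))).prod
        (stdGaussian (EuclideanSpace ℝ (Fin (n + 2))))) := by
    have e : F x 0 = fun p : EuclideanSpace ℝ (Fin (n + 1)) × EuclideanSpace ℝ (Fin (n + 2)) =>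
        (fun z => Real.sqrt ((n + 1) / (n + 2)) * ⨆ i, inner ℝ (x i) z) p.1 := by
      funext p
      unfold F
      simp only [sub_zero, mul_one, Real.sqrt_zero, zero_mul, add_zero]
      rw [Real.mul_iSup_of_nonneg (Real.sqrt_nonneg _)]
    rw [e, integral_fun_fst, integral_const_mul]
    simp
  rw [h0]
  refine tendsto_integral_filter_of_dominated_convergence
    (fun p => ((n : ℝ) + 2) * (‖p.1‖ + ‖p.2‖)) ?_ ?_ bound_int ?_
  · exact Eventually.of_forall fun η => (F_cont_p x η).aestronglyMeasurable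
  · have : ∀ᶠ η in 𝓝[>] (0 : ℝ), η ∈ Ioo (0 : ℝ) 1 := Ioo_mem_nhdsGT one_pos
    filter_upwards [this] with η hη
    exact Eventually.of_forall fun p => F_bound x hx η hη.1.le hη.2.le p
  · refine Eventually.of_forall fun p => ?_
    exact ((F_cont_η x p).tendsto 0).mono_left nhdsWithin_le_nhds

end maxaux

open maxaux in
theorem max_ (h1 : St_max1) : St_max := by
  intro n x y hx hy hyy
  have tx := F_tendsto x hx
  have ty := F_tendsto y hy
  have hle : Real.sqrt ((n + 1) / (n + 2)) *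
        ∫ z, (⨆ i, inner ℝ (x i) z) ∂(stdGaussian (EuclideanSpace ℝ (Fin (n + 1)))) ≤
      Real.sqrt ((n + 1) / (n + 2)) *
        ∫ z, (⨆ i, inner ℝ (y i) z) ∂(stdGaussian (EuclideanSpace ℝ (Fin (n + 1)))) := by
    refine le_of_tendsto_of_tendsto tx ty ?_
    have : ∀ᶠ η in 𝓝[>] (0 : ℝ), η ∈ Ioo (0 : ℝ) 1 := Ioo_mem_nhdsGT one_pos
    filter_upwards [this] with η hη
    have hn : ((n : ℝ) + 1) ≠ 0 := by positivity
    have hn2 : ((n : ℝ) + 2) ≠ 0 := by positivity
    refine h1 n x y hx hy hyy ((n + 1) / (n + 2) * (1 - η)) η ?_ hη.1 ?_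
    · have : 0 ≤ 1 - η := by linarith [hη.2]
      positivity
    · field_simp
      ring
  exact le_of_mul_le_mul_left hle (Real.sqrt_pos.2 (by positivity))

end Pool.Agent.H604R2.SW
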