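import Pool.Agent.H604R2.SW.Props

set_option autoImplicit false

namespace Pool.Agent.H604R2.SW

open MeasureTheory Matrix Finset Filter Topology Set ProbabilityTheory
open scoped BigOperators

/-- The supremum of the noisy linear functionals. -/
noncomputable def supF {n : ℕ} (x : Fin (n + 2) → EuclideanSpace ℝ (Fin (n + 1))) (s δ : ℝ)
    (p : EuclideanSpace ℝ (Fin (n + 1)) × EuclideanSpace ℝ (Fin (n + 2))) : ℝ :=
  ⨆ i, (Real.sqrt s * inner ℝ (x i) p.1 + Real.sqrt δ * p.2 i)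

theorem supF_measurable {n : ℕ} (x : Fin (n + 2) → EuclideanSpace ℝ (Fin (n + 1))) (s δ : ℝ) :
    Measurable (supF x s δ) := by
  unfold supF
  refine Measurable.iSup fun i => ?_
  fun_prop

theorem supF_integrable {n : ℕ} (x : Fin (n + 2) → EuclideanSpace ℝ (Fin (n + 1))) (s δ : ℝ) :
    Integrable (supF x s δ) ((stdGaussian (EuclideanSpace ℝ (Fin (n + 1)))).prod
        (stdGaussian (EuclideanSpace ℝ (Fin (n + 2))))) := by
  have h1 : ∀ i : Fin (n + 2), Integrable
      (fun p : EuclideanSpace ℝ (Fin (n + 1)) × EuclideanSpace ℝ (Fin (n + 2)) =>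
        Real.sqrt s * inner ℝ (x i) p.1 + Real.sqrt δ * p.2 i)
      ((stdGaussian (EuclideanSpace ℝ (Fin (n + 1)))).prod
        (stdGaussian (EuclideanSpace ℝ (Fin (n + 2))))) := by
    intro i
    refine Integrable.add ?_ ?_
    · refine Integrable.const_mul ?_ _
      have h : Integrable (fun z : EuclideanSpace ℝ (Fin (n + 1)) => inner ℝ (x i) z)
          (stdGaussian (EuclideanSpace ℝ (Fin (n + 1)))) :=
        (innerSL ℝ (x i)).integrable_comp (IsGaussian.integrable_id)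
      exact h.comp_fst _
    · refine Integrable.const_mul ?_ _
      have h : Integrable (fun z : EuclideanSpace ℝ (Fin (n + 2)) => z i)
          (stdGaussian (EuclideanSpace ℝ (Fin (n + 2)))) :=
        (EuclideanSpace.proj i : EuclideanSpace ℝ (Fin (n + 2)) →L[ℝ] ℝ).integrable_comp
          (IsGaussian.integrable_id)
      exact h.comp_snd _
  have h2 : Integrable (fun p : EuclideanSpace ℝ (Fin (n + 1)) × EuclideanSpace ℝ (Fin (n + 2)) =>
        ∑ i, |Real.sqrt s * inner ℝ (x i) p.1 + Real.sqrt δ * p.2 i|)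
      ((stdGaussian (EuclideanSpace ℝ (Fin (n + 1)))).prod
        (stdGaussian (EuclideanSpace ℝ (Fin (n + 2))))) :=
    integrable_finsetSum _ fun i _ => (h1 i).abs
  refine h2.mono' (supF_measurable x s δ).aestronglyMeasurable (Eventually.of_forall fun p => ?_)
  unfold supF
  rw [Real.norm_eq_abs, abs_le]
  constructor
  · have h3 : Real.sqrt s * inner ℝ (x 0) p.1 + Real.sqrt δ * p.2 0 ≤
        ⨆ i, (Real.sqrt s * inner ℝ (x i) p.1 + Real.sqrt δ * p.2 i) :=
      le_ciSup (f := fun i => (Real.sqrt s * inner ℝ (x i) p.1 + Real.sqrt δ * p.2 i))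
        (Set.finite_range _).bddAbove 0
    have h4 : |Real.sqrt s * inner ℝ (x 0) p.1 + Real.sqrt δ * p.2 0| ≤
        ∑ i, |Real.sqrt s * inner ℝ (x i) p.1 + Real.sqrt δ * p.2 i| :=
      Finset.single_le_sum (f := fun i => |Real.sqrt s * inner ℝ (x i) p.1 + Real.sqrt δ * p.2 i|)
        (fun i _ => abs_nonneg _) (Finset.mem_univ 0)
    have h5 := neg_abs_le (Real.sqrt s * inner ℝ (x 0) p.1 + Real.sqrt δ * p.2 0)
    linarith
  · refine ciSup_le fun i => ?_
    have h4 : |Real.sqrt s * inner ℝ (x i) p.1 + Real.sqrt δ * p.2 i| ≤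
        ∑ i, |Real.sqrt s * inner ℝ (x i) p.1 + Real.sqrt δ * p.2 i| :=
      Finset.single_le_sum (f := fun i => |Real.sqrt s * inner ℝ (x i) p.1 + Real.sqrt δ * p.2 i|)
        (fun i _ => abs_nonneg _) (Finset.mem_univ i)
    exact (le_abs_self _).trans h4

/-- The probability of the event as an orthant probability. -/
theorem supF_prob (h2 : St_mix) {n : ℕ} (x : Fin (n + 2) → EuclideanSpace ℝ (Fin (n + 1)))
    (R : Matrix (Fin (n + 2)) (Fin (n + 2)) ℝ) (hR : ∀ i j, inner ℝ (x i) (x j) = R i j)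
    (s δ τ : ℝ) (hs : 0 ≤ s) (hδ : 0 < δ) (hτ : 0 < τ) :
    ((((stdGaussian (EuclideanSpace ℝ (Fin (n + 1)))).prod
        (stdGaussian (EuclideanSpace ℝ (Fin (n + 2))))).prod (gaussianReal 0 1))
      {p | supF x s δ p.1 + τ * p.2 ≤ 0}).toReal =
    orth (s • R + δ • (1 : Matrix (Fin (n + 2)) (Fin (n + 2)) ℝ) + Matrix.of (fun _ _ => τ ^ 2)) := by
  rw [h2 x R hR s δ (τ ^ 2) hs hδ (by positivity)]
  congr 2
  ext p
  simp only [Set.mem_ofPred_eq]
  rw [Real.sqrt_sq hτ.le]
  unfold supF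
  constructor
  · intro h i
    have h3 : Real.sqrt s * inner ℝ (x i) p.1.1 + Real.sqrt δ * p.1.2 i ≤
        ⨆ i, (Real.sqrt s * inner ℝ (x i) p.1.1 + Real.sqrt δ * p.1.2 i) :=
      le_ciSup (f := fun i => (Real.sqrt s * inner ℝ (x i) p.1.1 + Real.sqrt δ * p.1.2 i))
        (Set.finite_range _).bddAbove i
    linarith
  · intro h
    have : (⨆ i, (Real.sqrt s * inner ℝ (x i) p.1.1 + Real.sqrt δ * p.1.2 i)) ≤ -(τ * p.2) :=
      ciSup_le fun i => by linarith [h i]
    linarith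

theorem Cm_eq {n : ℕ} (R : Matrix (Fin (n + 2)) (Fin (n + 2)) ℝ) (s δ τ : ℝ)
    (hδ : δ = 1 - s * ((n : ℝ) + 2) / ((n : ℝ) + 1)) (κ : ℝ)
    (hκ : κ = 1 + ((n : ℝ) + 2) * (τ ^ 2 - s / ((n : ℝ) + 1))) :
    Cm κ s R = s • R + δ • (1 : Matrix (Fin (n + 2)) (Fin (n + 2)) ℝ) +
      Matrix.of (fun _ _ => τ ^ 2) := by
  have hn1 : ((n : ℝ) + 1) ≠ 0 := by positivity
  have hn2 : ((n : ℝ) + 2) ≠ 0 := by positivity
  ext i j
  simp only [Cm, Ek, R0, Matrix.add_apply, Matrix.smul_apply, Matrix.sub_apply, Matrix.of_apply,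
    Fintype.card_fin, Matrix.one_apply, smul_eq_mul]
  push_cast
  have h3 : ((n : ℝ) + 2 - 1) = (n : ℝ) + 1 := by ring
  rw [h3, hκ, hδ]
  by_cases hij : i = j
  · subst hij
    simp only [if_true]
    field_simp
    ring
  · simp only [if_neg hij]
    field_simp
    ring

theorem max1 (h1 : St_OP) (h2 : St_mix) (h3 : St_lim) : St_max1 := by
  intro n x y hx hy hxy s δ hs hδ hδe
  have key : ∫ p, supF x s δ p ∂((stdGaussian (EuclideanSpace ℝ (Fin (n + 1)))).prod
        (stdGaussian (EuclideanSpace ℝ (Fin (n + 2))))) ≤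
      ∫ p, supF y s δ p ∂((stdGaussian (EuclideanSpace ℝ (Fin (n + 1)))).prod
        (stdGaussian (EuclideanSpace ℝ (Fin (n + 2))))) := by
    refine h3 _ _ (supF x s δ) (supF y s δ) (supF_measurable x s δ) (supF_measurable y s δ)
      (supF_integrable x s δ) (supF_integrable y s δ) (1 + s) ?_
    intro τ hτ hτ0
    rw [supF_prob h2 x (Matrix.of fun i j => inner ℝ (x i) (x j)) (fun i j => rfl) s δ τ hs hδ hτ,
      supF_prob h2 y (R0 (Fin (n + 2))) ?_ s δ τ hs hδ hτ,
      ← Cm_eq _ s δ τ hδe _ rfl, ← Cm_eq _ s δ τ hδe _ rfl]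
    · have hk : (0 : ℝ) < 1 + ((n : ℝ) + 2) * (τ ^ 2 - s / ((n : ℝ) + 1)) := by
        have h4 : s / ((n : ℝ) + 1) ≤ s :=
          div_le_self hs (by linarith [(Nat.cast_nonneg n : (0 : ℝ) ≤ n)])
        have h5 : s ≤ τ ^ 2 := by nlinarith
        have h6 : 0 ≤ ((n : ℝ) + 2) * (τ ^ 2 - s / ((n : ℝ) + 1)) :=
          mul_nonneg (by positivity) (by linarith)
        linarith
      have h7 := h1 (n := n) (1 + ((n : ℝ) + 2) * (τ ^ 2 - s / ((n : ℝ) + 1))) s
        (Matrix.of fun i j => inner ℝ (x i) (x j)) hk hs (by rw [← hδe]; exact hδ) ?_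
      · have h8 : Cm (1 + ((n : ℝ) + 2) * (τ ^ 2 - s / ((n : ℝ) + 1))) s (R0 (Fin (n + 2))) =
            Ek (Fin (n + 2)) (1 + ((n : ℝ) + 2) * (τ ^ 2 - s / ((n : ℝ) + 1))) := by
          unfold Cm
          simp
        rw [h8]
        exact h7
      · constructor
        · have : (Matrix.of fun i j => inner ℝ (x i) (x j) : Matrix (Fin (n + 2)) (Fin (n + 2)) ℝ) =
              Matrix.gram ℝ x := by
            ext i j
            simp [Matrix.gram]
          rw [this]
          exact Matrix.posSemidef_gram ℝ x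
        · intro i
          simp [hx i]
    · intro i j
      by_cases hij : i = j
      · subst hij
        simp [R0, hy i]
      · rw [hxy i j hij]
        simp only [R0, Matrix.of_apply, if_neg hij, Fintype.card_fin]
        push_cast
        congr 1
        ring
  exact key

end Pool.Agent.H604R2.SW
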