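import Pool.Agent.H604R2.SW.Props

set_option autoImplicit false

namespace Pool.Agent.H604R2.SW

open MeasureTheory Matrix Finset Filter Topology Set ProbabilityTheory
open scoped BigOperators

namespace mixaux

theorem std_prod {E F : Type} [NormedAddCommGroup E] [InnerProductSpace ℝ E]
    [FiniteDimensional ℝ E] [MeasurableSpace E] [BorelSpace E] [NormedAddCommGroup F]
    [InnerProductSpace ℝ F] [FiniteDimensional ℝ F] [MeasurableSpace F] [BorelSpace F] :
    ((stdGaussian E).prod (stdGaussian F)).map (WithLp.toLp 2) =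
      stdGaussian (WithLp 2 (E × F)) := by
  have : IsFiniteMeasure (((stdGaussian E).prod (stdGaussian F)).map
      (WithLp.toLp 2 : E × F → WithLp 2 (E × F))) := inferInstance
  refine Measure.ext_of_charFun (funext fun t => ?_)
  rw [charFun_prod, charFun_stdGaussian, charFun_stdGaussian, charFun_stdGaussian,
    ← Complex.exp_add]
  congr 1
  have h := WithLp.prod_norm_sq_eq_of_L2 t
  have h2 : ((‖t‖ : ℝ) : ℂ) ^ 2 = ((‖(WithLp.ofLp t).1‖ : ℝ) : ℂ) ^ 2 +
      ((‖(WithLp.ofLp t).2‖ : ℝ) : ℂ) ^ 2 := by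
    rw [← Complex.ofReal_pow, h]
    push_cast
    rfl
  rw [h2]
  ring

theorem std_real : gaussianReal 0 1 = stdGaussian ℝ := by
  refine Measure.ext_of_charFun (funext fun t => ?_)
  rw [charFun_gaussianReal, charFun_stdGaussian]
  congr 1
  have : ((‖t‖ : ℝ) : ℂ) ^ 2 = (t : ℂ) ^ 2 := by
    rw [← Complex.ofReal_pow, Real.norm_eq_abs, sq_abs, Complex.ofReal_pow]
  rw [this]
  simp
  ring

end mixaux

open mixaux in
theorem mix (h : St_law) : St_mix := by
  classical
  intro N E _ _ _ _ _ x R hR s δ τ hs hδ hτ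
  set C : Matrix (Fin N) (Fin N) ℝ :=
    s • R + δ • (1 : Matrix (Fin N) (Fin N) ℝ) + Matrix.of (fun _ _ => τ) with hC
  let F := EuclideanSpace ℝ (Fin N)
  let E1 := WithLp 2 (E × F)
  let E2 := WithLp 2 (E1 × ℝ)
  let a : Fin N → E2 := fun i =>
    WithLp.toLp 2 (WithLp.toLp 2 (Real.sqrt s • x i, Real.sqrt δ • EuclideanSpace.single i (1 : ℝ)),
      Real.sqrt τ)
  have hinner : ∀ (i : Fin N) (p : (E × F) × ℝ),
      inner ℝ (a i) (WithLp.toLp 2 (WithLp.toLp 2 p.1, p.2) : E2) =
        Real.sqrt s * inner ℝ (x i) p.1.1 + Real.sqrt δ * p.1.2 i + Real.sqrt τ * p.2 := by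
    intro i p
    simp only [a]
    rw [WithLp.prod_inner_apply, WithLp.prod_inner_apply]
    have e1 : inner ℝ (EuclideanSpace.single i (1 : ℝ)) p.1.2 = p.1.2 i := by
      rw [EuclideanSpace.inner_single_left]; simp
    simp only [inner_smul_left, e1]
    simp
    ring
  have hgram : ∀ i j, inner ℝ (a i) (a j) = C i j := by
    intro i j
    have h1 := hinner i ((Real.sqrt s • x j, Real.sqrt δ • EuclideanSpace.single j (1 : ℝ)),
      Real.sqrt τ)
    simp only [a] at h1 ⊢
    rw [h1, inner_smul_right, hR, hC]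
    simp only [Matrix.add_apply, Matrix.smul_apply, Matrix.of_apply, smul_eq_mul]
    have e1 : Real.sqrt s * (Real.sqrt s * R i j) = s * R i j := by
      rw [← mul_assoc, Real.mul_self_sqrt hs]
    have e3 : Real.sqrt τ * Real.sqrt τ = τ := Real.mul_self_sqrt hτ
    have e2 : Real.sqrt δ * (Real.sqrt δ • EuclideanSpace.single j (1 : ℝ) : F) i =
        δ * (1 : Matrix (Fin N) (Fin N) ℝ) i j := by
      have e4 : (Real.sqrt δ • EuclideanSpace.single j (1 : ℝ) : F) i =
          Real.sqrt δ * (1 : Matrix (Fin N) (Fin N) ℝ) i j := by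
        by_cases hij : i = j
        · subst hij; simp
        · simp [hij]
      rw [e4, ← mul_assoc, Real.mul_self_sqrt hδ.le]
    rw [e1, e2, e3]
  have hpos : C.PosDef := by
    have h1 : (gram ℝ x).PosSemidef := posSemidef_gram ℝ x
    have hRg : R = gram ℝ x := by
      ext i j
      rw [gram_apply, hR]
    have h2 : (s • R).PosSemidef := by
      rw [hRg]
      exact h1.smul hs
    have h3 : (δ • (1 : Matrix (Fin N) (Fin N) ℝ)).PosDef := Matrix.PosDef.one.smul hδ
    have h4 : (Matrix.of (fun _ _ => τ) : Matrix (Fin N) (Fin N) ℝ).PosSemidef := by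
      have h5 : (Matrix.of (fun _ _ => τ) : Matrix (Fin N) (Fin N) ℝ) =
          gram ℝ (fun _ : Fin N => Real.sqrt τ) := by
        ext i j
        rw [gram_apply]
        have e9 : inner ℝ (Real.sqrt τ) (Real.sqrt τ) = Real.sqrt τ * Real.sqrt τ := by
          simp [sq]
        rw [e9, Real.mul_self_sqrt hτ]
        rfl
      rw [h5]
      exact posSemidef_gram ℝ _
    rw [hC]
    exact (h3.posSemidef_add h2).add_posSemidef h4
  rw [h a C hpos hgram]
  have hmeas : ((stdGaussian E).prod (stdGaussian F)).map (WithLp.toLp 2) = stdGaussian E1 :=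
    std_prod
  have hmeas2 : ((stdGaussian E1).prod (gaussianReal 0 1)).map (WithLp.toLp 2) =
      stdGaussian E2 := by
    rw [std_real]
    exact std_prod
  have hmt1 : Measurable (WithLp.toLp 2 : E × F → E1) :=
    (MeasurableEquiv.toLp 2 (E × F)).measurable
  have hmt2 : Measurable (WithLp.toLp 2 : E1 × ℝ → E2) :=
    (MeasurableEquiv.toLp 2 (E1 × ℝ)).measurable
  have hmap : (((stdGaussian E).prod (stdGaussian F)).prod (gaussianReal 0 1)).map
      (fun p : (E × F) × ℝ => (WithLp.toLp 2 (WithLp.toLp 2 p.1, p.2) : E2)) = stdGaussian E2 := by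
    rw [← hmeas2, ← hmeas]
    have e1 := Measure.map_prod_map ((stdGaussian E).prod (stdGaussian F)) (gaussianReal 0 1)
      hmt1 measurable_id
    rw [Measure.map_id] at e1
    rw [e1, Measure.map_map hmt2 (hmt1.prodMap measurable_id)]
    rfl
  have hset : MeasurableSet {z : E2 | ∀ i, inner ℝ (a i) z ≤ 0} := by
    have : {z : E2 | ∀ i, inner ℝ (a i) z ≤ 0} = ⋂ i, {z : E2 | inner ℝ (a i) z ≤ 0} := by
      ext z; simp
    rw [this]
    refine MeasurableSet.iInter fun i => ?_
    exact (isClosed_le (by fun_prop) continuous_const).measurableSet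
  have hfm : Measurable (fun p : (E × F) × ℝ => (WithLp.toLp 2 (WithLp.toLp 2 p.1, p.2) : E2)) :=
    hmt2.comp (hmt1.prodMap measurable_id)
  rw [← hmap, Measure.map_apply hfm hset]
  congr 2
  ext p
  rw [Set.mem_preimage]
  show (∀ i, inner ℝ (a i) (WithLp.toLp 2 (WithLp.toLp 2 p.1, p.2) : E2) ≤ 0) ↔
    (∀ i, Real.sqrt s * inner ℝ (x i) p.1.1 + Real.sqrt δ * p.1.2 i + Real.sqrt τ * p.2 ≤ 0)
  simp only [hinner]

end Pool.Agent.H604R2.SW
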