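import Pool.Agent.H604R2.SW.Props
import Pool.Agent.H212R2.KLS.T1

set_option autoImplicit false

namespace Pool.Agent.H604R2.SW

open MeasureTheory Matrix Finset Filter Topology Set ProbabilityTheory
open scoped BigOperators

namespace plaux

theorem dens_continuous {ι : Type} [Fintype ι] [DecidableEq ι] (C : Matrix ι ι ℝ) :
    Continuous (dens C) := by
  unfold dens
  refine continuous_const.mul (Real.continuous_exp.comp ?_)
  refine Continuous.div_const (Continuous.neg ?_) _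
  exact Continuous.dotProduct continuous_id (Continuous.matrix_mulVec continuous_const continuous_id)

theorem dens_nonneg {ι : Type} [Fintype ι] [DecidableEq ι] (C : Matrix ι ι ℝ) (x : ι → ℝ) :
    0 ≤ dens C x := by
  unfold dens
  positivity

theorem quad_convex {ι : Type} [Fintype ι] [DecidableEq ι] {M : Matrix ι ι ℝ} (hM : M.PosSemidef)
    (a b : ι → ℝ) {ε : ℝ} (h0 : 0 ≤ ε) (h1 : ε ≤ 1) :
    ((1 - ε) • a + ε • b) ⬝ᵥ (M *ᵥ ((1 - ε) • a + ε • b)) ≤
      (1 - ε) * (a ⬝ᵥ (M *ᵥ a)) + ε * (b ⬝ᵥ (M *ᵥ b)) := by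
  have h := hM.dotProduct_mulVec_nonneg (x := a - b)
  rw [star_trivial, Matrix.mulVec_sub, sub_dotProduct, dotProduct_sub, dotProduct_sub] at h
  rw [Matrix.mulVec_add, Matrix.mulVec_smul, Matrix.mulVec_smul, add_dotProduct, dotProduct_add,
    dotProduct_add, smul_dotProduct, smul_dotProduct, dotProduct_smul, dotProduct_smul,
    smul_dotProduct, smul_dotProduct, dotProduct_smul, dotProduct_smul]
  simp only [smul_eq_mul]
  have h2 : 0 ≤ (1 - ε) * ε * (a ⬝ᵥ M *ᵥ a - a ⬝ᵥ M *ᵥ b - (b ⬝ᵥ M *ᵥ a - b ⬝ᵥ M *ᵥ b)) := by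
    have : 0 ≤ 1 - ε := by linarith
    positivity
  nlinarith [h2]

theorem dens_logconcave {ι : Type} [Fintype ι] [DecidableEq ι] {C : Matrix ι ι ℝ} (hC : C.PosDef)
    (a b : ι → ℝ) {ε : ℝ} (h0 : 0 < ε) (h1 : ε < 1) :
    dens C a ^ (1 - ε) * dens C b ^ ε ≤ dens C ((1 - ε) • a + ε • b) := by
  unfold dens
  set Z : ℝ := (Real.sqrt ((2 * Real.pi) ^ (Fintype.card ι) * C.det))⁻¹ with hZ
  have hZpos : 0 < Z := by
    rw [hZ]
    apply inv_pos.mpr
    apply Real.sqrt_pos.mpr
    have := hC.det_pos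
    positivity
  have hq := quad_convex hC.inv.posSemidef a b h0.le h1.le
  rw [Real.mul_rpow hZpos.le (Real.exp_nonneg _), Real.mul_rpow hZpos.le (Real.exp_nonneg _),
    ← Real.exp_mul, ← Real.exp_mul]
  have e1 : Z ^ (1 - ε) * Real.exp (-(a ⬝ᵥ C⁻¹ *ᵥ a) / 2 * (1 - ε)) *
      (Z ^ ε * Real.exp (-(b ⬝ᵥ C⁻¹ *ᵥ b) / 2 * ε)) =
      Z * Real.exp (-((1 - ε) * (a ⬝ᵥ (C⁻¹ *ᵥ a)) + ε * (b ⬝ᵥ (C⁻¹ *ᵥ b))) / 2) := by
    have e2 : Z = Z ^ (1 - ε) * Z ^ ε := by
      rw [← Real.rpow_add hZpos]; simp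
    have e3 : Real.exp (-((1 - ε) * (a ⬝ᵥ (C⁻¹ *ᵥ a)) + ε * (b ⬝ᵥ (C⁻¹ *ᵥ b))) / 2) =
      Real.exp (-(a ⬝ᵥ C⁻¹ *ᵥ a) / 2 * (1 - ε)) * Real.exp (-(b ⬝ᵥ C⁻¹ *ᵥ b) / 2 * ε) := by
      rw [← Real.exp_add]; congr 1; ring
    rw [e3]
    conv_rhs => rw [e2]
    ring
  rw [e1]
  apply mul_le_mul_of_nonneg_left _ hZpos.le
  apply Real.exp_le_exp.mpr
  linarith

/-- the argument of the density in `kk` -/
noncomputable def Ar {n : ℕ} (C : Matrix (Fin (n + 2)) (Fin (n + 2)) ℝ) (s t ε : ℝ)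
    (y : Fin n → ℝ) : Fin (n + 2) → ℝ :=
  vec 0 (-(t + ε * (s - t))) (fun j => y j + ε * s * kap C j)

theorem Ar_comb {n : ℕ} (C : Matrix (Fin (n + 2)) (Fin (n + 2)) ℝ) (s t ε : ℝ)
    (y z : Fin n → ℝ) :
    Ar C s t ε ((1 - ε) • y + ε • z) = (1 - ε) • Ar C s t 0 y + ε • Ar C s t 1 z := by
  funext i
  refine Fin.cases ?_ (fun i => ?_) i
  · simp [Ar, vec]
  · refine Fin.cases ?_ (fun j => ?_) i
    · simp [Ar, vec]; ring
    · simp [Ar, vec]; ring

theorem Ar_continuous {n : ℕ} (C : Matrix (Fin (n + 2)) (Fin (n + 2)) ℝ) (s t ε : ℝ) :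
    Continuous (Ar C s t ε) := by
  refine continuous_pi fun i => ?_
  refine Fin.cases ?_ (fun i => ?_) i
  · simp [Ar, vec, continuous_const]
  · refine Fin.cases ?_ (fun j => ?_) i
    · simp only [Ar, vec, Matrix.cons_val_succ, Matrix.cons_val_zero]
      exact continuous_const
    · simp only [Ar, vec, Matrix.cons_val_succ]
      exact (continuous_apply j).add continuous_const

theorem kk_integrable (h : St_dom) {n : ℕ} (C : Matrix (Fin (n + 2)) (Fin (n + 2)) ℝ)
    (hC : C.PosDef) (s t ε : ℝ) : Integrable (fun y : Fin n → ℝ => dens C (Ar C s t ε y)) := by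
  obtain ⟨δ, hδ, c, hc, M, hM, hdom⟩ := h C hC
  obtain ⟨-, hb, -, -⟩ := hdom C hC.isHermitian (fun i j => by simpa using hδ)
  have h1 : Integrable (fun y : Fin n → ℝ => ∏ j, Real.exp (-c * (y j + ε * s * kap C j) ^ 2)) := by
    refine Integrable.fintype_prod (f := fun j x => Real.exp (-c * (x + ε * s * kap C j) ^ 2)) ?_
    intro j
    exact (integrable_exp_neg_mul_sq hc).comp_add_right (ε * s * kap C j)
  refine (h1.const_mul M).mono' ((dens_continuous C).comp (Ar_continuous C s t ε)).aestronglyMeasurable ?_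
  refine Eventually.of_forall fun y => ?_
  rw [Real.norm_of_nonneg (dens_nonneg _ _)]
  refine (hb _).trans (mul_le_mul_of_nonneg_left ?_ hM.le)
  rw [← Real.exp_sum]
  apply Real.exp_le_exp.mpr
  rw [← Finset.mul_sum, Fin.sum_univ_succ, Fin.sum_univ_succ]
  simp only [Ar, vec, Matrix.cons_val_succ, Matrix.cons_val_zero]
  nlinarith [sq_nonneg (t + ε * (s - t)), hc]

theorem measurableSet_Neg {n : ℕ} : MeasurableSet (Neg (Fin n)) := by
  have : Neg (Fin n) = ⋂ i, {x : Fin n → ℝ | x i ≤ 0} := by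
    ext x; simp [Neg]
  rw [this]
  exact MeasurableSet.iInter fun i => measurableSet_le (measurable_pi_apply i) measurable_const

end plaux

open plaux ENNReal in
theorem pl (h : St_dom) : St_pl := by
  intro n C hC s t ε h0 h1
  have hkk : ∀ e : ℝ, kk C s t e =
      (∫⁻ y, (Neg (Fin n)).indicator (fun y => ENNReal.ofReal (dens C (Ar C s t e y))) y).toReal := by
    intro e
    have e1 : kk C s t e = ∫ y in Neg (Fin n), dens C (Ar C s t e y) := rfl
    rw [e1, integral_eq_lintegral_of_nonneg_ae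
      (Eventually.of_forall fun y => dens_nonneg _ _)
      ((dens_continuous C).comp (Ar_continuous C s t e)).aestronglyMeasurable,
      lintegral_indicator measurableSet_Neg]
  have hfin : ∀ e : ℝ,
      (∫⁻ y, (Neg (Fin n)).indicator (fun y => ENNReal.ofReal (dens C (Ar C s t e y))) y) ≠ ⊤ := by
    intro e
    rw [lintegral_indicator measurableSet_Neg]
    exact ((kk_integrable h C hC s t e).integrableOn (s := Neg (Fin n))).lintegral_lt_top.ne
  have hmeas : ∀ e : ℝ, Measurable ((Neg (Fin n)).indicator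
      (fun y => ENNReal.ofReal (dens C (Ar C s t e y)))) := by
    intro e
    exact (ENNReal.measurable_ofReal.comp
      ((dens_continuous C).comp (Ar_continuous C s t e)).measurable).indicator measurableSet_Neg
  have key := Pool.Agent.H212R2.KLS.PL (F := Fin n → ℝ) volume ε h0 h1 _ _ _
    (hmeas 0) (hmeas 1) (hmeas ε) (by
      intro x y
      by_cases hx : x ∈ Neg (Fin n)
      · by_cases hy : y ∈ Neg (Fin n)
        · have hxy : (1 - ε) • x + ε • y ∈ Neg (Fin n) := by
            intro i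
            have a1 := hx i
            have a2 := hy i
            simp only [Pi.add_apply, Pi.smul_apply, smul_eq_mul]
            nlinarith
          rw [indicator_of_mem hx, indicator_of_mem hy, indicator_of_mem hxy,
            ENNReal.ofReal_rpow_of_nonneg (dens_nonneg _ _) (by linarith),
            ENNReal.ofReal_rpow_of_nonneg (dens_nonneg _ _) h0.le,
            ← ENNReal.ofReal_mul (Real.rpow_nonneg (dens_nonneg _ _) _), Ar_comb]
          exact ENNReal.ofReal_le_ofReal (dens_logconcave hC _ _ h0 h1)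
        · rw [indicator_of_notMem hy, ENNReal.zero_rpow_of_pos h0, mul_zero]
          exact zero_le
      · rw [indicator_of_notMem hx, ENNReal.zero_rpow_of_pos (by linarith), zero_mul]
        exact zero_le)
  rw [hkk 0, hkk 1, hkk ε, ENNReal.toReal_rpow, ENNReal.toReal_rpow, ← ENNReal.toReal_mul]
  exact ENNReal.toReal_mono (hfin ε) key

end Pool.Agent.H604R2.SW
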