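import Pool.Agent.H604R2.SW.Props

set_option autoImplicit false

namespace Pool.Agent.H604R2.SW

open MeasureTheory Matrix Finset Filter Topology Set ProbabilityTheory
open scoped BigOperators

namespace Tplackett

set_option linter.unusedSectionVars false

variable {ι : Type} [Fintype ι] [DecidableEq ι]

theorem dens_nonneg (C : Matrix ι ι ℝ) (x : ι → ℝ) : 0 ≤ dens C x := by
  unfold dens
  positivity

theorem gauss_int {c : ℝ} (hc : 0 < c) :
    Integrable (fun x : ι → ℝ => Real.exp (-c * ∑ i, x i ^ 2)) := by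
  have h1 : (fun x : ι → ℝ => Real.exp (-c * ∑ i, x i ^ 2)) =
      fun x : ι → ℝ => ∏ i, Real.exp (-c * x i ^ 2) := by
    funext x
    rw [Finset.mul_sum, Real.exp_sum]
  rw [h1]
  exact Integrable.fintype_prod (f := fun (_ : ι) (t : ℝ) => Real.exp (-c * t ^ 2))
    fun _ => integrable_exp_neg_mul_sq hc

theorem sq_sum_le (x : ι → ℝ) : (∑ i, |x i|) ^ 2 ≤ (Fintype.card ι : ℝ) * ∑ i, x i ^ 2 := by
  have h := sq_sum_le_card_mul_sum_sq (s := (Finset.univ : Finset ι)) (f := fun i => |x i|)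
  simp only [sq_abs, Finset.card_univ] at h
  exact h

theorem q_exp_le {c Q : ℝ} (hc : 0 < c) :
    Q * Real.exp (-c * Q) ≤ (2 / c) * Real.exp (-(c / 2) * Q) := by
  have h1 : c / 2 * Q ≤ Real.exp (c / 2 * Q) := by
    have := Real.add_one_le_exp (c / 2 * Q)
    linarith
  have h2 : Real.exp (-c * Q) = Real.exp (-(c / 2) * Q) * Real.exp (-(c / 2) * Q) := by
    rw [← Real.exp_add]
    congr 1
    ring
  have h3 : Real.exp (c / 2 * Q) * Real.exp (-(c / 2) * Q) = 1 := by
    rw [← Real.exp_add]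
    simp
  have h4 : 0 < Real.exp (-(c / 2) * Q) := Real.exp_pos _
  have h5 : Q ≤ 2 / c * Real.exp (c / 2 * Q) := by
    rw [div_mul_eq_mul_div, le_div_iff₀ hc]
    linarith
  rw [h2]
  calc Q * (Real.exp (-(c / 2) * Q) * Real.exp (-(c / 2) * Q))
      ≤ 2 / c * Real.exp (c / 2 * Q) * (Real.exp (-(c / 2) * Q) * Real.exp (-(c / 2) * Q)) := by
        apply mul_le_mul_of_nonneg_right h5 (by positivity)
    _ = 2 / c * ((Real.exp (c / 2 * Q) * Real.exp (-(c / 2) * Q)) * Real.exp (-(c / 2) * Q)) := by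
        ring
    _ = 2 / c * Real.exp (-(c / 2) * Q) := by rw [h3, one_mul]

theorem dens2_bound {C : Matrix ι ι ℝ} {c M : ℝ} (hc : 0 < c) (hM : 0 < M)
    (h1 : ∀ x, dens C x ≤ M * Real.exp (-c * ∑ i, x i ^ 2))
    (h2 : ∀ k x, |(C⁻¹ *ᵥ x) k| ≤ M * ∑ i, |x i|) (h3 : ∀ k l, |C⁻¹ k l| ≤ M) (k l : ι)
    (x : ι → ℝ) : |dens2 C k l x| ≤
      (M ^ 2 * (Fintype.card ι : ℝ) * (2 / c) + M) * M * Real.exp (-(c / 2) * ∑ i, x i ^ 2) := by
  set Q := ∑ i, x i ^ 2 with hQ
  have hQ0 : 0 ≤ Q := Finset.sum_nonneg fun i _ => sq_nonneg _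
  have hS0 : 0 ≤ ∑ i, |x i| := Finset.sum_nonneg fun i _ => abs_nonneg _
  have h4 : |(C⁻¹ *ᵥ x) k * (C⁻¹ *ᵥ x) l - C⁻¹ k l| ≤ M ^ 2 * ((Fintype.card ι : ℝ) * Q) + M := by
    calc |(C⁻¹ *ᵥ x) k * (C⁻¹ *ᵥ x) l - C⁻¹ k l|
        ≤ |(C⁻¹ *ᵥ x) k * (C⁻¹ *ᵥ x) l| + |C⁻¹ k l| := abs_sub _ _
      _ ≤ (M * ∑ i, |x i|) * (M * ∑ i, |x i|) + M := by
          rw [abs_mul]
          exact add_le_add (mul_le_mul (h2 k x) (h2 l x) (abs_nonneg _) (by positivity)) (h3 k l)
      _ = M ^ 2 * (∑ i, |x i|) ^ 2 + M := by ring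
      _ ≤ _ := by
          have := sq_sum_le x
          gcongr
  unfold dens2
  rw [abs_mul, abs_of_nonneg (dens_nonneg C x)]
  calc |(C⁻¹ *ᵥ x) k * (C⁻¹ *ᵥ x) l - C⁻¹ k l| * dens C x
      ≤ (M ^ 2 * ((Fintype.card ι : ℝ) * Q) + M) * (M * Real.exp (-c * Q)) :=
        mul_le_mul h4 (h1 x) (dens_nonneg C x) (by positivity)
    _ = M ^ 2 * (Fintype.card ι : ℝ) * M * (Q * Real.exp (-c * Q)) + M * M * Real.exp (-c * Q) := by
        ring
    _ ≤ M ^ 2 * (Fintype.card ι : ℝ) * M * ((2 / c) * Real.exp (-(c / 2) * Q)) +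
        M * M * Real.exp (-(c / 2) * Q) := by
        have h5 := q_exp_le (Q := Q) hc
        have h6 : Real.exp (-c * Q) ≤ Real.exp (-(c / 2) * Q) := by
          apply Real.exp_le_exp.2
          nlinarith
        gcongr
    _ = _ := by ring

end Tplackett

open Tplackett in
theorem plackett (h : St_dom) (h2 : St_int) (h3 : St_plpt) : St_plackett := by
  intro ι _ _ C A hC hA
  obtain ⟨ε, hε, c, hc, M, hM, hdom⟩ := h C hC
  set K : ℝ := ∑ i, ∑ j, |A i j| with hK
  have hK0 : 0 ≤ K := Finset.sum_nonneg fun i _ => Finset.sum_nonneg fun j _ => abs_nonneg _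
  have hδ : 0 < ε / (K + 1) := by positivity
  have hHerm : ∀ s : ℝ, (C + s • A).IsHermitian := by
    intro s
    have h4 := hC.isHermitian
    unfold Matrix.IsHermitian at h4 hA ⊢
    rw [conjTranspose_add, conjTranspose_smul, h4, hA]
    simp
  have hclose : ∀ s ∈ Metric.ball (0 : ℝ) (ε / (K + 1)), ∀ i j, |(C + s • A) i j - C i j| < ε := by
    intro s hs i j
    rw [Metric.mem_ball, dist_zero_right, Real.norm_eq_abs] at hs
    have h4 : (C + s • A) i j - C i j = s * A i j := by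
      simp [Matrix.add_apply, Matrix.smul_apply]
    rw [h4, abs_mul]
    have h5 : |A i j| ≤ K := by
      calc |A i j| ≤ ∑ j, |A i j| :=
            Finset.single_le_sum (f := fun j => |A i j|) (fun _ _ => abs_nonneg _) (Finset.mem_univ j)
        _ ≤ K := Finset.single_le_sum (f := fun i => ∑ j, |A i j|)
            (fun i _ => Finset.sum_nonneg fun _ _ => abs_nonneg _) (Finset.mem_univ i)
    rw [lt_div_iff₀ (by positivity)] at hs
    have h6 : |s| * |A i j| ≤ |s| * K := mul_le_mul_of_nonneg_left h5 (abs_nonneg _)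
    have h7 : 0 ≤ |s| := abs_nonneg _
    rcases eq_or_lt_of_le h7 with h8 | h8
    · rw [← h8, zero_mul]
      exact hε
    · nlinarith
  have hD : ∀ s ∈ Metric.ball (0 : ℝ) (ε / (K + 1)), (C + s • A).PosDef ∧
      (∀ x, dens (C + s • A) x ≤ M * Real.exp (-c * ∑ i, x i ^ 2)) ∧
      (∀ k x, |((C + s • A)⁻¹ *ᵥ x) k| ≤ M * ∑ i, |x i|) ∧ (∀ k l, |(C + s • A)⁻¹ k l| ≤ M) :=
    fun s hs => hdom _ (hHerm s) (hclose s hs)
  have h0 : (0 : ℝ) ∈ Metric.ball (0 : ℝ) (ε / (K + 1)) := Metric.mem_ball_self hδ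
  have hC0 : C + (0 : ℝ) • A = C := by simp
  set F' : ℝ → (ι → ℝ) → ℝ := fun s x => 1 / 2 * ∑ k, ∑ l, A k l * dens2 (C + s • A) k l x with hF'
  set B : ℝ := (M ^ 2 * (Fintype.card ι : ℝ) * (2 / c) + M) * M with hB
  have hB0 : 0 ≤ B := by positivity
  have hint2 : ∀ k l, Integrable (dens2 C k l) volume := (h2 C hC).2.2
  have key := hasDerivAt_integral_of_dominated_loc_of_deriv_le (μ := volume.restrict (Neg ι))
    (F := fun (s : ℝ) (x : ι → ℝ) => dens (C + s • A) x) (F' := F') (x₀ := (0 : ℝ))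
    (s := Metric.ball (0 : ℝ) (ε / (K + 1)))
    (bound := fun x => (1 / 2 * (K * B)) * Real.exp (-(c / 2) * ∑ i, x i ^ 2))
    (Metric.ball_mem_nhds _ hδ) ?_ ?_ ?_ ?_ ?_ ?_
  · have h4 := key.2
    have h5 : (∫ x in Neg ι, F' 0 x) = 1 / 2 * ∑ k, ∑ l, A k l * tie C k l := by
      simp only [hF', hC0]
      rw [integral_const_mul, integral_finsetSum]
      · congr 1
        refine Finset.sum_congr rfl fun k _ => ?_
        rw [integral_finsetSum]
        · refine Finset.sum_congr rfl fun l _ => ?_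
          rw [integral_const_mul]
          rfl
        · intro l _
          exact ((hint2 k l).const_mul _).integrableOn
      · intro k _
        exact integrable_finsetSum _ fun l _ => ((hint2 k l).const_mul _).integrableOn
    rw [h5] at h4
    exact h4
  · filter_upwards [Metric.ball_mem_nhds (0 : ℝ) hδ] with s hs
    exact ((h2 _ (hD s hs).1).1.integrableOn).aestronglyMeasurable
  · simp only [hC0]
    exact (h2 C hC).1.integrableOn
  · simp only [hF', hC0]
    exact (((integrable_finsetSum _ fun k _ => integrable_finsetSum _ fun l _ =>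
      ((hint2 k l).const_mul _).integrableOn)).const_mul _).aestronglyMeasurable
  · refine ae_of_all _ fun x s hs => ?_
    obtain ⟨-, g1, g2, g3⟩ := hD s hs
    simp only [hF', Real.norm_eq_abs]
    rw [abs_mul, abs_of_pos (by norm_num : (0 : ℝ) < 1 / 2), mul_assoc]
    refine mul_le_mul_of_nonneg_left ?_ (by norm_num)
    calc |∑ k, ∑ l, A k l * dens2 (C + s • A) k l x|
        ≤ ∑ k, ∑ l, |A k l| * (B * Real.exp (-(c / 2) * ∑ i, x i ^ 2)) := by
          refine (Finset.abs_sum_le_sum_abs _ _).trans (Finset.sum_le_sum fun k _ => ?_)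
          refine (Finset.abs_sum_le_sum_abs _ _).trans (Finset.sum_le_sum fun l _ => ?_)
          rw [abs_mul]
          exact mul_le_mul_of_nonneg_left (dens2_bound hc hM g1 g2 g3 k l x) (abs_nonneg _)
      _ = K * (B * Real.exp (-(c / 2) * ∑ i, x i ^ 2)) := by
          rw [hK, Finset.sum_mul]
          refine Finset.sum_congr rfl fun k _ => ?_
          rw [Finset.sum_mul]
      _ = K * B * Real.exp (-(c / 2) * ∑ i, x i ^ 2) := by rw [hB]; ring
  · exact ((gauss_int (half_pos hc)).const_mul _).integrableOn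
  · refine ae_of_all _ fun x s hs => ?_
    have h4 := h3 (C + s • A) A (hD s hs).1 hA x
    have h5 : HasDerivAt (fun t : ℝ => dens (C + s • A + (t - s) • A) x)
        (1 / 2 * ∑ k, ∑ l, A k l * dens2 (C + s • A) k l x) s := by
      have h6 : HasDerivAt (fun u : ℝ => dens (C + s • A + u • A) x)
        (1 / 2 * ∑ k, ∑ l, A k l * dens2 (C + s • A) k l x) (s - s) := by
        rw [sub_self]
        exact h4
      exact h6.comp_sub_const s s
    refine h5.congr_of_eventuallyEq (Eventually.of_forall fun t => ?_)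
    have h6 : C + s • A + (t - s) • A = C + t • A := by
      rw [add_assoc, ← add_smul, add_sub_cancel]
    simp only [h6]

end Pool.Agent.H604R2.SW
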