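import Pool.Agent.H604R2.SW.Props

set_option autoImplicit false

namespace Pool.Agent.H604R2.SW

open MeasureTheory Matrix Finset Filter Topology Set ProbabilityTheory
open scoped BigOperators

theorem plpt_det {ι : Type} [Fintype ι] [DecidableEq ι] (C A : Matrix ι ι ℝ) (hC : IsUnit C.det) :
    HasDerivAt (fun s : ℝ => (C + s • A).det) (C.det * (C⁻¹ * A).trace) 0 := by
  have h1 : ∀ s : ℝ, (C + s • A).det = C.det * (1 + s • (C⁻¹ * A)).det := by
    intro s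
    rw [← Matrix.det_mul, Matrix.mul_add, Matrix.mul_one, Matrix.mul_smul, ← Matrix.mul_assoc,
      Matrix.mul_nonsing_inv _ hC, Matrix.one_mul]
  have h2 : (fun s : ℝ => (C + s • A).det) = fun s : ℝ => C.det * (1 + (C⁻¹ * A).trace * s +
      (Matrix.det (1 + (Polynomial.X : Polynomial ℝ) • (C⁻¹ * A).map Polynomial.C)).divX.divX.eval s
        * s ^ 2) := by
    funext s
    rw [h1, Matrix.det_one_add_smul]
  rw [h2]
  set P : Polynomial ℝ :=
    (Matrix.det (1 + (Polynomial.X : Polynomial ℝ) • (C⁻¹ * A).map Polynomial.C)).divX.divX with hP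
  have h3 : HasDerivAt (fun s : ℝ => P.eval s * s ^ 2)
      (P.derivative.eval 0 * (0:ℝ) ^ 2 + P.eval 0 * (((2 : ℕ) : ℝ) * (0:ℝ) ^ (2 - 1))) 0 :=
    (P.hasDerivAt 0).mul (hasDerivAt_pow 2 (0:ℝ))
  have h4 : HasDerivAt (fun s : ℝ => (C⁻¹ * A).trace * s) ((C⁻¹ * A).trace * 1) 0 :=
    (hasDerivAt_id (0:ℝ)).const_mul _
  have h5 := (((hasDerivAt_const (0:ℝ) (1:ℝ)).add h4).add h3).const_mul C.det
  refine h5.congr_deriv ?_
  simp

theorem plpt_inv {ι : Type} [Fintype ι] [DecidableEq ι] (C A : Matrix ι ι ℝ) (hC : IsUnit C.det)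
    (x : ι → ℝ) :
    HasDerivAt (fun s : ℝ => x ⬝ᵥ ((C + s • A)⁻¹ *ᵥ x)) (-(x ⬝ᵥ ((C⁻¹ * A * C⁻¹) *ᵥ x))) 0 := by
  have hdet0 : C.det ≠ 0 := hC.ne_zero
  -- continuity of the inverse
  have hcinv : ContinuousAt (fun s : ℝ => (C + s • A)⁻¹) 0 := by
    have h1 : ContinuousAt (Inv.inv : Matrix ι ι ℝ → Matrix ι ι ℝ) (C + (0:ℝ) • A) := by
      apply continuousAt_matrix_inv
      rw [Ring.inverse_eq_inv']
      apply continuousAt_inv₀
      simpa using hdet0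
    have h2 : Continuous (fun s : ℝ => C + s • A) := by fun_prop
    exact ContinuousAt.comp (f := fun s : ℝ => C + s • A) (x := (0:ℝ)) h1 h2.continuousAt
  have hcdet : Continuous (fun s : ℝ => (C + s • A).det) := by
    apply Continuous.matrix_det
    fun_prop
  have hev : ∀ᶠ s in 𝓝 (0:ℝ), (C + s • A).det ≠ 0 := by
    apply hcdet.continuousAt.eventually_ne
    simpa using hdet0
  rw [hasDerivAt_iff_tendsto_slope]
  have hlim : Tendsto (fun s : ℝ => -(x ⬝ᵥ (((C + s • A)⁻¹ * A * C⁻¹) *ᵥ x))) (𝓝[≠] (0:ℝ))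
      (𝓝 (-(x ⬝ᵥ ((C⁻¹ * A * C⁻¹) *ᵥ x)))) := by
    have h3 : ContinuousAt (fun s : ℝ => -(x ⬝ᵥ (((C + s • A)⁻¹ * A * C⁻¹) *ᵥ x))) 0 := by
      have h4 : Continuous (fun M : Matrix ι ι ℝ => -(x ⬝ᵥ ((M * A * C⁻¹) *ᵥ x))) := by
        apply Continuous.neg
        apply Continuous.dotProduct continuous_const
        apply Continuous.matrix_mulVec _ continuous_const
        exact (continuous_id.matrix_mul continuous_const).matrix_mul continuous_const
      exact ContinuousAt.comp (f := fun s : ℝ => (C + s • A)⁻¹) (x := (0:ℝ)) h4.continuousAt hcinv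
    have h5 := h3.tendsto
    simp only [zero_smul, add_zero] at h5
    exact h5.mono_left nhdsWithin_le_nhds
  refine hlim.congr' ?_
  have hne : ∀ᶠ s in 𝓝[≠] (0:ℝ), s ≠ 0 := eventually_mem_nhdsWithin
  filter_upwards [hne, hev.filter_mono nhdsWithin_le_nhds] with s hs hds
  have hu : IsUnit (C + s • A).det := isUnit_iff_ne_zero.mpr hds
  have hres : (C + s • A)⁻¹ - C⁻¹ = -(s • ((C + s • A)⁻¹ * A * C⁻¹)) := by
    have e1 : (C + s • A)⁻¹ * (C + s • A) * C⁻¹ = C⁻¹ := by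
      rw [Matrix.nonsing_inv_mul _ hu, Matrix.one_mul]
    have e2 : (C + s • A)⁻¹ * (C + s • A) * C⁻¹ =
        (C + s • A)⁻¹ + s • ((C + s • A)⁻¹ * A * C⁻¹) := by
      rw [Matrix.mul_add, Matrix.add_mul, Matrix.mul_assoc, Matrix.mul_nonsing_inv _ hC,
        Matrix.mul_one, Matrix.mul_smul, Matrix.smul_mul]
    have e3 := e2.symm.trans e1
    rw [eq_neg_iff_add_eq_zero, sub_add_eq_add_sub, e3, sub_self]
  simp only [slope_def_field, zero_smul, add_zero, sub_zero]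
  have e4 : x ⬝ᵥ (C + s • A)⁻¹ *ᵥ x - x ⬝ᵥ C⁻¹ *ᵥ x =
      x ⬝ᵥ (((C + s • A)⁻¹ - C⁻¹) *ᵥ x) := by
    rw [Matrix.sub_mulVec, dotProduct_sub]
  rw [e4, hres, Matrix.neg_mulVec, dotProduct_neg, Matrix.smul_mulVec, dotProduct_smul, smul_eq_mul]
  field_simp

theorem plpt : St_plpt := by
  intro ι _ _ C A hC hA x
  have hdetpos : 0 < C.det := hC.det_pos
  have hu : IsUnit C.det := isUnit_iff_ne_zero.mpr hdetpos.ne'
  have hK : 0 < (2 * Real.pi) ^ (Fintype.card ι) := pow_pos (by positivity) _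
  set K : ℝ := (2 * Real.pi) ^ (Fintype.card ι) with hKdef
  have hD := plpt_det C A hu
  have hq := plpt_inv C A hu x
  have hKD : 0 < K * C.det := mul_pos hK hdetpos
  have h1 : HasDerivAt (fun s : ℝ => K * (C + s • A).det) (K * (C.det * (C⁻¹ * A).trace)) 0 :=
    hD.const_mul K
  have h1ne : K * (C + (0:ℝ) • A).det ≠ 0 := by
    simpa using hKD.ne'
  have h2 := h1.sqrt h1ne
  have h2ne : Real.sqrt (K * (C + (0:ℝ) • A).det) ≠ 0 := by
    have : 0 < K * (C + (0:ℝ) • A).det := by simpa using hKD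
    exact (Real.sqrt_pos.mpr this).ne'
  have h3 := h2.inv h2ne
  have h4 := ((hq.neg).div_const 2).exp
  have h5 := h3.mul h4
  have hAsym : ∀ k l, A k l = A l k := fun k l => by
    have := hA.apply k l
    simpa using this.symm
  have hCi : (C⁻¹).IsHermitian := hC.isHermitian.inv
  have hCisym : (C⁻¹)ᵀ = C⁻¹ := by
    have := hCi
    rw [Matrix.IsHermitian, Matrix.conjTranspose_eq_transpose_of_trivial] at this
    exact this
  have htr : (C⁻¹ * A).trace = ∑ k, ∑ l, A k l * C⁻¹ k l := by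
    simp only [Matrix.trace, Matrix.diag_apply, Matrix.mul_apply]
    refine Finset.sum_congr rfl fun k _ => Finset.sum_congr rfl fun l _ => ?_
    rw [hAsym l k]; ring
  have hquad : x ⬝ᵥ ((C⁻¹ * A * C⁻¹) *ᵥ x) = ∑ k, ∑ l, A k l * ((C⁻¹ *ᵥ x) k * (C⁻¹ *ᵥ x) l) := by
    have e1 : (C⁻¹ * A * C⁻¹) *ᵥ x = C⁻¹ *ᵥ (A *ᵥ (C⁻¹ *ᵥ x)) := by
      rw [Matrix.mulVec_mulVec, Matrix.mulVec_mulVec, Matrix.mul_assoc]
    have e2 : x ᵥ* C⁻¹ = C⁻¹ *ᵥ x := by
      rw [← Matrix.mulVec_transpose, hCisym]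
    rw [e1, Matrix.dotProduct_mulVec, e2]
    set y := C⁻¹ *ᵥ x with hy
    simp only [dotProduct, Matrix.mulVec]
    refine Finset.sum_congr rfl fun k _ => ?_
    rw [Finset.mul_sum]
    refine Finset.sum_congr rfl fun l _ => ?_
    ring
  refine h5.congr_deriv ?_
  simp only [Pi.neg_apply, Pi.inv_apply, zero_smul, add_zero]
  have hsq : Real.sqrt (K * C.det) ^ 2 = K * C.det := Real.sq_sqrt hKD.le
  have hsne : Real.sqrt (K * C.det) ≠ 0 := (Real.sqrt_pos.mpr hKD).ne'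
  have hrhs : (1 / 2 : ℝ) * ∑ k, ∑ l, A k l * dens2 C k l x =
      1 / 2 * (x ⬝ᵥ ((C⁻¹ * A * C⁻¹) *ᵥ x) - (C⁻¹ * A).trace) * dens C x := by
    rw [hquad, htr, mul_assoc, ← Finset.sum_sub_distrib, Finset.sum_mul]
    congr 1
    refine Finset.sum_congr rfl fun k _ => ?_
    rw [← Finset.sum_sub_distrib, Finset.sum_mul]
    refine Finset.sum_congr rfl fun l _ => ?_
    simp only [dens2]
    ring
  rw [hrhs]
  simp only [dens, ← hKdef]
  set T := (C⁻¹ * A).trace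
  set Q := x ⬝ᵥ ((C⁻¹ * A * C⁻¹) *ᵥ x)
  set E := Real.exp (-(x ⬝ᵥ C⁻¹ *ᵥ x) / 2) with hE
  have e6 : -(K * (C.det * T) / (2 * Real.sqrt (K * C.det))) / Real.sqrt (K * C.det) ^ 2 =
      -(1/2) * T * (Real.sqrt (K * C.det))⁻¹ := by
    rw [hsq]
    field_simp
  rw [e6]
  ring

end Pool.Agent.H604R2.SW
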