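import Pool.Agent.H604R2.SW.Props

set_option autoImplicit false

namespace Pool.Agent.H604R2.SW

open MeasureTheory Matrix Finset Filter Topology Set ProbabilityTheory
open scoped BigOperators

namespace Trefl

theorem sym {ι : Type} [Fintype ι] {C : Matrix ι ι ℝ} (hC : C.PosDef) (i j : ι) :
    C i j = C j i := by
  have := hC.1.apply i j
  simpa using this.symm

theorem quad {ι : Type} [Fintype ι] [DecidableEq ι] {C : Matrix ι ι ℝ} (hC : C.PosDef)
    (v u : ι → ℝ) (c : ℝ) :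
    (v + c • (C *ᵥ u)) ⬝ᵥ (C⁻¹ *ᵥ (v + c • (C *ᵥ u))) =
      v ⬝ᵥ (C⁻¹ *ᵥ v) + 2 * c * (v ⬝ᵥ u) + c ^ 2 * (u ⬝ᵥ (C *ᵥ u)) := by
  have hdet : IsUnit C.det := (Matrix.isUnit_iff_isUnit_det C).1 hC.isUnit
  have h1 : C⁻¹ *ᵥ (C *ᵥ u) = u := by
    rw [Matrix.mulVec_mulVec, Matrix.nonsing_inv_mul C hdet, Matrix.one_mulVec]
  have hT : Cᵀ = C := by
    ext i j
    rw [Matrix.transpose_apply]
    exact sym hC j i
  have h2 : (C *ᵥ u) ⬝ᵥ (C⁻¹ *ᵥ v) = v ⬝ᵥ u := by
    have : C *ᵥ u = u ᵥ* C := by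
      rw [← Matrix.mulVec_transpose, hT]
    rw [this, ← Matrix.dotProduct_mulVec, Matrix.mulVec_mulVec, Matrix.mul_nonsing_inv C hdet,
      Matrix.one_mulVec, dotProduct_comm]
  rw [Matrix.mulVec_add, Matrix.mulVec_smul, h1, add_dotProduct, dotProduct_add, dotProduct_add,
    smul_dotProduct, smul_dotProduct, dotProduct_smul, dotProduct_smul, h2,
    dotProduct_comm (C *ᵥ u) u]
  simp only [smul_eq_mul]
  ring

end Trefl

theorem refl_ : St_refl := by
  intro n C hC h00 s y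
  have hs := @Trefl.sym _ _ C hC
  set D : ℝ := C 0 0 - C 0 1 with hD
  let u : Fin (n + 2) → ℝ := Pi.single 0 1 - Pi.single 1 1
  have h01 : (0 : Fin (n + 2)) ≠ 1 := by
    intro h; exact absurd (congrArg Fin.val h) (by simp)
  have hCu : ∀ i, (C *ᵥ u) i = C i 0 - C i 1 := by
    intro i
    show (C *ᵥ (Pi.single 0 1 - Pi.single 1 1)) i = _
    rw [Matrix.mulVec_sub]
    simp
  have hu : ∀ x : Fin (n + 2) → ℝ, u ⬝ᵥ x = x 0 - x 1 := by
    intro x
    show (Pi.single 0 1 - Pi.single 1 1) ⬝ᵥ x = _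
    rw [sub_dotProduct]
    simp
  have hq : u ⬝ᵥ (C *ᵥ u) = 2 * D := by
    rw [hu, hCu, hCu, hs 1 0, ← h00, hD]
    ring
  have hu0 : u ≠ 0 := by
    intro h
    have := congrFun h 0
    simp [u, h01] at this
  have hDpos : 0 < D := by
    have := hC.dotProduct_mulVec_pos hu0
    rw [star_trivial, hq] at this
    linarith
  have hvw : vec 0 (-s) (fun j => y j + s * kap C j) =
      vec (-s) 0 y + (s / D) • (C *ᵥ u) := by
    funext i
    rw [Pi.add_apply, Pi.smul_apply, hCu, smul_eq_mul]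
    refine Fin.cases ?_ (fun i => Fin.cases ?_ (fun j => ?_) i) i
    · simp only [vec, Matrix.cons_val_zero]
      rw [← hD]
      field_simp
      ring
    · simp only [vec]
      have e1 : (Fin.succ (0 : Fin (n + 1))) = (1 : Fin (n + 2)) := rfl
      rw [e1, hs 1 0, ← h00]
      simp only [Matrix.cons_val_one, Matrix.cons_val_zero]
      have : C 0 1 - C 0 0 = - D := by rw [hD]; ring
      rw [this]
      field_simp
      ring
    · simp only [vec, Matrix.cons_val_succ]
      rw [hs j.succ.succ 0, hs j.succ.succ 1]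
      unfold kap
      rw [← hD]
      field_simp
  unfold dens
  congr 2
  rw [hvw, Trefl.quad hC, hq, dotProduct_comm, dotProduct_comm (vec (-s) 0 y) u, hu]
  have e0 : vec (-s) 0 y 0 = -s := by simp [vec]
  have e1 : vec (-s) 0 y 1 = 0 := by simp [vec]
  rw [e0, e1, dotProduct_comm]
  field_simp
  ring

end Pool.Agent.H604R2.SW
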