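import Pool.Agent.H604R2.SW.Props

set_option autoImplicit false

namespace Pool.Agent.H604R2.SW

open MeasureTheory Matrix Finset Filter Topology Set ProbabilityTheory
open scoped BigOperators

section
variable {ι : Type} [Fintype ι] [DecidableEq ι]

theorem relabel_mulVec (C : Matrix ι ι ℝ) (σ : Equiv.Perm ι) (x : ι → ℝ) (i : ι) :
    ((C.submatrix σ σ)⁻¹ *ᵥ (fun i => x (σ i))) i = (C⁻¹ *ᵥ x) (σ i) := by
  rw [Matrix.inv_submatrix_equiv]
  simp only [Matrix.mulVec, dotProduct, Matrix.submatrix_apply]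
  exact Equiv.sum_comp σ (fun j => C⁻¹ (σ i) j * x j)

theorem relabel_dens (C : Matrix ι ι ℝ) (σ : Equiv.Perm ι) (x : ι → ℝ) :
    dens (C.submatrix σ σ) (fun i => x (σ i)) = dens C x := by
  unfold dens
  rw [Matrix.det_submatrix_equiv_self]
  congr 4
  simp only [dotProduct]
  rw [← Equiv.sum_comp σ (fun i => x i * (C⁻¹ *ᵥ x) i)]
  apply Finset.sum_congr rfl
  intro i _
  rw [relabel_mulVec]

theorem relabel_dens2 (C : Matrix ι ι ℝ) (σ : Equiv.Perm ι) (k l : ι) (x : ι → ℝ) :
    dens2 (C.submatrix σ σ) k l (fun i => x (σ i)) = dens2 C (σ k) (σ l) x := by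
  unfold dens2
  rw [relabel_dens, relabel_mulVec, relabel_mulVec, Matrix.inv_submatrix_equiv]
  rfl

theorem relabel_int (σ : Equiv.Perm ι) (f : (ι → ℝ) → ℝ) :
    ∫ x in Neg ι, f x = ∫ x in Neg ι, f (fun i => x (σ i)) := by
  have hmp := MeasureTheory.volume_measurePreserving_piCongrLeft (fun _ : ι => ℝ) σ.symm
  have happ : ∀ x : ι → ℝ, (MeasurableEquiv.piCongrLeft (fun _ : ι => ℝ) σ.symm) x =
      fun i => x (σ i) := by
    intro x
    funext i
    have := Equiv.piCongrLeft_apply_apply (fun _ : ι => ℝ) σ.symm x (σ i)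
    rw [Equiv.symm_apply_apply] at this
    exact this
  have h := hmp.setIntegral_preimage_emb (MeasurableEquiv.measurableEmbedding _) f (Neg ι)
  rw [← h]
  have hpre : (MeasurableEquiv.piCongrLeft (fun _ : ι => ℝ) σ.symm) ⁻¹' (Neg ι) = Neg ι := by
    ext x
    rw [Set.mem_preimage, happ]
    constructor
    · intro hx i
      have := hx (σ.symm i)
      simpa using this
    · intro hx i
      exact hx (σ i)
  rw [hpre]
  simp only [happ]

end

theorem relabel : St_relabel := by
  intro ι _ _ C σ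
  refine ⟨relabel_dens C σ, ?_, ?_⟩
  · unfold orth
    rw [relabel_int σ]
    simp only [relabel_dens]
  · intro k l
    unfold tie
    rw [relabel_int σ]
    simp only [relabel_dens2]

end Pool.Agent.H604R2.SW
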