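import Pool.Agent.H604R2.SW.Props

set_option autoImplicit false

namespace Pool.Agent.H604R2.SW

open MeasureTheory Matrix Finset Filter Topology Set ProbabilityTheory
open scoped BigOperators Pointwise

theorem smul_dens {ι : Type} [Fintype ι] [DecidableEq ι] (C : Matrix ι ι ℝ) (r : ℝ)
    (hC : C.PosDef) (hr : 0 < r) (x : ι → ℝ) :
    dens ((r ^ 2) • C) (r • x) = (r ^ (Fintype.card ι))⁻¹ * dens C x := by
  have hdet : 0 < C.det := hC.det_pos
  have hu : IsUnit C.det := hdet.ne'.isUnit
  have hr2 : (r ^ 2) ≠ 0 := by positivity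
  have hinv : ((r ^ 2) • C)⁻¹ = (r ^ 2)⁻¹ • C⁻¹ := by
    have := Matrix.inv_smul' C (Units.mk0 (r ^ 2) hr2) hu
    simpa [Units.smul_def] using this
  unfold dens
  rw [hinv, Matrix.det_smul]
  have e1 : (2 * Real.pi) ^ Fintype.card ι * ((r ^ 2) ^ Fintype.card ι * C.det) =
      (r ^ Fintype.card ι) ^ 2 * ((2 * Real.pi) ^ Fintype.card ι * C.det) := by ring
  rw [e1, Real.sqrt_mul (by positivity), Real.sqrt_sq (by positivity), mul_inv, mul_assoc]
  congr 3
  rw [Matrix.mulVec_smul, Matrix.smul_mulVec, dotProduct_smul, dotProduct_smul, smul_dotProduct]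
  simp only [smul_eq_mul]
  field_simp

theorem smul_ : St_smul := by
  intro ι _ _ C c hC hc
  set r : ℝ := Real.sqrt c with hr
  have hr0 : 0 < r := Real.sqrt_pos.mpr hc
  have hrc : r ^ 2 = c := Real.sq_sqrt hc.le
  rw [← hrc]
  unfold orth
  have h := Measure.setIntegral_comp_smul_of_pos (volume : Measure (ι → ℝ))
    (fun x => dens ((r ^ 2) • C) x) (Neg ι) hr0
  have hs : r • (Neg ι) = Neg ι := by
    ext x
    rw [Set.mem_smul_set_iff_inv_smul_mem₀ hr0.ne']
    constructor
    · intro hx i
      have := hx i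
      simp only [Pi.smul_apply, smul_eq_mul] at this
      have hri : 0 < r⁻¹ := inv_pos.mpr hr0
      by_contra hpos
      push Not at hpos
      have := mul_pos hri hpos
      linarith
    · intro hx i
      simp only [Pi.smul_apply, smul_eq_mul]
      exact mul_nonpos_of_nonneg_of_nonpos (inv_pos.mpr hr0).le (hx i)
  rw [hs] at h
  simp only [smul_dens C r hC hr0] at h
  rw [integral_const_mul] at h
  rw [Module.finrank_fintype_fun_eq_card, smul_eq_mul] at h
  have hp : (r ^ Fintype.card ι)⁻¹ ≠ 0 := by positivity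
  exact (mul_left_cancel₀ hp h).symm

end Pool.Agent.H604R2.SW
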