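import Pool.Agent.H604R2.SW.Props

set_option autoImplicit false

namespace Pool.Agent.H604R2.SW

open MeasureTheory Matrix Finset Filter Topology Set ProbabilityTheory
open scoped BigOperators

namespace SphAux

section

variable {E : Type} [NormedAddCommGroup E] [InnerProductSpace ℝ E]

lemma inner_self_one {x : E} (h : ‖x‖ = 1) : inner ℝ x x = (1 : ℝ) := by
  rw [real_inner_self_eq_norm_sq, h]; norm_num

/-- the reduced vector -/
noncomputable def xx (r : ℝ) (c n : E) : E := (Real.cos r)⁻¹ • (n - Real.sin r • c)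

lemma inner_xx {r : ℝ} (hr : 0 < Real.cos r) {c n m : E} (hc : ‖c‖ = 1)
    (hn : inner ℝ n c = Real.sin r) (hm : inner ℝ m c = Real.sin r) :
    Real.cos r ^ 2 * inner ℝ (xx r c n) (xx r c m) + Real.sin r ^ 2 = inner ℝ n m := by
  have hc' := inner_self_one hc
  have hm' : inner ℝ c m = Real.sin r := by rw [real_inner_comm]; exact hm
  unfold xx
  rw [inner_smul_left, inner_smul_right, inner_sub_left, inner_sub_right, inner_sub_right,
    inner_smul_left, inner_smul_right, inner_smul_left, inner_smul_right, hc', hn, hm']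
  simp only [conj_trivial]
  field_simp
  ring

lemma corr_xx {r : ℝ} (hr : 0 < Real.cos r) {N : ℕ} (n : Fin N → E) {c : E} (hc : ‖c‖ = 1)
    (hn1 : ∀ i, ‖n i‖ = 1) (hn : ∀ i, inner ℝ (n i) c = Real.sin r) :
    Corr (gram ℝ fun i => xx r c (n i)) := by
  refine ⟨posSemidef_gram ℝ _, fun i => ?_⟩
  rw [gram_apply]
  have h1 := inner_xx hr hc (hn i) (hn i)
  rw [inner_self_one (hn1 i)] at h1
  have h2 := Real.sin_sq_add_cos_sq r
  have h3 : Real.cos r ^ 2 * (inner ℝ (xx r c (n i)) (xx r c (n i)) - 1) = 0 := by linarith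
  have h4 : Real.cos r ^ 2 ≠ 0 := by positivity
  have := (mul_eq_zero.1 h3).resolve_left h4
  linarith

lemma gram_eq {r : ℝ} (hr : 0 < Real.cos r) {N : ℕ} (n : Fin N → E) {c : E} (hc : ‖c‖ = 1)
    (hn : ∀ i, inner ℝ (n i) c = Real.sin r) :
    Real.cos r ^ 2 • (gram ℝ fun i => xx r c (n i)) + Matrix.of (fun _ _ => Real.sin r ^ 2) =
      gram ℝ n := by
  ext i j
  rw [Matrix.add_apply, Matrix.smul_apply, gram_apply, gram_apply, Matrix.of_apply, smul_eq_mul]
  exact inner_xx hr hc (hn i) (hn j)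

end

/-- the regular configuration -/
lemma gram_reg {d' : ℕ} {r : ℝ} (hr0 : 0 < Real.sin r) (hr : 0 < Real.cos r)
    (m : Fin (d' + 2) → EuclideanSpace ℝ (Fin (d' + 2))) (c : EuclideanSpace ℝ (Fin (d' + 2)))
    (hc : ‖c‖ = 1) (hm1 : ∀ i, ‖m i‖ = 1) (hm : ∀ i, inner ℝ (m i) c = Real.sin r)
    (hli : LinearIndependent ℝ m)
    (hreg : ∀ i j k l, i ≠ j → k ≠ l → inner ℝ (m i) (m j) = inner ℝ (m k) (m l)) :
    Real.cos r ^ 2 • (R0 (Fin (d' + 2))) + Matrix.of (fun _ _ => Real.sin r ^ 2) = gram ℝ m := by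
  have hspan : Submodule.span ℝ (Set.range m) = ⊤ := by
    apply hli.span_eq_top_of_card_eq_finrank'
    simp
  have hcm : c ∈ Submodule.span ℝ (Set.range m) := by rw [hspan]; trivial
  rw [Submodule.mem_span_range_iff_exists_fun] at hcm
  obtain ⟨μ, hμ⟩ := hcm
  set s := Real.sin r with hs
  set t : ℝ := inner ℝ (m 0) (m 1) with ht
  have h01 : (0 : Fin (d' + 2)) ≠ 1 := by
    intro h
    have := congrArg Fin.val h
    simp at this
  have hoff : ∀ i j, i ≠ j → inner ℝ (m i) (m j) = t := fun i j h => hreg i j 0 1 h h01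
  have ht1 : t ≠ 1 := by
    intro h
    have h2 : m 0 = m 1 := by
      rw [← inner_eq_one_iff_of_norm_eq_one (𝕜 := ℝ) (hm1 0) (hm1 1)]
      exact h
    exact h01 (hli.injective h2)
  -- inner products of `m j` with the representation of c
  have h1 : ∀ j, (1 - t) * μ j + t * ∑ i, μ i = s := by
    intro j
    have h2 : inner ℝ (m j) c = s := hm j
    rw [← hμ, inner_sum] at h2
    simp only [inner_smul_right] at h2
    rw [← Finset.add_sum_erase _ _ (Finset.mem_univ j), inner_self_one (hm1 j)] at h2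
    have h3 : ∑ i ∈ univ.erase j, μ i * inner ℝ (m j) (m i) = ∑ i ∈ univ.erase j, μ i * t := by
      apply Finset.sum_congr rfl
      intro i hi
      rw [hoff j i (Finset.ne_of_mem_erase hi).symm]
    rw [h3, ← Finset.sum_mul] at h2
    rw [← Finset.add_sum_erase _ _ (Finset.mem_univ j)]
    linarith
  have h2 : ∀ j, μ j = μ 0 := by
    intro j
    have h3 : (1 - t) * (μ j - μ 0) = 0 := by linarith [h1 j, h1 0]
    have := (mul_eq_zero.1 h3).resolve_left (by intro h; apply ht1; linarith)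
    linarith
  have h3 : ∑ i, μ i = (d' + 2) * μ 0 := by
    rw [Finset.sum_congr rfl (fun i _ => h2 i), Finset.sum_const, Finset.card_univ,
      Fintype.card_fin, nsmul_eq_mul]
    push_cast
    ring
  have h4 : s * ∑ i, μ i = 1 := by
    have h5 : inner ℝ c c = (1 : ℝ) := inner_self_one hc
    have h6 : inner ℝ (∑ i, μ i • m i) c = ∑ i, μ i * s := by
      rw [sum_inner]
      apply Finset.sum_congr rfl
      intro i _
      rw [inner_smul_left, hm i]
      simp only [conj_trivial]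
    rw [hμ, h5, ← Finset.sum_mul] at h6
    linarith
  have hd : (0 : ℝ) < (d' : ℝ) + 1 := by positivity
  have hsc := Real.sin_sq_add_cos_sq r
  -- value of t
  have h5 : t * ((d' : ℝ) + 1) = (d' + 2) * s ^ 2 - 1 := by
    have h6 := h1 0
    rw [h3] at h4 h6
    have h7 : s * ((1 - t) * μ 0 + t * (((d' : ℝ) + 2) * μ 0)) = s * s := by rw [h6]
    have h8 : s * μ 0 * ((d' : ℝ) + 2) = 1 := by linarith
    have h9 : ((d' : ℝ) + 2) * (s * ((1 - t) * μ 0 + t * (((d' : ℝ) + 2) * μ 0))) =
        ((d' : ℝ) + 2) * (s * s) := by rw [h7]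
    have h10 : ((d' : ℝ) + 2) * (s * ((1 - t) * μ 0 + t * (((d' : ℝ) + 2) * μ 0))) =
        (s * μ 0 * ((d' : ℝ) + 2)) * ((1 - t) + t * ((d' : ℝ) + 2)) := by ring
    rw [h10, h8] at h9
    linarith
  ext i j
  rw [Matrix.add_apply, Matrix.smul_apply, gram_apply, Matrix.of_apply, smul_eq_mul]
  unfold R0
  rw [Matrix.of_apply]
  by_cases hij : i = j
  · subst hij
    rw [if_pos rfl, inner_self_one (hm1 i)]
    linarith
  · rw [if_neg hij, hoff i j hij, Fintype.card_fin]
    push_cast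
    have e : (d' : ℝ) + 2 - 1 = d' + 1 := by ring
    rw [e]
    have h6 : t = ((d' + 2) * s ^ 2 - 1) / ((d' : ℝ) + 1) := by
      rw [eq_div_iff hd.ne']; exact h5
    rw [h6]
    have h7 : Real.cos r ^ 2 = 1 - s ^ 2 := by linarith
    rw [h7]
    field_simp
    ring

end SphAux

open SphAux in
theorem sph (h1 : St_end) (h2 : St_law) (h3 : St_haus) : St_sph := by
  intro d hd r hr0 hr1 c n m hc hn1 hm1 hn hm hnli hmli hreg
  obtain ⟨d', rfl⟩ : ∃ d', d = d' + 1 := ⟨d - 1, by omega⟩
  have hs : 0 < Real.sin r := Real.sin_pos_of_pos_of_lt_pi hr0 (by linarith [Real.pi_pos])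
  have hcr : 0 < Real.cos r := Real.cos_pos_of_mem_Ioo ⟨by linarith [Real.pi_pos], hr1⟩
  obtain ⟨K, hK⟩ := h3 (d' + 1)
  have hGn := gram_eq hcr n hc hn
  have hGm := gram_reg hs hcr m c hc hm1 hm hmli hreg
  have hPn : (gram ℝ n).PosDef := posDef_gram_of_linearIndependent hnli
  have hPm : (gram ℝ m).PosDef := posDef_gram_of_linearIndependent hmli
  have hend := h1 d' (Real.sin r ^ 2) (Real.cos r ^ 2) (gram ℝ fun i => xx r c (n i))
    (by positivity) (by positivity) (corr_xx hcr n hc hn1 hn) (by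
      have := hPn
      rw [← hGn] at this
      exact this)
  have hGn' : Real.cos r ^ 2 • (gram ℝ fun i => xx r c (n i)) +
      Matrix.of (fun _ _ => Real.sin r ^ 2) = gram ℝ n := hGn
  rw [hGn', hGm] at hend
  -- laws
  have key : ∀ v : Fin (d' + 2) → EuclideanSpace ℝ (Fin (d' + 2)), (gram ℝ v).PosDef →
      orth (gram ℝ v) = ((stdGaussian (EuclideanSpace ℝ (Fin (d' + 2))))
        {z | ∀ i, 0 ≤ inner ℝ (v i) z}).toReal := by
    intro v hv
    have h4 := h2 (fun i => - v i) (gram ℝ v) hv (by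
      intro i j
      rw [inner_neg_neg, gram_apply])
    rw [h4]
    have e : {z : EuclideanSpace ℝ (Fin (d' + 2)) | ∀ i, inner ℝ (- v i) z ≤ 0} =
        {z | ∀ i, 0 ≤ inner ℝ (v i) z} := by
      ext z
      simp only [Set.mem_ofPred_eq]
      apply forall_congr'
      intro i
      rw [inner_neg_left]
      constructor <;> intro h <;> linarith
    rw [e]
  rw [key n hPn, key m hPm] at hend
  have hle : (stdGaussian (EuclideanSpace ℝ (Fin (d' + 2)))) {z | ∀ i, 0 ≤ inner ℝ (m i) z} ≤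
      (stdGaussian (EuclideanSpace ℝ (Fin (d' + 2)))) {z | ∀ i, 0 ≤ inner ℝ (n i) z} :=
    (ENNReal.toReal_le_toReal (measure_ne_top _ _) (measure_ne_top _ _)).1 hend
  have hH : ∀ v : Fin (d' + 2) → EuclideanSpace ℝ (Fin (d' + 2)),
      Measure.hausdorffMeasure ((d' + 1 : ℕ) : ℝ)
        {x : EuclideanSpace ℝ (Fin (d' + 2)) | ‖x‖ = 1 ∧ ∀ i, 0 ≤ inner ℝ (v i) x} =
      K * stdGaussian (EuclideanSpace ℝ (Fin (d' + 2))) {z | ∀ i, 0 ≤ inner ℝ (v i) z} := by
    intro v
    rw [← hK {z | ∀ i, 0 ≤ inner ℝ (v i) z} ?_ ?_]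
    · congr 1
      ext x
      simp only [Set.mem_ofPred_eq, Set.mem_inter_iff]
      exact and_comm
    · have : {z : EuclideanSpace ℝ (Fin (d' + 1 + 1)) | ∀ i, 0 ≤ inner ℝ (v i) z} =
          ⋂ i, {z | 0 ≤ inner ℝ (v i) z} := by
        ext z
        simp only [Set.mem_ofPred_eq, Set.mem_iInter]
      rw [this]
      refine MeasurableSet.iInter (fun i => ?_)
      exact (isClosed_le continuous_const (by fun_prop)).measurableSet
    · intro q z hq
      simp only [Set.mem_ofPred_eq]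
      apply forall_congr'
      intro i
      rw [inner_smul_right]
      constructor
      · intro h
        exact (mul_nonneg_iff_of_pos_left hq).1 h
      · intro h
        exact mul_nonneg hq.le h
  exact (hH m).le.trans ((mul_le_mul_right hle K).trans (hH n).ge)

end Pool.Agent.H604R2.SW
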