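import Pool.Agent.H604R2.SW.Props

set_option autoImplicit false

namespace Pool.Agent.H604R2.SW

open MeasureTheory Matrix Finset Filter Topology Set ProbabilityTheory
open scoped BigOperators

namespace SphFin

/-- normalisation is Lipschitz outside the unit ball -/
theorem norm_lip {E : Type} [NormedAddCommGroup E] [NormedSpace ℝ E] (y z : E) (hy : 1 ≤ ‖y‖)
    (hz : 1 ≤ ‖z‖) : ‖(‖y‖⁻¹ • y) - (‖z‖⁻¹ • z)‖ ≤ 2 * ‖y - z‖ := by
  have hy0 : 0 < ‖y‖ := by linarith
  have hz0 : 0 < ‖z‖ := by linarith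
  have h1 : (‖y‖⁻¹ • y) - (‖z‖⁻¹ • z) = ‖y‖⁻¹ • (y - z) + (‖y‖⁻¹ - ‖z‖⁻¹) • z := by
    rw [smul_sub, sub_smul]
    abel
  have h2 : ‖‖y‖⁻¹ • (y - z)‖ ≤ ‖y - z‖ := by
    rw [norm_smul, norm_inv, norm_norm]
    have : ‖y‖⁻¹ ≤ 1 := inv_le_one_of_one_le₀ hy
    nlinarith [norm_nonneg (y - z)]
  have h3 : ‖(‖y‖⁻¹ - ‖z‖⁻¹) • z‖ ≤ ‖y - z‖ := by
    rw [norm_smul, Real.norm_eq_abs]
    have h4 : ‖y‖⁻¹ - ‖z‖⁻¹ = (‖z‖ - ‖y‖) / (‖y‖ * ‖z‖) := by
      field_simp
    rw [h4, abs_div, abs_of_pos (mul_pos hy0 hz0)]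
    have h5 : |‖z‖ - ‖y‖| ≤ ‖y - z‖ := by
      rw [abs_sub_comm]
      exact abs_norm_sub_norm_le y z
    have h6 : |‖z‖ - ‖y‖| / (‖y‖ * ‖z‖) * ‖z‖ = |‖z‖ - ‖y‖| / ‖y‖ := by
      field_simp
    rw [h6, div_le_iff₀ hy0]
    nlinarith [norm_nonneg (y - z)]
  rw [h1]
  refine (norm_add_le _ _).trans ?_
  linarith

/-- the face chart, before normalisation -/
noncomputable def ch (d : ℕ) (i : Fin (d + 1)) (s : ℝ) (p : Fin d → ℝ) :
    EuclideanSpace ℝ (Fin (d + 1)) :=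
  WithLp.toLp 2 (Fin.insertNth (α := fun _ => ℝ) i s p)

theorem ch_same (d : ℕ) (i : Fin (d + 1)) (s : ℝ) (p : Fin d → ℝ) : ch d i s p i = s := by
  simp [ch]

theorem ch_succ (d : ℕ) (i : Fin (d + 1)) (s : ℝ) (p : Fin d → ℝ) (j : Fin d) :
    ch d i s p (i.succAbove j) = p j := by
  simp [ch]

theorem ch_norm (d : ℕ) (i : Fin (d + 1)) (s : ℝ) (hs : |s| = 1) (p : Fin d → ℝ) :
    1 ≤ ‖ch d i s p‖ := by
  have h := EuclideanSpace.norm_eq (ch d i s p)
  rw [h]
  rw [Real.one_le_sqrt]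
  calc (1:ℝ) = ‖ch d i s p i‖ ^ 2 := by rw [ch_same, Real.norm_eq_abs, hs]; norm_num
    _ ≤ _ := Finset.single_le_sum (f := fun k => ‖ch d i s p k‖ ^ 2) (fun k _ => by positivity)
        (Finset.mem_univ i)

theorem ch_sub (d : ℕ) (i : Fin (d + 1)) (s : ℝ) (p q : Fin d → ℝ) :
    ‖ch d i s p - ch d i s q‖ ≤ (d + 1) * ‖p - q‖ := by
  rw [EuclideanSpace.norm_eq]
  apply Real.sqrt_le_iff.mpr
  refine ⟨by positivity, ?_⟩
  rw [Fin.sum_univ_succAbove _ i]
  have h1 : (ch d i s p - ch d i s q) i = 0 := by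
    rw [PiLp.sub_apply, ch_same, ch_same, sub_self]
  rw [h1]
  have h2 : ∀ j : Fin d, ‖(ch d i s p - ch d i s q) (i.succAbove j)‖ ^ 2 ≤ ‖p - q‖ ^ 2 := by
    intro j
    rw [PiLp.sub_apply, ch_succ, ch_succ]
    have := norm_le_pi_norm (p - q) j
    rw [Pi.sub_apply] at this
    exact pow_le_pow_left₀ (norm_nonneg _) this 2
  calc ‖(0:ℝ)‖ ^ 2 + ∑ j : Fin d, ‖(ch d i s p - ch d i s q) (i.succAbove j)‖ ^ 2 ≤
      0 + ∑ j : Fin d, ‖p - q‖ ^ 2 := by
        apply add_le_add (by simp)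
        exact Finset.sum_le_sum (fun j _ => h2 j)
    _ = d * ‖p - q‖ ^ 2 := by simp
    _ ≤ ((d + 1) * ‖p - q‖) ^ 2 := by
      have : (0:ℝ) ≤ d := Nat.cast_nonneg d
      rw [mul_pow]
      apply mul_le_mul_of_nonneg_right _ (by positivity)
      nlinarith

/-- the chart -/
noncomputable def Ph (d : ℕ) (i : Fin (d + 1)) (s : ℝ) (p : Fin d → ℝ) :
    EuclideanSpace ℝ (Fin (d + 1)) := ‖ch d i s p‖⁻¹ • ch d i s p

theorem Ph_lip (d : ℕ) (i : Fin (d + 1)) (s : ℝ) (hs : |s| = 1) :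
    LipschitzWith (Real.toNNReal (2 * (d + 1))) (Ph d i s) := by
  apply LipschitzWith.of_dist_le_mul
  intro p q
  rw [dist_eq_norm, dist_eq_norm, Real.coe_toNNReal _ (by positivity)]
  refine (norm_lip _ _ (ch_norm d i s hs p) (ch_norm d i s hs q)).trans ?_
  have := ch_sub d i s p q
  nlinarith

theorem cover (d : ℕ) : {x : EuclideanSpace ℝ (Fin (d + 1)) | ‖x‖ = 1} ⊆
    ⋃ q : Fin (d + 1) × Bool, Ph d q.1 (if q.2 then 1 else -1) ''
      (Set.Icc (fun _ => (-1:ℝ)) (fun _ => (1:ℝ))) := by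
  intro x hx
  have hx1 : ‖x‖ = 1 := hx
  obtain ⟨i, _, hi⟩ := Finset.exists_max_image (Finset.univ : Finset (Fin (d + 1)))
    (fun k => |x k|) ⟨0, Finset.mem_univ _⟩
  have hpos : 0 < |x i| := by
    rcases (abs_nonneg (x i)).lt_or_eq with h | h
    · exact h
    · exfalso
      have h0 : x = 0 := by
        ext k
        have h1 := hi k (Finset.mem_univ k)
        simp only at h1
        rw [← h] at h1
        have : |x k| = 0 := le_antisymm h1 (abs_nonneg _)
        simpa using this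
      rw [h0, norm_zero] at hx1
      exact zero_ne_one hx1
  set p : Fin d → ℝ := fun j => x (i.succAbove j) / |x i| with hp
  set b : Bool := decide (0 < x i) with hb
  have hs : (if b then (1:ℝ) else -1) = x i / |x i| := by
    by_cases h : 0 < x i
    · simp only [hb, h, decide_true, if_true]
      rw [abs_of_pos h, div_self h.ne']
    · have h' : x i < 0 := by
        rcases lt_trichotomy (x i) 0 with h1 | h1 | h1
        · exact h1
        · rw [h1, abs_zero] at hpos; exact absurd hpos (lt_irrefl _)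
        · exact absurd h1 h
      simp only [hb, h, decide_false]
      rw [abs_of_neg h', div_neg, div_self h'.ne]
      simp
  have hch : ch d i (if b then (1:ℝ) else -1) p = |x i|⁻¹ • x := by
    ext k
    rcases Fin.eq_self_or_eq_succAbove i k with h | ⟨j, h⟩
    · rw [h, ch_same, hs, PiLp.smul_apply, smul_eq_mul, div_eq_inv_mul]
    · rw [h, ch_succ, PiLp.smul_apply, smul_eq_mul, ← div_eq_inv_mul]
  rw [Set.mem_iUnion]
  refine ⟨(i, b), p, ?_, ?_⟩
  · rw [Set.mem_Icc]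
    constructor
    · intro j
      simp only [hp]
      rw [le_div_iff₀ hpos]
      have h1 := hi (i.succAbove j) (Finset.mem_univ _)
      simp only at h1
      have h2 := neg_abs_le (x (i.succAbove j))
      linarith
    · intro j
      simp only [hp]
      rw [div_le_iff₀ hpos]
      have h1 := hi (i.succAbove j) (Finset.mem_univ _)
      simp only at h1
      have h2 := le_abs_self (x (i.succAbove j))
      linarith
  · show Ph d i (if b then (1:ℝ) else -1) p = x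
    unfold Ph
    rw [hch, norm_smul, hx1, mul_one, norm_inv, Real.norm_eq_abs, abs_abs, inv_inv, smul_smul,
      mul_inv_cancel₀ hpos.ne', one_smul]

end SphFin

open SphFin in
theorem sphfin : St_sphfin := by
  intro d
  refine (measure_mono (cover d)).trans_lt ?_
  refine (measure_iUnion_fintype_le _ _).trans_lt ?_
  apply ENNReal.sum_lt_top.mpr
  rintro ⟨i, b⟩ _
  have hs : |(if b then (1:ℝ) else -1)| = 1 := by cases b <;> simp
  have h1 := (Ph_lip d i _ hs).hausdorffMeasure_image_le (d := (d:ℝ)) (Nat.cast_nonneg d)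
    (Set.Icc (fun _ => (-1:ℝ)) (fun _ => (1:ℝ)))
  refine h1.trans_lt ?_
  apply ENNReal.mul_lt_top
  · exact ENNReal.rpow_lt_top_of_nonneg (Nat.cast_nonneg d) ENNReal.coe_ne_top
  · have h2 := MeasureTheory.hausdorffMeasure_pi_real (ι := Fin d)
    rw [Fintype.card_fin] at h2
    rw [h2]
    exact isCompact_Icc.measure_lt_top

end Pool.Agent.H604R2.SW
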