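import Pool.Agent.H604R2.SW.Props

set_option autoImplicit false

namespace Pool.Agent.H604R2.SW

open MeasureTheory Matrix Finset Filter Topology Set ProbabilityTheory
open scoped BigOperators

namespace Tie01

theorem exp_bound {N : ℕ} (c : ℝ) (hc : 0 < c) (y : Fin N → ℝ) :
    (∑ i, |y i|) * Real.exp (-c * ∑ i, y i ^ 2) ≤
      (N + 2 / c) * Real.exp (-(c / 2) * ∑ i, y i ^ 2) := by
  set a := ∑ i, y i ^ 2 with ha
  have ha0 : 0 ≤ a := Finset.sum_nonneg fun i _ => sq_nonneg _
  have h1 : ∑ i, |y i| ≤ N + a := by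
    have : ∀ i ∈ (Finset.univ : Finset (Fin N)), |y i| ≤ 1 + y i ^ 2 := by
      intro i _
      have := sq_abs (y i)
      nlinarith [sq_nonneg (|y i| - 1), abs_nonneg (y i)]
    calc ∑ i, |y i| ≤ ∑ i : Fin N, (1 + y i ^ 2) := Finset.sum_le_sum this
      _ = N + a := by
        rw [Finset.sum_add_distrib]; simp [ha]
  have h2 : a ≤ 2 / c * Real.exp (c / 2 * a) := by
    have := Real.add_one_le_exp (c / 2 * a)
    calc a = 2 / c * (c / 2 * a) := by field_simp
      _ ≤ 2 / c * Real.exp (c / 2 * a) := by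
        apply mul_le_mul_of_nonneg_left _ (by positivity)
        linarith
  have h3 : (1 : ℝ) ≤ Real.exp (c / 2 * a) := Real.one_le_exp (by positivity)
  have h4 : ∑ i, |y i| ≤ (N + 2 / c) * Real.exp (c / 2 * a) := by
    have hN : (0 : ℝ) ≤ N := Nat.cast_nonneg _
    nlinarith
  calc (∑ i, |y i|) * Real.exp (-c * a)
      ≤ ((N + 2 / c) * Real.exp (c / 2 * a)) * Real.exp (-c * a) :=
        mul_le_mul_of_nonneg_right h4 (Real.exp_pos _).le
    _ = (N + 2 / c) * Real.exp (-(c / 2) * a) := by
        rw [mul_assoc, ← Real.exp_add]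
        congr 2
        ring

theorem int_exp {N : ℕ} (c : ℝ) (hc : 0 < c) :
    Integrable (fun y : Fin N → ℝ => Real.exp (-c * ∑ i, y i ^ 2)) := by
  have h : (fun y : Fin N → ℝ => Real.exp (-c * ∑ i, y i ^ 2)) =
      fun y : Fin N → ℝ => ∏ i, Real.exp (-c * y i ^ 2) := by
    funext y
    rw [← Real.exp_sum, Finset.mul_sum]
  rw [h]
  exact Integrable.fintype_prod (f := fun (_ : Fin N) (x : ℝ) => Real.exp (-c * x ^ 2))
    (fun i => integrable_exp_neg_mul_sq hc)

/-- bound for `dens1` -/
theorem dens1_bd {N : ℕ} (C : Matrix (Fin N) (Fin N) ℝ) {c M : ℝ} (hc : 0 < c) (hM : 0 < M)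
    (hd : ∀ x, dens C x ≤ M * Real.exp (-c * ∑ i, x i ^ 2))
    (hl : ∀ k x, |(C⁻¹ *ᵥ x) k| ≤ M * ∑ i, |x i|) (k : Fin N) (x : Fin N → ℝ) :
    ‖dens1 C k x‖ ≤ M * M * ((N + 2 / c) * Real.exp (-(c / 2) * ∑ i, x i ^ 2)) := by
  have hdn : 0 ≤ dens C x := by
    unfold dens
    positivity
  have hs : 0 ≤ ∑ i, |x i| := Finset.sum_nonneg fun i _ => abs_nonneg _
  unfold dens1
  rw [norm_mul, norm_neg, Real.norm_eq_abs, Real.norm_eq_abs, abs_of_nonneg hdn]
  calc |(C⁻¹ *ᵥ x) k| * dens C x
      ≤ (M * ∑ i, |x i|) * (M * Real.exp (-c * ∑ i, x i ^ 2)) :=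
        mul_le_mul (hl k x) (hd x) hdn (by positivity)
    _ = M * M * ((∑ i, |x i|) * Real.exp (-c * ∑ i, x i ^ 2)) := by ring
    _ ≤ _ := mul_le_mul_of_nonneg_left (exp_bound c hc x) (by positivity)

theorem vc_single0 {N : ℕ} (y : Fin N → ℝ) (t : ℝ) :
    (fun i => (Matrix.vecCons 0 y : Fin (N + 1) → ℝ) i +
      t * (Pi.single 0 1 : Fin (N + 1) → ℝ) i) = Matrix.vecCons t y := by
  funext i
  refine Fin.cases ?_ (fun j => ?_) i
  · simp
  · simp

theorem vc_single1 {N : ℕ} (y : Fin N → ℝ) (t : ℝ) :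
    (fun i => (Matrix.vecCons 0 (Matrix.vecCons 0 y) : Fin (N + 2) → ℝ) i +
      t * (Pi.single 1 1 : Fin (N + 2) → ℝ) i) = Matrix.vecCons 0 (Matrix.vecCons t y) := by
  funext i
  refine Fin.cases ?_ (fun j => ?_) i
  · simp
  · refine Fin.cases ?_ (fun k => ?_) j
    · simp
    · have : (k.succ.succ : Fin (N + 2)) ≠ 1 := by
        rw [Ne, Fin.ext_iff]; simp
      simp [Pi.single_eq_of_ne this]

theorem tendsto_aux {N : ℕ} {c K : ℝ} (hc : 0 < c) (f : ℝ → ℝ) (s : ℝ → ℝ)
    (hs : ∀ t, t ^ 2 ≤ s t) (hK : 0 ≤ K)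
    (hf : ∀ t, ‖f t‖ ≤ K * Real.exp (-c * s t)) : Tendsto f atBot (𝓝 0) := by
  apply squeeze_zero_norm (a := fun t => K * Real.exp (-c * t ^ 2))
  · intro t
    refine (hf t).trans (mul_le_mul_of_nonneg_left (Real.exp_le_exp.2 ?_) hK)
    nlinarith [hs t]
  · have h1 : Tendsto (fun t : ℝ => -c * t ^ 2) atBot atBot := by
      have h2 : Tendsto (fun t : ℝ => t ^ 2) atBot atTop := by
        have := tendsto_pow_atTop (α := ℝ) (n := 2) (by norm_num)
        have h3 := this.comp tendsto_neg_atBot_atTop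
        refine h3.congr (fun t => ?_)
        simp
      exact h2.const_mul_atTop_of_neg (by linarith)
    have := (Real.tendsto_exp_atBot.comp h1).const_mul K
    simpa using this

end Tie01

open Tie01 in
theorem tie01 (h : St_dom) (h2 : St_int) (h6 : St_line) (h7 : St_ftc) : St_tie01 := by
  intro n C hC
  obtain ⟨ε, hε, c, hc, M, hM, H⟩ := h C hC
  obtain ⟨-, hd, hl, -⟩ := H C hC.isHermitian (fun i j => by simpa using hε)
  have hB := dens1_bd C hc hM hd hl
  have s1 : tie C 0 1 = ∫ y in Neg (Fin (n + 1)), dens1 C 1 (Matrix.vecCons 0 y) := by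
    unfold tie
    apply h7 (n := n + 1) (dens1 C 1) (dens2 C 0 1) ((h2 C hC).2.2 0 1)
    · intro y t
      have := (h6 C hC (Matrix.vecCons 0 y) (Pi.single 0 1) t).2 1
      simp only [vc_single0] at this
      convert this using 1
      rw [Finset.sum_eq_single 0]
      · simp
      · intro b _ hb
        simp [Pi.single_eq_of_ne hb]
      · simp
    · intro y
      apply tendsto_aux (N := n) (c := c / 2) (K := M * M * (((n + 2 : ℕ) : ℝ) + 2 / c))
        (by positivity) _ (fun t => ∑ i, (Matrix.vecCons t y : Fin (n + 2) → ℝ) i ^ 2)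
      · intro t
        rw [Fin.sum_univ_succ]
        have : 0 ≤ ∑ i : Fin (n + 1), (Matrix.vecCons t y : Fin (n + 2) → ℝ) i.succ ^ 2 :=
          Finset.sum_nonneg fun i _ => sq_nonneg _
        simp only [Matrix.cons_val_zero]
        linarith
      · positivity
      · intro t
        refine (hB 1 (Matrix.vecCons t y)).trans (le_of_eq ?_)
        ring
  rw [s1]
  have s2 : ∫ y in Neg (Fin (n + 1)), dens1 C 1 (Matrix.vecCons 0 y) =
      ∫ y in Neg (Fin n), dens C (Matrix.vecCons 0 (Matrix.vecCons 0 y)) := by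
    apply h7 (n := n) (fun y => dens C (Matrix.vecCons 0 y)) (fun y => dens1 C 1 (Matrix.vecCons 0 y))
    · apply Integrable.mono' (g := fun y : Fin (n + 1) → ℝ =>
        M * M * ((((n + 2 : ℕ) : ℝ) + 2 / c) * Real.exp (-(c / 2) * ∑ i, y i ^ 2)))
      · exact ((int_exp (c / 2) (by positivity)).const_mul _).const_mul _
      · apply Continuous.aestronglyMeasurable
        unfold dens1 dens
        have hv : Continuous (fun y : Fin (n + 1) → ℝ => (Matrix.vecCons 0 y : Fin (n + 2) → ℝ)) := by
          apply continuous_pi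
          intro i
          refine Fin.cases ?_ (fun j => ?_) i
          · simpa using continuous_const
          · simpa using continuous_apply j
        have hm : Continuous (fun y : Fin (n + 1) → ℝ =>
            C⁻¹ *ᵥ (Matrix.vecCons 0 y : Fin (n + 2) → ℝ)) :=
          Continuous.matrix_mulVec continuous_const hv
        have hm1 := (continuous_apply (1 : Fin (n + 2))).comp hm
        refine Continuous.mul hm1.neg ?_
        refine Continuous.mul continuous_const ?_
        refine Real.continuous_exp.comp ?_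
        exact ((Continuous.dotProduct hv hm).neg).div_const 2
      · refine Eventually.of_forall (fun y => ?_)
        refine (hB 1 (Matrix.vecCons 0 y)).trans (le_of_eq ?_)
        rw [Fin.sum_univ_succ (f := fun i => (Matrix.vecCons 0 y : Fin (n + 2) → ℝ) i ^ 2)]
        simp
    · intro y t
      have := (h6 C hC (Matrix.vecCons 0 (Matrix.vecCons 0 y)) (Pi.single 1 1) t).1
      simp only [vc_single1] at this
      convert this using 1
      rw [Finset.sum_eq_single 1]
      · simp
      · intro b _ hb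
        simp [Pi.single_eq_of_ne hb]
      · simp
    · intro y
      apply tendsto_aux (N := n) (c := c) (K := M) hc _
        (fun t => ∑ i, (Matrix.vecCons 0 (Matrix.vecCons t y) : Fin (n + 2) → ℝ) i ^ 2)
      · intro t
        rw [Fin.sum_univ_succ, Fin.sum_univ_succ]
        have : 0 ≤ ∑ i : Fin n, (Matrix.vecCons 0 (Matrix.vecCons t y) : Fin (n + 2) → ℝ)
            i.succ.succ ^ 2 :=
          Finset.sum_nonneg fun i _ => sq_nonneg _
        simp only [Matrix.cons_val_zero, Matrix.cons_val_succ] at this ⊢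
        nlinarith
      · exact hM.le
      · intro t
        have hdn : 0 ≤ dens C (Matrix.vecCons 0 (Matrix.vecCons t y)) := by
          unfold dens
          positivity
        rw [Real.norm_eq_abs, abs_of_nonneg hdn]
        exact hd _
  rw [s2]
  unfold G1 vec
  simp

end Pool.Agent.H604R2.SW
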