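import Pool.Agent.H604R2.SW.Props

set_option autoImplicit false

namespace Pool.Agent.H604R2.SW

open MeasureTheory Matrix Finset Filter Topology Set ProbabilityTheory
open scoped BigOperators

namespace Tie0j

lemma gauss_int {ι : Type} [Fintype ι] (c : ℝ) (hc : 0 < c) :
    Integrable (fun x : ι → ℝ => Real.exp (-c * ∑ i, x i ^ 2)) volume := by
  have h1 : Integrable (fun x : ι → ℝ => ∏ i, Real.exp (-c * x i ^ 2)) volume := by
    apply MeasureTheory.Integrable.fintype_prod (f := fun (_ : ι) (t : ℝ) => Real.exp (-c * t ^ 2))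
    intro i
    exact integrable_exp_neg_mul_sq hc
  refine h1.congr (Filter.Eventually.of_forall fun x => ?_)
  simp only
  rw [← Real.exp_sum, Finset.mul_sum]

lemma lin_exp_bound {ι : Type} [Fintype ι] (c : ℝ) (hc : 0 < c) (x : ι → ℝ) :
    (∑ i, |x i|) * Real.exp (-c * ∑ i, x i ^ 2) ≤
      ((Fintype.card ι : ℝ) + 2 / c) * Real.exp (-(c / 2) * ∑ i, x i ^ 2) := by
  set S := ∑ i, x i ^ 2 with hS
  have hS0 : 0 ≤ S := Finset.sum_nonneg fun i _ => sq_nonneg _
  have h1 : ∑ i, |x i| ≤ (Fintype.card ι : ℝ) + S := by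
    have : ∑ i, |x i| ≤ ∑ i, (1 + x i ^ 2) := by
      apply Finset.sum_le_sum
      intro i _
      have := sq_abs (x i)
      nlinarith [sq_nonneg (|x i| - 1), abs_nonneg (x i)]
    rw [Finset.sum_add_distrib] at this
    simpa using this
  have h2 : (Fintype.card ι : ℝ) + S ≤ ((Fintype.card ι : ℝ) + 2 / c) * Real.exp (c / 2 * S) := by
    have he : c / 2 * S + 1 ≤ Real.exp (c / 2 * S) := Real.add_one_le_exp _
    have he1 : 1 ≤ Real.exp (c / 2 * S) := by
      apply Real.one_le_exp; positivity
    have hN : (0:ℝ) ≤ (Fintype.card ι : ℝ) := by positivity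
    have hb : S ≤ 2 / c * Real.exp (c / 2 * S) := by
      have : S = 2 / c * (c / 2 * S) := by field_simp
      calc S = 2 / c * (c / 2 * S) := this
        _ ≤ 2 / c * Real.exp (c / 2 * S) := by
          apply mul_le_mul_of_nonneg_left _ (by positivity)
          linarith
    nlinarith
  have h3 : Real.exp (-c * S) = Real.exp (-(c/2) * S) * Real.exp (-(c/2) * S) := by
    rw [← Real.exp_add]; congr 1; ring
  have h4 : Real.exp (c / 2 * S) * Real.exp (-(c/2) * S) = 1 := by
    rw [← Real.exp_add]; simp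
  calc (∑ i, |x i|) * Real.exp (-c * S)
      ≤ ((Fintype.card ι : ℝ) + S) * Real.exp (-c * S) :=
        mul_le_mul_of_nonneg_right h1 (Real.exp_pos _).le
    _ ≤ (((Fintype.card ι : ℝ) + 2 / c) * Real.exp (c / 2 * S)) * Real.exp (-c * S) :=
        mul_le_mul_of_nonneg_right h2 (Real.exp_pos _).le
    _ = ((Fintype.card ι : ℝ) + 2 / c) * Real.exp (-(c / 2) * S) := by
        rw [h3]
        linear_combination (((Fintype.card ι : ℝ) + 2 / c) * Real.exp (-(c/2) * S)) * h4

/-- global bound for `dens1` -/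
lemma dens1_bound (h : St_dom) {ι : Type} [Fintype ι] [DecidableEq ι] (C : Matrix ι ι ℝ)
    (hC : C.PosDef) : ∃ c > 0, ∃ K > 0, ∀ k x,
      |dens1 C k x| ≤ K * Real.exp (-c * ∑ i, x i ^ 2) := by
  obtain ⟨ε, hε, c, hc, M, hM, hb⟩ := h C hC
  obtain ⟨_, h1, h2, _⟩ := hb C hC.1 (fun i j => by simpa using hε)
  refine ⟨c / 2, by positivity, M * M * ((Fintype.card ι : ℝ) + 2 / c), by positivity, ?_⟩
  intro k x
  have hd : 0 ≤ dens C x := by
    unfold dens
    positivity
  unfold dens1
  rw [abs_mul, abs_neg, abs_of_nonneg hd]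
  calc |(C⁻¹ *ᵥ x) k| * dens C x ≤ (M * ∑ i, |x i|) * (M * Real.exp (-c * ∑ i, x i ^ 2)) :=
        mul_le_mul (h2 k x) (h1 x) hd (by positivity)
    _ = M * M * ((∑ i, |x i|) * Real.exp (-c * ∑ i, x i ^ 2)) := by ring
    _ ≤ M * M * (((Fintype.card ι : ℝ) + 2 / c) * Real.exp (-(c / 2) * ∑ i, x i ^ 2)) :=
        mul_le_mul_of_nonneg_left (lin_exp_bound c hc x) (by positivity)
    _ = _ := by ring

lemma continuous_dens {ι : Type} [Fintype ι] [DecidableEq ι] (C : Matrix ι ι ℝ) :
    Continuous (dens C) := by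
  unfold dens
  have : Continuous fun x : ι → ℝ => x ⬝ᵥ (C⁻¹ *ᵥ x) := by
    unfold dotProduct Matrix.mulVec dotProduct
    fun_prop
  fun_prop

lemma continuous_dens1 {ι : Type} [Fintype ι] [DecidableEq ι] (C : Matrix ι ι ℝ) (k : ι) :
    Continuous (dens1 C k) := by
  unfold dens1
  have : Continuous fun x : ι → ℝ => (C⁻¹ *ᵥ x) k := by
    unfold Matrix.mulVec dotProduct
    fun_prop
  exact this.neg.mul (continuous_dens C)

lemma neg_meas (ι : Type) [Fintype ι] : MeasurableSet (Neg ι) := by
  have : Neg ι = ⋂ i, {x : ι → ℝ | x i ≤ 0} := by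
    ext x; simp [Neg]
  rw [this]
  exact MeasurableSet.iInter fun i => measurableSet_le (measurable_pi_apply i) measurable_const

/-- splitting off the first coordinate -/
lemma fub {n : ℕ} (ψ : (Fin (n + 1) → ℝ) → ℝ) (hψ : Integrable ψ volume) :
    IntegrableOn (fun a : ℝ => ∫ y in Neg (Fin n), ψ (vecCons a y)) (Iic 0) ∧
    ∫ x in Neg (Fin (n + 1)), ψ x = ∫ a in Iic (0 : ℝ), ∫ y in Neg (Fin n), ψ (vecCons a y) := by
  set e := MeasurableEquiv.piFinSuccAbove (fun _ : Fin (n + 1) => ℝ) 0 with he
  have hmp : MeasurePreserving e volume volume :=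
    volume_preserving_piFinSuccAbove (fun _ : Fin (n + 1) => ℝ) 0
  have hsymm : ∀ p : ℝ × (Fin n → ℝ), e.symm p = vecCons p.1 p.2 := by
    intro p
    ext i
    rw [he]
    refine Fin.cases ?_ (fun i => ?_) i
    · simp [MeasurableEquiv.piFinSuccAbove, Fin.insertNthEquiv]
    · simp [MeasurableEquiv.piFinSuccAbove, Fin.insertNthEquiv]
  have hI : Integrable (fun p : ℝ × (Fin n → ℝ) => ψ (vecCons p.1 p.2))
      ((volume : Measure ℝ).prod (volume : Measure (Fin n → ℝ))) := by
    have := (hmp.symm e).integrable_comp_emb (g := ψ) e.symm.measurableEmbedding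
    rw [← this] at hψ
    refine hψ.congr (Filter.Eventually.of_forall fun p => ?_)
    simp [hsymm]
  have hpre : e.symm ⁻¹' (Neg (Fin (n + 1))) = Iic (0:ℝ) ×ˢ Neg (Fin n) := by
    ext p
    simp only [Set.mem_preimage, Neg, Set.mem_ofPred_eq, hsymm, Set.mem_prod, Set.mem_Iic]
    constructor
    · intro h
      exact ⟨by simpa using h 0, fun i => by simpa using h i.succ⟩
    · rintro ⟨h0, h1⟩ i
      refine Fin.cases ?_ (fun i => ?_) i
      · simpa using h0
      · simpa using h1 i
  have hI2 : Integrable (fun p : ℝ × (Fin n → ℝ) => ψ (vecCons p.1 p.2))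
      (((volume : Measure ℝ).restrict (Iic 0)).prod
        ((volume : Measure (Fin n → ℝ)).restrict (Neg (Fin n)))) := by
    rw [Measure.prod_restrict]
    exact hI.restrict
  constructor
  · exact hI2.integral_prod_left
  · have h1 := (hmp.symm e).setIntegral_preimage_emb e.symm.measurableEmbedding ψ
      (Neg (Fin (n + 1)))
    rw [← h1, hpre]
    have h2 : ∫ p in Iic (0:ℝ) ×ˢ Neg (Fin n), ψ (e.symm p) =
        ∫ p in Iic (0:ℝ) ×ˢ Neg (Fin n), ψ (vecCons p.1 p.2) := by
      congr 1
      ext p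
      rw [hsymm]
    rw [h2]
    change ∫ p, ψ (vecCons p.1 p.2) ∂(((volume : Measure ℝ).prod
      (volume : Measure (Fin n → ℝ))).restrict (Iic (0:ℝ) ×ˢ Neg (Fin n))) = _
    rw [← Measure.prod_restrict, integral_prod _ hI2]

end Tie0j

open Tie0j

theorem tie0j (h : St_dom) (h2 : St_int) (h6 : St_line) (h7 : St_ftc) : St_tie0j := by
  intro n C hC
  obtain ⟨c, hc, K, hK, hb⟩ := dens1_bound h C hC
  set φ : (Fin (n + 2) → ℝ) → ℝ := fun x => ∑ j : Fin n, kap C j * dens1 C j.succ.succ x with hφ
  have hφc : Continuous φ := by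
    rw [hφ]
    exact continuous_finsetSum _ fun j _ => continuous_const.mul (continuous_dens1 C _)
  set A : ℝ := ∑ j : Fin n, |kap C j| * K with hA
  have hA0 : 0 ≤ A := by
    rw [hA]; exact Finset.sum_nonneg fun j _ => by positivity
  have hφb : ∀ x, |φ x| ≤ A * Real.exp (-c * ∑ i, x i ^ 2) := by
    intro x
    rw [hφ, hA, Finset.sum_mul]
    refine (Finset.abs_sum_le_sum_abs _ _).trans (Finset.sum_le_sum fun j _ => ?_)
    rw [abs_mul, mul_assoc]
    exact mul_le_mul_of_nonneg_left (hb _ x) (abs_nonneg _)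
  -- first step: ftc
  have hg : Integrable (fun x : Fin (n + 2) → ℝ => ∑ j : Fin n, kap C j * dens2 C 0 j.succ.succ x)
      volume := by
    apply integrable_finsetSum
    intro j _
    exact ((h2 C hC).2.2 0 j.succ.succ).const_mul _
  have hD : ∀ y : Fin (n + 1) → ℝ, ∀ t : ℝ, HasDerivAt (fun t : ℝ => φ (Matrix.vecCons t y))
      ((fun x : Fin (n + 2) → ℝ => ∑ j : Fin n, kap C j * dens2 C 0 j.succ.succ x)
        (Matrix.vecCons t y)) t := by
    intro y t
    have hv : ∀ t : ℝ, (fun i : Fin (n + 2) => (vecCons 0 y : Fin (n + 2) → ℝ) i +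
        t * (Pi.single 0 1 : Fin (n + 2) → ℝ) i) = vecCons t y := by
      intro t
      ext i
      refine Fin.cases ?_ (fun i => ?_) i
      · simp
      · simp
    rw [hφ]
    simp only
    apply HasDerivAt.fun_sum
    intro j _
    apply HasDerivAt.const_mul
    have := (h6 C hC (vecCons 0 y) (Pi.single 0 1) t).2 j.succ.succ
    rw [hv t] at this
    simp only [hv] at this
    have hs : ∑ k, (Pi.single 0 1 : Fin (n + 2) → ℝ) k * dens2 C k j.succ.succ (vecCons t y) =
        dens2 C 0 j.succ.succ (vecCons t y) := by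
      rw [Finset.sum_eq_single 0]
      · simp
      · intro b _ hb
        simp [hb]
      · intro h; exact absurd (Finset.mem_univ _) h
    rw [hs] at this
    exact this
  have hT : ∀ y : Fin (n + 1) → ℝ, Tendsto (fun t : ℝ => φ (Matrix.vecCons t y)) atBot (𝓝 0) := by
    intro y
    have hle : ∀ t : ℝ, |φ (vecCons t y)| ≤ A * Real.exp (-c * t ^ 2) := by
      intro t
      refine (hφb _).trans (mul_le_mul_of_nonneg_left ?_ hA0)
      apply Real.exp_le_exp.mpr
      rw [Fin.sum_univ_succ]
      simp only [cons_val_zero, cons_val_succ]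
      have : 0 ≤ ∑ i : Fin (n + 1), y i ^ 2 := Finset.sum_nonneg fun i _ => sq_nonneg _
      nlinarith
    have hlim : Tendsto (fun t : ℝ => A * Real.exp (-c * t ^ 2)) atBot (𝓝 0) := by
      have h1 : Tendsto (fun t : ℝ => -c * t ^ 2) atBot atBot := by
        have : Tendsto (fun t : ℝ => t ^ 2) atBot atTop := by
          have := tendsto_pow_atTop (α := ℝ) (n := 2) (by norm_num)
          have h3 := this.comp (tendsto_neg_atBot_atTop (G := ℝ))
          refine h3.congr fun t => ?_
          simp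
        exact this.const_mul_atTop_of_neg (by linarith)
      have := (Real.tendsto_exp_atBot.comp h1).const_mul A
      simpa using this
    exact squeeze_zero_norm (fun t => by rw [Real.norm_eq_abs]; exact hle t) hlim
  have hftc := h7 φ _ hg hD hT
  have hL : ∫ x in Neg (Fin (n + 2)), (∑ j : Fin n, kap C j * dens2 C 0 j.succ.succ x) =
      ∑ j : Fin n, kap C j * tie C 0 j.succ.succ := by
    rw [integral_finsetSum]
    · apply Finset.sum_congr rfl
      intro j _
      rw [integral_const_mul]
      rfl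
    · intro j _
      exact (((h2 C hC).2.2 0 j.succ.succ).const_mul _).restrict
  have hψ : Integrable (fun y : Fin (n + 1) → ℝ => φ (vecCons 0 y)) volume := by
    refine Integrable.mono' ((gauss_int c hc).const_mul A) ?_ ?_
    · apply Continuous.aestronglyMeasurable
      apply hφc.comp
      apply continuous_pi
      intro i
      refine Fin.cases ?_ (fun i => ?_) i
      · simpa using continuous_const
      · simpa using continuous_apply i
    · refine Filter.Eventually.of_forall fun y => ?_
      rw [Real.norm_eq_abs]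
      refine (hφb _).trans (le_of_eq ?_)
      congr 3
      rw [Fin.sum_univ_succ]
      simp
  obtain ⟨hI, hE⟩ := fub (fun y : Fin (n + 1) → ℝ => φ (vecCons 0 y)) hψ
  have hb1 : ∀ a : ℝ, b1 C (-a) = ∫ y in Neg (Fin n), φ (vecCons 0 (vecCons a y)) := by
    intro a
    unfold b1 vec
    rw [neg_neg]
  have hb2 : ∀ t : ℝ, b1 C t = ∫ y in Neg (Fin n), φ (vecCons 0 (vecCons (-t) y)) := by
    intro t
    rw [← hb1, neg_neg]
  constructor
  · have h3 : IntegrableOn (fun a : ℝ => b1 C (-a)) (Iic 0) := by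
      refine hI.congr_fun (fun a _ => ?_) measurableSet_Iic
      simp only
      rw [hb1]
    have h4 : Integrable ((Iic (0:ℝ)).indicator (fun a : ℝ => b1 C (-a))) volume :=
      (integrable_indicator_iff measurableSet_Iic).mpr h3
    have h5 := h4.comp_neg
    have h6' : IntegrableOn (b1 C) (Ici 0) := by
      rw [← integrable_indicator_iff measurableSet_Ici]
      refine h5.congr (Filter.Eventually.of_forall fun t => ?_)
      simp only [Set.indicator, Set.mem_Iic, Set.mem_Ici, neg_neg]
      by_cases ht : 0 ≤ t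
      · have : -t ≤ 0 := by linarith
        simp [ht]
      · have : ¬ (-t ≤ 0) := by rw [not_le] at ht ⊢; linarith
        simp [ht]
    exact h6'.mono_set Ioi_subset_Ici_self
  · rw [← hL, hftc, hE]
    have h3 : ∫ t in Ioi (0:ℝ), b1 C t = ∫ a in Iic (0:ℝ), b1 C (-a) := by
      have := integral_comp_neg_Ioi (0:ℝ) (fun a => b1 C (-a))
      simp only [neg_neg, neg_zero] at this
      exact this
    rw [h3]
    apply setIntegral_congr_fun measurableSet_Iic
    intro a _
    simp only
    rw [hb1]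

end Pool.Agent.H604R2.SW
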