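import Pool.Agent.H604R2.SW.Props
import Pool.Agent.H604R2.SW.T_PI

set_option autoImplicit false

namespace Pool.Agent.H604R2.SW

open MeasureTheory Matrix Finset Filter Topology Set ProbabilityTheory
open scoped BigOperators

theorem tiepos (h1 : St_tie01) (h2 : St_G1) (h6 : St_relabel) : St_tiepos := by
  intro n C hC
  constructor
  · intro i j hij
    obtain ⟨σ, h0, h1'⟩ := PI_exists_perm i j hij
    have ht := (h6 C σ).2.2
    have hC' : (C.submatrix σ σ).PosDef := hC.submatrix σ.injective
    rw [← h0, ← h1', ← ht, h1 _ hC']
    exact (h2 _ hC').1 0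
  · intro i j
    have hsym : ∀ a b, C⁻¹ a b = C⁻¹ b a := by
      intro a b
      have := hC.inv.isHermitian.apply b a
      simpa using this
    unfold tie
    congr 1
    funext x
    unfold dens2
    rw [hsym i j]
    ring

end Pool.Agent.H604R2.SW
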