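import Pool.Agent.H604R2.SW.Props

set_option autoImplicit false

namespace Pool.Agent.H604R2.SW

open MeasureTheory Matrix Finset Filter Topology Set ProbabilityTheory
open scoped BigOperators

namespace TransAux

theorem gen (G : ℝ → ℝ) (hG : ∀ t, 0 ≤ t → 0 < G t) (hc : ContinuousOn G (Ici 0))
    (hi : IntegrableOn G (Ioi 0)) :
    ∃ A I : ℝ → ℝ, (∀ t, 0 < t → 0 < A t) ∧ (∀ t, 0 < t → HasDerivAt A (-(G t / t)) t) ∧
      (∀ v, 0 < v → 0 < I v ∧ A (I v) = v) ∧ (∀ t, 0 < t → I (A t) = t) ∧
      (∀ v, 0 < v → HasDerivAt I (-(I v / G (I v))) v) ∧ StrictAntiOn A (Ioi 0) ∧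
      Tendsto A (𝓝[>] 0) atTop := by
  set g : ℝ → ℝ := fun u => G u / u with hg
  have hGat : ∀ t, 0 < t → ContinuousAt G t := fun t ht =>
    hc.continuousAt (Ici_mem_nhds ht)
  have hgat : ∀ t, 0 < t → ContinuousAt g t := fun t ht =>
    (hGat t ht).div continuousAt_id ht.ne'
  have hgc : ContinuousOn g (Ioi 0) := fun t ht => (hgat t ht).continuousWithinAt
  have hgi : ∀ t, 0 < t → IntegrableOn g (Ioi t) := by
    intro t ht
    have h1 : IntegrableOn G (Ioi t) := hi.mono_set (Ioi_subset_Ioi ht.le)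
    refine Integrable.mono' (h1.const_mul (1 / t)) ?_ ?_
    · exact (hgc.mono (Ioi_subset_Ioi ht.le)).aestronglyMeasurable measurableSet_Ioi
    · refine (ae_restrict_iff' measurableSet_Ioi).2 (Eventually.of_forall fun u hu => ?_)
      have hu' : t < u := hu
      have hu0 : 0 < u := ht.trans hu'
      have hGu := hG u hu0.le
      rw [Real.norm_of_nonneg (div_nonneg hGu.le hu0.le), one_div_mul_eq_div]
      exact div_le_div_of_nonneg_left hGu.le ht hu'.le
  set A : ℝ → ℝ := fun t => ∫ u in Ioi t, g u with hA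
  have hder : ∀ t, 0 < t → HasDerivAt A (-(G t / t)) t := by
    intro t ht
    have ha : 0 < t / 2 := by linarith
    have hII : ∀ s, 0 < s → IntervalIntegrable g volume (t / 2) s := by
      intro s hs
      refine (hgc.mono ?_).intervalIntegrable
      intro u hu
      rw [Set.uIcc, Set.mem_Icc] at hu
      exact lt_of_lt_of_le (lt_min ha hs) hu.1
    have h1 : HasDerivAt (fun s => ∫ u in (t / 2)..s, g u) (g t) t :=
      intervalIntegral.integral_hasDerivAt_right (hII t ht)
        (hgc.stronglyMeasurableAtFilter isOpen_Ioi t ht) (hgat t ht)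
    have h2 : A =ᶠ[𝓝 t] fun s => (∫ u in Ioi (t / 2), g u) - ∫ u in (t / 2)..s, g u := by
      filter_upwards [Ioi_mem_nhds (show t / 2 < t by linarith)] with s hs
      have hs' : t / 2 < s := hs
      rw [intervalIntegral.integral_of_le hs'.le, eq_sub_iff_add_eq, hA]
      simp only
      rw [add_comm, ← setIntegral_union (by
        rw [Set.disjoint_left]
        intro u hu hu'
        exact absurd hu.2 (not_le.2 hu')) measurableSet_Ioi ((hgi _ ha).mono_set Ioc_subset_Ioi_self)
        ((hgi _ ha).mono_set (Ioi_subset_Ioi hs'.le)), Ioc_union_Ioi_eq_Ioi hs'.le]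
    have h3 := (h1.const_sub (∫ u in Ioi (t / 2), g u)).congr_of_eventuallyEq h2
    exact h3
  have hgpos : ∀ t, 0 < t → 0 < G t / t := fun t ht => div_pos (hG t ht.le) ht
  have hcont : ContinuousOn A (Ioi 0) := fun t ht => (hder t ht).continuousAt.continuousWithinAt
  have hanti : StrictAntiOn A (Ioi 0) := by
    refine strictAntiOn_of_deriv_neg (convex_Ioi 0) hcont ?_
    intro t ht
    rw [interior_Ioi] at ht
    rw [(hder t ht).deriv]
    exact neg_neg_of_pos (hgpos t ht)
  have hnonneg : ∀ t, 0 < t → 0 ≤ A t := by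
    intro t ht
    refine setIntegral_nonneg measurableSet_Ioi fun u hu => ?_
    have hu' : t < u := hu
    exact (hgpos u (ht.trans hu')).le
  have hpos : ∀ t, 0 < t → 0 < A t := by
    intro t ht
    have h1 : A (t + 1) < A t := hanti (show (0:ℝ) < t from ht) (show (0:ℝ) < t + 1 by linarith)
      (by linarith)
    exact (hnonneg (t + 1) (by linarith)).trans_lt h1
  -- limit at infinity
  set K : ℝ := ∫ u in Ioi (0 : ℝ), G u with hK
  have hub : ∀ t, 0 < t → A t ≤ K / t := by
    intro t ht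
    have h1 : IntegrableOn G (Ioi t) := hi.mono_set (Ioi_subset_Ioi ht.le)
    have h2 : A t ≤ ∫ u in Ioi t, (1 / t) * G u := by
      refine setIntegral_mono_on (hgi t ht) (h1.const_mul _) measurableSet_Ioi fun u hu => ?_
      have hu' : t < u := hu
      rw [one_div_mul_eq_div]
      exact div_le_div_of_nonneg_left (hG u (ht.trans hu').le).le ht hu'.le
    rw [integral_const_mul] at h2
    have h3 : ∫ u in Ioi t, G u ≤ K :=
      setIntegral_mono_set hi ((ae_restrict_iff' measurableSet_Ioi).2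
        (Eventually.of_forall fun u hu => (hG u (le_of_lt hu)).le))
        (Eventually.of_forall (Ioi_subset_Ioi ht.le))
    have h4 : 1 / t * ∫ u in Ioi t, G u ≤ 1 / t * K :=
      mul_le_mul_of_nonneg_left h3 (by positivity)
    rw [one_div_mul_eq_div] at h4
    rw [one_div_mul_eq_div] at h2
    rw [one_div_mul_eq_div] at h4
    exact h2.trans h4
  have hlow : ∀ v, 0 < v → ∃ t, 0 < t ∧ A t < v := by
    intro v hv
    have h1 : Tendsto (fun t : ℝ => K / t) atTop (𝓝 0) := tendsto_const_nhds.div_atTop tendsto_id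
    obtain ⟨t, h2, h3⟩ := ((h1.eventually (gt_mem_nhds hv)).and (eventually_gt_atTop 0)).exists
    exact ⟨t, h3, (hub t h3).trans_lt h2⟩
  -- limit at zero
  have htop : Tendsto A (𝓝[>] 0) atTop := by
    have hG0 := hG 0 le_rfl
    have h1 : ∀ᶠ u in 𝓝[≥] (0 : ℝ), G 0 / 2 < G u :=
      (hc 0 (Set.mem_Ici.2 le_rfl)).eventually (lt_mem_nhds (by linarith))
    obtain ⟨δ, hδ, h2⟩ := (mem_nhdsGE_iff_exists_Ico_subset).1 h1
    have hδ0 : (0 : ℝ) < δ := hδ
    set c : ℝ := G 0 / 2 with hcdef
    have hc0 : 0 < c := by rw [hcdef]; linarith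
    have hder2 : ∀ t, 0 < t → HasDerivAt (fun t => A t + c * Real.log t) (-(G t / t) + c * t⁻¹) t :=
      fun t ht => (hder t ht).add ((Real.hasDerivAt_log ht.ne').const_mul c)
    have h3 : AntitoneOn (fun t => A t + c * Real.log t) (Ioo 0 δ) := by
      refine antitoneOn_of_deriv_nonpos (convex_Ioo 0 δ)
        (fun t ht => (hder2 t ht.1).continuousAt.continuousWithinAt)
        (fun t ht => ?_) ?_
      · rw [interior_Ioo] at ht
        exact (hder2 t ht.1).differentiableAt.differentiableWithinAt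
      · intro t ht
        rw [interior_Ioo] at ht
        rw [(hder2 t ht.1).deriv]
        have h4 : c < G t := h2 ⟨ht.1.le, ht.2⟩
        have h5 : -(G t / t) + c * t⁻¹ = -((G t - c) / t) := by ring
        rw [h5]
        have : 0 ≤ (G t - c) / t := div_nonneg (by linarith) ht.1.le
        linarith
    have hδ2 : δ / 2 ∈ Ioo 0 δ := ⟨by linarith, by linarith⟩
    have h6 : Tendsto (fun t : ℝ => (A (δ / 2) + c * Real.log (δ / 2)) + (-(c * Real.log t)))
        (𝓝[>] 0) atTop := by
      refine tendsto_atTop_add_const_left _ _ ?_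
      exact tendsto_neg_atBot_atTop.comp
        ((tendsto_const_mul_atBot_of_pos hc0).2 Real.tendsto_log_nhdsGT_zero)
    refine tendsto_atTop_mono' _ ?_ h6
    filter_upwards [Ioo_mem_nhdsGT (show (0 : ℝ) < δ / 2 by linarith)] with t ht
    have h7 := h3 (show t ∈ Ioo 0 δ from ⟨ht.1, by linarith [ht.2]⟩) hδ2 ht.2.le
    simp only at h7
    linarith
  -- the inverse
  have hex : ∀ v, 0 < v → ∃ t, 0 < t ∧ A t = v := by
    intro v hv
    obtain ⟨t₂, h2, h2'⟩ := hlow v hv
    obtain ⟨t₁, h1', h1⟩ := ((htop.eventually (eventually_gt_atTop v)).and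
      self_mem_nhdsWithin).exists
    have h1 : 0 < t₁ := h1
    have h12 : t₁ ≤ t₂ := by
      by_contra h
      push Not at h
      have := hanti (show (0:ℝ) < t₂ from h2) (show (0:ℝ) < t₁ from h1) h
      linarith
    have h3 := intermediate_value_Icc' h12 (hcont.mono (fun u hu => lt_of_lt_of_le h1 hu.1))
    obtain ⟨t, ht, h4⟩ := h3 ⟨h2'.le, h1'.le⟩
    exact ⟨t, lt_of_lt_of_le h1 ht.1, h4⟩
  classical
  set I : ℝ → ℝ := fun v => if h : 0 < v then (hex v h).choose else 0 with hI
  have hI1 : ∀ v, 0 < v → 0 < I v ∧ A (I v) = v := by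
    intro v hv
    simp only [hI, dif_pos hv]
    exact (hex v hv).choose_spec
  have hI2 : ∀ t, 0 < t → I (A t) = t := by
    intro t ht
    obtain ⟨h1, h2⟩ := hI1 (A t) (hpos t ht)
    exact hanti.injOn h1 ht h2
  have hIc : ∀ v, 0 < v → ContinuousAt I v := by
    intro v hv
    obtain ⟨h1, h2⟩ := hI1 v hv
    refine tendsto_order.2 ⟨fun a ha => ?_, fun a ha => ?_⟩
    · rcases le_or_gt a 0 with ha0 | ha0
      · filter_upwards [lt_mem_nhds hv] with w hw
        exact ha0.trans_lt (hI1 w hw).1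
      · have h3 : v < A a := by
          rw [← h2]
          exact hanti ha0 h1 ha
        filter_upwards [lt_mem_nhds hv, gt_mem_nhds h3] with w hw hw'
        obtain ⟨h4, h5⟩ := hI1 w hw
        rw [← h5] at hw'
        exact (hanti.lt_iff_gt h4 ha0).1 hw'
    · have ha0 : 0 < a := h1.trans ha
      have h3 : A a < v := by
        rw [← h2]
        exact hanti h1 ha0 ha
      filter_upwards [lt_mem_nhds hv, lt_mem_nhds h3] with w hw hw'
      obtain ⟨h4, h5⟩ := hI1 w hw
      rw [← h5] at hw'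
      exact (hanti.lt_iff_gt ha0 h4).1 hw'
  refine ⟨A, I, hpos, hder, hI1, hI2, ?_, hanti, htop⟩
  intro v hv
  obtain ⟨h1, h2⟩ := hI1 v hv
  have h3 := HasDerivAt.of_local_left_inverse (hIc v hv) (hder (I v) h1)
    (neg_ne_zero.2 (hgpos _ h1).ne') (by
      filter_upwards [lt_mem_nhds hv] with w hw
      exact (hI1 w hw).2)
  have h4 : (-(G (I v) / I v))⁻¹ = -(I v / G (I v)) := by
    rw [inv_neg, inv_div]
  rw [h4] at h3
  exact h3

end TransAux

open TransAux in
theorem trans_ : St_trans := by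
  intro G H hG hH hGc hHc hGi hHi
  obtain ⟨A, I, A1, A2, A3, A4, A5, A6, A7⟩ := gen G hG hGc hGi
  obtain ⟨B, J, B1, B2, B3, B4, B5, B6, B7⟩ := gen H hH hHc hHi
  refine ⟨fun t => J (A t), fun t => I (B t), ?_, ?_, ?_, ?_⟩
  · intro t ht
    refine ⟨(B3 _ (A1 t ht)).1, (A3 _ (B1 t ht)).1, ?_⟩
    simp only
    rw [(B3 _ (A1 t ht)).2, A4 t ht]
  · intro t ht
    have h := (B5 _ (A1 t ht)).comp t (A2 t ht)
    have e : G t / t * (J (A t) / H (J (A t))) = -(J (A t) / H (J (A t))) * -(G t / t) := by ring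
    exact h.congr_deriv e.symm
  · intro t ht
    have h := (A5 _ (B1 t ht)).comp t (B2 t ht)
    have e : H t / t * (I (B t) / G (I (B t))) = -(I (B t) / G (I (B t))) * -(H t / t) := by ring
    exact h.congr_deriv e.symm
  · refine tendsto_order.2 ⟨fun a ha => ?_, fun a ha => ?_⟩
    · filter_upwards [self_mem_nhdsWithin] with t ht
      exact ha.trans (B3 _ (A1 t ht)).1
    · filter_upwards [self_mem_nhdsWithin, A7.eventually (eventually_gt_atTop (B a))] with t ht h1
      obtain ⟨h2, h3⟩ := B3 _ (A1 t ht)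
      rw [← h3] at h1
      exact (B6.lt_iff_gt ha h2).1 h1

end Pool.Agent.H604R2.SW
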