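import Pool.Agent.H604R2.SW.T_dom
import Pool.Agent.H604R2.SW.T_int
import Pool.Agent.H604R2.SW.T_cont
import Pool.Agent.H604R2.SW.T_plpt
import Pool.Agent.H604R2.SW.T_plackett
import Pool.Agent.H604R2.SW.T_line
import Pool.Agent.H604R2.SW.T_relabel
import Pool.Agent.H604R2.SW.T_ftc
import Pool.Agent.H604R2.SW.T_tie01
import Pool.Agent.H604R2.SW.T_tie0j
import Pool.Agent.H604R2.SW.T_G1
import Pool.Agent.H604R2.SW.T_refl
import Pool.Agent.H604R2.SW.T_pl
import Pool.Agent.H604R2.SW.T_kkd
import Pool.Agent.H604R2.SW.T_lci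
import Pool.Agent.H604R2.SW.T_trans
import Pool.Agent.H604R2.SW.T_half
import Pool.Agent.H604R2.SW.T_lemG
import Pool.Agent.H604R2.SW.T_PI01
import Pool.Agent.H604R2.SW.T_PI
import Pool.Agent.H604R2.SW.T_tiepos
import Pool.Agent.H604R2.SW.T_K1
import Pool.Agent.H604R2.SW.T_K2
import Pool.Agent.H604R2.SW.T_K3
import Pool.Agent.H604R2.SW.T_K4
import Pool.Agent.H604R2.SW.T_O1
import Pool.Agent.H604R2.SW.T_O2
import Pool.Agent.H604R2.SW.T_OP
import Pool.Agent.H604R2.SW.T_smul
import Pool.Agent.H604R2.SW.T_law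
import Pool.Agent.H604R2.SW.T_mix
import Pool.Agent.H604R2.SW.T_lim
import Pool.Agent.H604R2.SW.T_max1
import Pool.Agent.H604R2.SW.T_max
import Pool.Agent.H604R2.SW.T_hom
import Pool.Agent.H604R2.SW.T_S09365
import Pool.Agent.H604R2.SW.T_S08677
import Pool.Agent.H604R2.SW.T_sphfin
import Pool.Agent.H604R2.SW.T_haus
import Pool.Agent.H604R2.SW.T_end
import Pool.Agent.H604R2.SW.T_sph

/-!
# The simplex mean width conjecture: assembly
-/

set_option autoImplicit false

namespace Pool.Agent.H604R2.SW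

theorem f_int : St_int := int_ dom
theorem f_cont : St_cont := cont_ dom
theorem f_plackett : St_plackett := plackett dom f_int plpt
theorem f_tie01 : St_tie01 := tie01 dom f_int line ftc
theorem f_tie0j : St_tie0j := tie0j dom f_int line ftc
theorem f_G1 : St_G1 := G1_reg dom line
theorem f_pl : St_pl := pl dom
theorem f_kkd : St_kkd := kkd dom line
theorem f_lci : St_lci := lci f_G1 refl_ f_pl f_kkd relabel
theorem f_lemG : St_lemG := lemG trans_ half
theorem f_PI01 : St_PI01 := PI01 f_tie01 f_tie0j f_G1 f_lci f_lemG relabel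
theorem f_PI : St_PI := PI_ f_PI01 relabel
theorem f_tiepos : St_tiepos := tiepos f_tie01 f_G1 relabel
theorem f_OP : St_OP := OP f_cont f_plackett f_PI f_tiepos K1 K2 K3 K4 O1 O2
theorem f_mix : St_mix := mix law
theorem f_max1 : St_max1 := max1 f_OP f_mix lim_
theorem f_max : St_max := max_ f_max1
theorem f_09365 : St_09365 := S09365_ f_max hom
theorem f_08677 : St_08677 := S08677_ f_09365 hom
theorem f_haus : St_haus := haus sphfin
theorem f_end : St_end := end_ f_OP f_cont smul_ O1
theorem f_sph : St_sph := sph f_end law f_haus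

end Pool.Agent.H604R2.SW
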