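import Pool.Agent.H604R2.SW.Defs
import Mathlib.Probability.Distributions.Gaussian.Multivariate

/-!
# The simplex mean width conjecture (blueprint of helper604): the statements of the steps
-/

set_option autoImplicit false

namespace Pool.Agent.H604R2.SW

open MeasureTheory Matrix Finset Filter Topology Set ProbabilityTheory
open scoped BigOperators

/-! ## A: density calculus (any finite index type) -/

section
variable {ι : Type} [Fintype ι] [DecidableEq ι]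

/-- A2: locally uniform Gaussian domination. -/
def St_dom : Prop := ∀ {ι : Type} [Fintype ι] [DecidableEq ι] (C₀ : Matrix ι ι ℝ), C₀.PosDef →
  ∃ ε > 0, ∃ c > 0, ∃ M > 0, ∀ C : Matrix ι ι ℝ, C.IsHermitian → (∀ i j, |C i j - C₀ i j| < ε) →
    C.PosDef ∧ (∀ x, dens C x ≤ M * Real.exp (-c * ∑ i, x i ^ 2)) ∧
    (∀ k x, |(C⁻¹ *ᵥ x) k| ≤ M * ∑ i, |x i|) ∧ (∀ k l, |C⁻¹ k l| ≤ M)

/-- A3 -/
def St_int : Prop := ∀ {ι : Type} [Fintype ι] [DecidableEq ι] (C : Matrix ι ι ℝ), C.PosDef →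
  Integrable (dens C) volume ∧ (∀ k, Integrable (dens1 C k) volume) ∧
    (∀ k l, Integrable (dens2 C k l) volume)

/-- A4 -/
def St_cont : Prop := ∀ {ι : Type} [Fintype ι] [DecidableEq ι],
  ContinuousOn (fun C : Matrix ι ι ℝ => orth C) {C | C.PosDef}

/-- A5a: pointwise derivative of the density in the covariance. -/
def St_plpt : Prop := ∀ {ι : Type} [Fintype ι] [DecidableEq ι] (C A : Matrix ι ι ℝ), C.PosDef →
  A.IsHermitian → ∀ x : ι → ℝ, HasDerivAt (fun s : ℝ => dens (C + s • A) x)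
    (1 / 2 * ∑ k, ∑ l, A k l * dens2 C k l x) 0

/-- A5: Plackett's identity. -/
def St_plackett : Prop := ∀ {ι : Type} [Fintype ι] [DecidableEq ι] (C A : Matrix ι ι ℝ), C.PosDef →
  A.IsHermitian → HasDerivAt (fun s : ℝ => orth (C + s • A))
    (1 / 2 * ∑ k, ∑ l, A k l * tie C k l) 0

/-- A6: derivatives of the density along lines. -/
def St_line : Prop := ∀ {ι : Type} [Fintype ι] [DecidableEq ι] (C : Matrix ι ι ℝ), C.PosDef →
  ∀ x v : ι → ℝ, ∀ t : ℝ,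
    HasDerivAt (fun t : ℝ => dens C (fun i => x i + t * v i))
      (∑ k, v k * dens1 C k (fun i => x i + t * v i)) t ∧
    ∀ l, HasDerivAt (fun t : ℝ => dens1 C l (fun i => x i + t * v i))
      (∑ k, v k * dens2 C k l (fun i => x i + t * v i)) t

/-- A7: relabelling. -/
def St_relabel : Prop := ∀ {ι : Type} [Fintype ι] [DecidableEq ι] (C : Matrix ι ι ℝ)
  (σ : Equiv.Perm ι), (∀ x, dens (C.submatrix σ σ) (fun i => x (σ i)) = dens C x) ∧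
    orth (C.submatrix σ σ) = orth C ∧ ∀ k l, tie (C.submatrix σ σ) k l = tie C (σ k) (σ l)

end

/-! ## B: the functions G1, b1 (index type `Fin (n+2)`) -/

section

/-- B0: integration of a derivative in the first coordinate. -/
def St_ftc : Prop := ∀ {n : ℕ} (f g : (Fin (n + 1) → ℝ) → ℝ), Integrable g →
  (∀ y : Fin n → ℝ, ∀ t : ℝ, HasDerivAt (fun t : ℝ => f (Matrix.vecCons t y))
    (g (Matrix.vecCons t y)) t) →
  (∀ y : Fin n → ℝ, Tendsto (fun t : ℝ => f (Matrix.vecCons t y)) atBot (𝓝 0)) →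
  ∫ x in Neg (Fin (n + 1)), g x = ∫ y in Neg (Fin n), f (Matrix.vecCons 0 y)

/-- B1: `tie C 0 1 = G1 C 0`. -/
def St_tie01 : Prop := ∀ {n : ℕ} (C : Matrix (Fin (n + 2)) (Fin (n + 2)) ℝ), C.PosDef →
  tie C 0 1 = G1 C 0

/-- B2: `tie C 0 j` as an integral. -/
def St_tie0j : Prop := ∀ {n : ℕ} (C : Matrix (Fin (n + 2)) (Fin (n + 2)) ℝ), C.PosDef →
  IntegrableOn (b1 C) (Ioi 0) ∧
  ∑ j : Fin n, kap C j * tie C 0 j.succ.succ = ∫ t in Ioi (0 : ℝ), b1 C t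

/-- B3: regularity of `G1`. -/
def St_G1 : Prop := ∀ {n : ℕ} (C : Matrix (Fin (n + 2)) (Fin (n + 2)) ℝ), C.PosDef →
  (∀ t, 0 < G1 C t) ∧ (∀ t, HasDerivAt (G1 C) (dG1 C t) t) ∧ Tendsto (G1 C) atTop (𝓝 0) ∧
    IntegrableOn (G1 C) (Ioi 0)

/-- B4: reflection. -/
def St_refl : Prop := ∀ {n : ℕ} (C : Matrix (Fin (n + 2)) (Fin (n + 2)) ℝ), C.PosDef →
  C 0 0 = C 1 1 → ∀ (s : ℝ) (y : Fin n → ℝ),
    dens C (vec 0 (-s) (fun j => y j + s * kap C j)) = dens C (vec (-s) 0 y)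

/-- B5: log-concavity along the segment (Prekopa-Leindler). -/
def St_pl : Prop := ∀ {n : ℕ} (C : Matrix (Fin (n + 2)) (Fin (n + 2)) ℝ), C.PosDef →
  ∀ s t ε : ℝ, 0 < ε → ε < 1 → kk C s t 0 ^ (1 - ε) * kk C s t 1 ^ ε ≤ kk C s t ε

/-- B6: derivative of `kk` at `0`. -/
def St_kkd : Prop := ∀ {n : ℕ} (C : Matrix (Fin (n + 2)) (Fin (n + 2)) ℝ), C.PosDef →
  ∀ s t : ℝ, HasDerivAt (kk C s t) ((s - t) * dG1 C t + s * b1 C t) 0

/-- B7: the tangent inequality. -/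
def St_lci : Prop := ∀ {n : ℕ} (C : Matrix (Fin (n + 2)) (Fin (n + 2)) ℝ), C.PosDef →
  C 0 0 = C 1 1 → ∀ s t : ℝ, 0 < s → 0 < t →
    G1 C t * (Real.log (G1 (swp C) s) - Real.log (G1 C t)) ≤ (s - t) * dG1 C t + s * b1 C t

end

/-! ## L: the one-dimensional lemma -/

/-- L1: the transport map `T` and its inverse `S`. -/
def St_trans : Prop := ∀ G H : ℝ → ℝ, (∀ t, 0 ≤ t → 0 < G t) → (∀ t, 0 ≤ t → 0 < H t) →
  ContinuousOn G (Ici 0) → ContinuousOn H (Ici 0) →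
  IntegrableOn G (Ioi 0) → IntegrableOn H (Ioi 0) →
  ∃ T S : ℝ → ℝ, (∀ t, 0 < t → 0 < T t ∧ 0 < S t ∧ S (T t) = t) ∧
    (∀ t, 0 < t → HasDerivAt T (G t / t * (T t / H (T t))) t) ∧
    (∀ t, 0 < t → HasDerivAt S (H t / t * (S t / G (S t))) t) ∧
    Tendsto T (𝓝[>] 0) (𝓝 0)

/-- L2: integration along the transport map. -/
def St_half : Prop := ∀ (G H b dG T : ℝ → ℝ), (∀ t, 0 ≤ t → 0 < G t) → (∀ t, 0 ≤ t → 0 < H t) →
  (∀ t, 0 < t → HasDerivAt G (dG t) t) → Tendsto G atTop (𝓝 0) →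
  IntegrableOn b (Ioi 0) →
  (∀ s t, 0 < s → 0 < t → G t * (Real.log (H s) - Real.log (G t)) ≤ (s - t) * dG t + s * b t) →
  (∀ t, 0 < t → 0 < T t) → (∀ t, 0 < t → HasDerivAt T (G t / t * (T t / H (T t))) t) →
  ∀ τ, 0 < τ → G τ - ∫ t in Ioi τ, b t ≤ G τ * (τ / T τ)

/-- L3: the product inequality. -/
def St_lemG : Prop := ∀ (G H b c dG dH : ℝ → ℝ), (∀ t, 0 ≤ t → 0 < G t) →
  (∀ t, 0 ≤ t → 0 < H t) → (∀ t, HasDerivAt G (dG t) t) → (∀ t, HasDerivAt H (dH t) t) →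
  Tendsto G atTop (𝓝 0) → Tendsto H atTop (𝓝 0) →
  IntegrableOn G (Ioi 0) → IntegrableOn H (Ioi 0) →
  IntegrableOn b (Ioi 0) → IntegrableOn c (Ioi 0) →
  (∀ s t, 0 < s → 0 < t → G t * (Real.log (H s) - Real.log (G t)) ≤ (s - t) * dG t + s * b t) →
  (∀ s t, 0 < s → 0 < t → H t * (Real.log (G s) - Real.log (H t)) ≤ (s - t) * dH t + s * c t) →
  0 ≤ G 0 - ∫ t in Ioi (0:ℝ), b t → 0 ≤ H 0 - ∫ t in Ioi (0:ℝ), c t →
  (G 0 - ∫ t in Ioi (0:ℝ), b t) * (H 0 - ∫ t in Ioi (0:ℝ), c t) ≤ G 0 * H 0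

/-! ## P: the pair inequality -/

/-- P1 -/
def St_PI01 : Prop := ∀ {n : ℕ} (C : Matrix (Fin (n + 2)) (Fin (n + 2)) ℝ), C.PosDef →
  C 0 0 = C 1 1 → 0 ≤ AA C (Matrix.of (tie C)) 0 1 → 0 ≤ AA C (Matrix.of (tie C)) 1 0 →
    AA C (Matrix.of (tie C)) 0 1 * AA C (Matrix.of (tie C)) 1 0 ≤
      ((C 0 0 - C 0 1) * tie C 0 1) ^ 2

/-- P2 -/
def St_PI : Prop := ∀ {n : ℕ} (C : Matrix (Fin (n + 2)) (Fin (n + 2)) ℝ), C.PosDef →
  ∀ i j, i ≠ j → C i i = C j j → 0 ≤ AA C (Matrix.of (tie C)) i j →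
    0 ≤ AA C (Matrix.of (tie C)) j i →
    AA C (Matrix.of (tie C)) i j * AA C (Matrix.of (tie C)) j i ≤
      ((C i i - C i j) * tie C i j) ^ 2

/-- P3: ties are positive and symmetric. -/
def St_tiepos : Prop := ∀ {n : ℕ} (C : Matrix (Fin (n + 2)) (Fin (n + 2)) ℝ), C.PosDef →
  (∀ i j, i ≠ j → 0 < tie C i j) ∧ ∀ i j, tie C i j = tie C j i

/-! ## K: algebra of the optimality conditions -/

/-- K0: `R` minimises `∑_{i≠j} Q i j R i j` over correlation matrices -/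
def IsMinCorr {ι : Type} [Fintype ι] [DecidableEq ι] (Q R : Matrix ι ι ℝ) : Prop :=
  Corr R ∧ ∀ R' : Matrix ι ι ℝ, Corr R' →
    ∑ i, ∑ j ∈ univ.erase i, Q i j * R i j ≤ ∑ i, ∑ j ∈ univ.erase i, Q i j * R' i j

/-- `rho Q R i = - ∑_{k ≠ i} Q i k R i k` -/
noncomputable def rho {ι : Type} [Fintype ι] [DecidableEq ι] (Q R : Matrix ι ι ℝ) (i : ι) : ℝ :=
  -∑ k ∈ univ.erase i, Q i k * R i k

/-- K1: first order conditions. -/
def St_K1 : Prop := ∀ {ι : Type} [Fintype ι] [DecidableEq ι] (Q R : Matrix ι ι ℝ),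
  (∀ i j, Q i j = Q j i) → IsMinCorr Q R →
  ∀ i k, ∑ j ∈ univ.erase i, Q i j * R j k = -rho Q R i * R i k

/-- K2: second order conditions. -/
def St_K2 : Prop := ∀ {ι : Type} [Fintype ι] [DecidableEq ι] (Q R : Matrix ι ι ℝ),
  (∀ i j, Q i j = Q j i) → (∀ i j, i ≠ j → 0 < Q i j) → IsMinCorr Q R →
  ∀ i j, i ≠ j → 0 ≤ rho Q R i ∧ Q i j ^ 2 ≤ rho Q R i * rho Q R j

/-- K3: the quantity `AA` for `Cm κ s R` at a minimiser. -/
def St_K3 : Prop := ∀ {ι : Type} [Fintype ι] [DecidableEq ι] (Q R : Matrix ι ι ℝ) (κ s : ℝ),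
  2 ≤ Fintype.card ι → (∀ i j, Q i j = Q j i) → Corr R →
  (∀ i k, ∑ j ∈ univ.erase i, Q i j * R j k = -rho Q R i * R i k) →
  ∀ i j, i ≠ j →
    AA (Cm κ s R) Q i j = (1 - s * Fintype.card ι / ((Fintype.card ι : ℝ) - 1)) * Q i j +
      s * (1 - R i j) * rho Q R i ∧
    (Cm κ s R) i i = (Cm κ s R) j j ∧
    (Cm κ s R) i i - (Cm κ s R) i j =
      (1 - s * Fintype.card ι / ((Fintype.card ι : ℝ) - 1)) + s * (1 - R i j)

/-- K4: endgame. -/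
def St_K4 : Prop := ∀ {ι : Type} [Fintype ι] [DecidableEq ι] (Q R : Matrix ι ι ℝ) (s : ℝ),
  2 ≤ Fintype.card ι → 0 < s → 0 < 1 - s * Fintype.card ι / ((Fintype.card ι : ℝ) - 1) →
  (∀ i j, Q i j = Q j i) → (∀ i j, i ≠ j → 0 < Q i j) → Corr R →
  (∀ i k, ∑ j ∈ univ.erase i, Q i j * R j k = -rho Q R i * R i k) →
  (∀ i j, i ≠ j → 0 ≤ rho Q R i ∧ Q i j ^ 2 ≤ rho Q R i * rho Q R j) →
  (∀ i j, i ≠ j →
    ((1 - s * Fintype.card ι / ((Fintype.card ι : ℝ) - 1)) * Q i j + s * (1 - R i j) * rho Q R i) *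
    ((1 - s * Fintype.card ι / ((Fintype.card ι : ℝ) - 1)) * Q i j + s * (1 - R i j) * rho Q R j) ≤
    (((1 - s * Fintype.card ι / ((Fintype.card ι : ℝ) - 1)) + s * (1 - R i j)) * Q i j) ^ 2) →
  0 ≤ ∑ i, ∑ j ∈ univ.erase i, Q i j * (R i j + 1 / ((Fintype.card ι : ℝ) - 1))

/-! ## O: the optimisation -/

/-- O1: `Cm κ s R` is positive definite. -/
def St_O1 : Prop := ∀ {ι : Type} [Fintype ι] [DecidableEq ι] (κ s : ℝ) (R : Matrix ι ι ℝ),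
  2 ≤ Fintype.card ι → 0 < κ → 0 ≤ s → 0 < 1 - s * Fintype.card ι / ((Fintype.card ι : ℝ) - 1) →
  Corr R → (Cm κ s R).PosDef

/-- O2: correlation matrices form a nonempty compact set. -/
def St_O2 : Prop := ∀ {ι : Type} [Fintype ι] [DecidableEq ι],
  IsCompact {R : Matrix ι ι ℝ | Corr R} ∧ Corr (1 : Matrix ι ι ℝ) ∧
    ∀ R R' : Matrix ι ι ℝ, Corr R → Corr R' → ∀ a : ℝ, 0 ≤ a → a ≤ 1 →
      Corr (R + a • (R' - R))

/-- O3: main theorem on orthant probabilities. -/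
def St_OP : Prop := ∀ {n : ℕ} (κ s : ℝ) (R : Matrix (Fin (n + 2)) (Fin (n + 2)) ℝ),
  0 < κ → 0 ≤ s → 0 < 1 - s * ((n : ℝ) + 2) / ((n : ℝ) + 1) → Corr R →
  orth (Ek (Fin (n + 2)) κ) ≤ orth (Cm κ s R)



/-! ## F: from orthant probabilities to mean width -/

/-- F1: scaling. -/
def St_smul : Prop := ∀ {ι : Type} [Fintype ι] [DecidableEq ι] (C : Matrix ι ι ℝ) (c : ℝ),
  C.PosDef → 0 < c → orth (c • C) = orth C

/-- F2: `orth` of a Gram matrix is a Gaussian cone measure. -/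
def St_law : Prop := ∀ {ι : Type} [Fintype ι] [DecidableEq ι] {E : Type} [NormedAddCommGroup E]
  [InnerProductSpace ℝ E] [FiniteDimensional ℝ E] [MeasurableSpace E] [BorelSpace E]
  (a : ι → E) (C : Matrix ι ι ℝ), C.PosDef → (∀ i j, inner ℝ (a i) (a j) = C i j) →
  orth C = ((stdGaussian E) {z | ∀ i, inner ℝ (a i) z ≤ 0}).toReal

/-- F3: `orth (s R + δ 1 + τ J)` as the probability of an event. -/
def St_mix : Prop := ∀ {N : ℕ} {E : Type} [NormedAddCommGroup E]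
  [InnerProductSpace ℝ E] [FiniteDimensional ℝ E] [MeasurableSpace E] [BorelSpace E]
  (x : Fin N → E) (R : Matrix (Fin N) (Fin N) ℝ), (∀ i j, inner ℝ (x i) (x j) = R i j) →
  ∀ s δ τ : ℝ, 0 ≤ s → 0 < δ → 0 ≤ τ →
  orth (s • R + δ • (1 : Matrix (Fin N) (Fin N) ℝ) + Matrix.of (fun _ _ => τ)) =
    ((((stdGaussian E).prod (stdGaussian (EuclideanSpace ℝ (Fin N)))).prod (gaussianReal 0 1))
      {p | ∀ i, Real.sqrt s * inner ℝ (x i) p.1.1 + Real.sqrt δ * p.1.2 i +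
        Real.sqrt τ * p.2 ≤ 0}).toReal

/-- F4: from probabilities to expectations. -/
def St_lim : Prop := ∀ {Ω Ω' : Type} [MeasurableSpace Ω] [MeasurableSpace Ω'] (P : Measure Ω)
  (P' : Measure Ω') [IsProbabilityMeasure P] [IsProbabilityMeasure P'] (M : Ω → ℝ) (M' : Ω' → ℝ),
  Measurable M → Measurable M' → Integrable M P → Integrable M' P' → ∀ τ₀ : ℝ,
  (∀ τ : ℝ, 0 < τ → τ₀ ≤ τ →
    ((P'.prod (gaussianReal 0 1)) {p | M' p.1 + τ * p.2 ≤ 0}).toReal ≤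
      ((P.prod (gaussianReal 0 1)) {p | M p.1 + τ * p.2 ≤ 0}).toReal) →
  ∫ ω, M ω ∂P ≤ ∫ ω, M' ω ∂P'

/-- F5: the inequality with an additional independent noise. -/
def St_max1 : Prop := ∀ (n : ℕ) (x y : Fin (n + 2) → EuclideanSpace ℝ (Fin (n + 1))),
  (∀ i, ‖x i‖ = 1) → (∀ i, ‖y i‖ = 1) →
  (∀ i j, i ≠ j → inner ℝ (y i) (y j) = -1 / ((n : ℝ) + 1)) →
  ∀ s δ : ℝ, 0 ≤ s → 0 < δ → δ = 1 - s * ((n : ℝ) + 2) / ((n : ℝ) + 1) →
  ∫ p, (⨆ i, (Real.sqrt s * inner ℝ (x i) p.1 + Real.sqrt δ * p.2 i))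
      ∂((stdGaussian (EuclideanSpace ℝ (Fin (n + 1)))).prod
        (stdGaussian (EuclideanSpace ℝ (Fin (n + 2))))) ≤
    ∫ p, (⨆ i, (Real.sqrt s * inner ℝ (y i) p.1 + Real.sqrt δ * p.2 i))
      ∂((stdGaussian (EuclideanSpace ℝ (Fin (n + 1)))).prod
        (stdGaussian (EuclideanSpace ℝ (Fin (n + 2)))))

/-- F6: the Gaussian mean width inequality. -/
def St_max : Prop := ∀ (n : ℕ) (x y : Fin (n + 2) → EuclideanSpace ℝ (Fin (n + 1))),
  (∀ i, ‖x i‖ = 1) → (∀ i, ‖y i‖ = 1) →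
  (∀ i j, i ≠ j → inner ℝ (y i) (y j) = -1 / ((n : ℝ) + 1)) →
  ∫ z, (⨆ i, inner ℝ (x i) z) ∂(stdGaussian (EuclideanSpace ℝ (Fin (n + 1)))) ≤
    ∫ z, (⨆ i, inner ℝ (y i) z) ∂(stdGaussian (EuclideanSpace ℝ (Fin (n + 1))))

/-- F7: homogeneous functions: Gaussian, spherical and ball integrals. -/
def St_hom : Prop := ∀ d : ℕ, 1 ≤ d → ∃ c > 0, ∃ c' > 0,
  ∀ f : EuclideanSpace ℝ (Fin d) → ℝ, Continuous f →
    (∀ (t : ℝ) (x : EuclideanSpace ℝ (Fin d)), 0 ≤ t → f (t • x) = t * f x) →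
    ∫ z, f z ∂(stdGaussian (EuclideanSpace ℝ (Fin d))) =
        c * ∫ u : Metric.sphere (0 : EuclideanSpace ℝ (Fin d)) 1,
          f (u : EuclideanSpace ℝ (Fin d)) ∂(Measure.toSphere
            (volume : Measure (EuclideanSpace ℝ (Fin d)))) ∧
      ∫ x in Metric.ball (0 : EuclideanSpace ℝ (Fin d)) 1, f x =
        c' * ∫ u : Metric.sphere (0 : EuclideanSpace ℝ (Fin d)) 1,
          f (u : EuclideanSpace ℝ (Fin d)) ∂(Measure.toSphere
            (volume : Measure (EuclideanSpace ℝ (Fin d))))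

/-- F8: the frozen statement S09365. -/
def St_09365 : Prop := ∀ n : ℕ, 2 ≤ n → ∀ x y : Fin (n + 1) → EuclideanSpace ℝ (Fin n),
      (∀ i, ‖x i‖ = 1) → (∀ i, ‖y i‖ = 1) →
      (∀ i j, i ≠ j → inner ℝ (y i) (y j) = -1 / (n : ℝ)) →
      ∫ u : Metric.sphere (0 : EuclideanSpace ℝ (Fin n)) 1,
          (⨆ i, inner ℝ (x i) (u : EuclideanSpace ℝ (Fin n)))
          ∂(MeasureTheory.Measure.toSphere
              (MeasureTheory.volume : MeasureTheory.Measure (EuclideanSpace ℝ (Fin n)))) ≤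
      ∫ u : Metric.sphere (0 : EuclideanSpace ℝ (Fin n)) 1,
          (⨆ i, inner ℝ (y i) (u : EuclideanSpace ℝ (Fin n)))
          ∂(MeasureTheory.Measure.toSphere
              (MeasureTheory.volume : MeasureTheory.Measure (EuclideanSpace ℝ (Fin n))))

/-- F9: the frozen statement S08677. -/
def St_08677 : Prop := ∀ d : ℕ, 4 ≤ d →
      ∀ v w : Fin (d + 1) → EuclideanSpace ℝ (Fin d),
        AffineIndependent ℝ v →
        (∀ i, ‖v i‖ ≤ 1) →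
        (∀ i, ‖w i‖ = 1) →
        (∀ i j, i ≠ j → inner ℝ (w i) (w j) = -1 / (d : ℝ)) →
        (∫ x in Metric.ball (0 : EuclideanSpace ℝ (Fin d)) 1, ⨆ i, inner ℝ (v i) x)
          ≤ ∫ x in Metric.ball (0 : EuclideanSpace ℝ (Fin d)) 1, ⨆ i, inner ℝ (w i) x

/-- F10: the Hausdorff measure of the sphere is finite. -/
def St_sphfin : Prop := ∀ d : ℕ,
  Measure.hausdorffMeasure (d : ℝ) {x : EuclideanSpace ℝ (Fin (d + 1)) | ‖x‖ = 1} < ⊤

/-- F11: Hausdorff measure of `cone ∩ sphere` is proportional to the Gaussian measure. -/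
def St_haus : Prop := ∀ d : ℕ, ∃ K : ENNReal, ∀ D : Set (EuclideanSpace ℝ (Fin (d + 1))),
  MeasurableSet D → (∀ (r : ℝ) (z : EuclideanSpace ℝ (Fin (d + 1))), 0 < r → (r • z ∈ D ↔ z ∈ D)) →
  Measure.hausdorffMeasure (d : ℝ) (D ∩ {x | ‖x‖ = 1}) =
    K * stdGaussian (EuclideanSpace ℝ (Fin (d + 1))) D

/-- F12: the endpoint `s = (N-1)/N` for spherical simplices. -/
def St_end : Prop := ∀ (d : ℕ) (a b : ℝ) (R : Matrix (Fin (d + 2)) (Fin (d + 2)) ℝ),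
  0 < a → 0 < b → Corr R →
  (b • R + Matrix.of (fun _ _ => a)).PosDef →
  orth (b • (R0 (Fin (d + 2))) + Matrix.of (fun _ _ => a)) ≤
    orth (b • R + Matrix.of (fun _ _ => a))

/-- F13: the spherical half of the frozen statement S09471. -/
def St_sph : Prop := ∀ d : ℕ, 4 ≤ d →
    (∀ (r : ℝ), 0 < r → r < Real.pi / 2 →
      ∀ (c : EuclideanSpace ℝ (Fin (d + 1)))
        (n m : Fin (d + 1) → EuclideanSpace ℝ (Fin (d + 1))),
        ‖c‖ = 1 → (∀ i, ‖n i‖ = 1) → (∀ i, ‖m i‖ = 1) →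
        (∀ i, inner ℝ (n i) c = Real.sin r) →
        (∀ i, inner ℝ (m i) c = Real.sin r) →
        LinearIndependent ℝ n → LinearIndependent ℝ m →
        (∀ i j k l, i ≠ j → k ≠ l → inner ℝ (m i) (m j) = inner ℝ (m k) (m l)) →
        MeasureTheory.Measure.hausdorffMeasure (d : ℝ)
            {x : EuclideanSpace ℝ (Fin (d + 1)) | ‖x‖ = 1 ∧ ∀ i, 0 ≤ inner ℝ (m i) x}
          ≤ MeasureTheory.Measure.hausdorffMeasure (d : ℝ)
            {x : EuclideanSpace ℝ (Fin (d + 1)) | ‖x‖ = 1 ∧ ∀ i, 0 ≤ inner ℝ (n i) x})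

end Pool.Agent.H604R2.SW
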