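import Pool.Agent.H604R2.SW.Props

set_option autoImplicit false

namespace Pool.Agent.H604R2.SW

open MeasureTheory Matrix Finset Filter Topology Set ProbabilityTheory
open scoped BigOperators

namespace Dom

variable {ι : Type} [Fintype ι] [DecidableEq ι]

lemma cont_inv (C₀ : Matrix ι ι ℝ) (h : C₀.det ≠ 0) : ContinuousAt (fun C : Matrix ι ι ℝ => C⁻¹) C₀ := by
  have h1 : (fun C : Matrix ι ι ℝ => C⁻¹) = fun C => (C.det)⁻¹ • C.adjugate := by
    funext C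
    rw [Matrix.inv_def, Ring.inverse_eq_inv']
  rw [h1]
  have hd : ContinuousAt (fun C : Matrix ι ι ℝ => C.det) C₀ := (continuous_id.matrix_det).continuousAt
  have ha : ContinuousAt (fun C : Matrix ι ι ℝ => C.adjugate) C₀ := (continuous_id.matrix_adjugate).continuousAt
  exact (hd.inv₀ h).smul ha

lemma ball_of_nhds (C₀ : Matrix ι ι ℝ) (P : Matrix ι ι ℝ → Prop) (h : ∀ᶠ C in 𝓝 C₀, P C) :
    ∃ ε > 0, ∀ C : Matrix ι ι ℝ, (∀ i j, |C i j - C₀ i j| < ε) → P C := by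
  have h' : ∀ᶠ C : ι → ι → ℝ in 𝓝 (fun i j => C₀ i j), P C := h
  obtain ⟨ε, hε, hb⟩ := Metric.eventually_nhds_iff.mp h'
  refine ⟨ε, hε, ?_⟩
  intro C hC
  refine hb (y := fun i j => C i j) ?_
  rw [dist_pi_lt_iff hε]
  intro i
  rw [dist_pi_lt_iff hε]
  intro j
  rw [Real.dist_eq]
  exact hC i j

lemma quad_lower (Q : Matrix ι ι ℝ) (hQ : Q.PosDef) :
    ∃ c > 0, ∀ x : ι → ℝ, c * ∑ i, x i ^ 2 ≤ x ⬝ᵥ (Q *ᵥ x) := by
  classical
  have hpos : ∀ x : ι → ℝ, x ≠ 0 → 0 < x ⬝ᵥ (Q *ᵥ x) := by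
    intro x hx
    have := hQ.dotProduct_mulVec_pos hx
    simpa using this
  set K : Set (ι → ℝ) := {x | ∑ i, x i ^ 2 = 1} with hK
  have hKc : IsClosed K := isClosed_eq (by fun_prop) continuous_const
  have hKb : K ⊆ Metric.closedBall 0 1 := by
    intro x hx
    rw [mem_closedBall_zero_iff, pi_norm_le_iff_of_nonneg zero_le_one]
    intro i
    rw [Real.norm_eq_abs, ← sq_le_one_iff_abs_le_one]
    have : x i ^ 2 ≤ ∑ j, x j ^ 2 := Finset.single_le_sum (fun j _ => sq_nonneg (x j)) (Finset.mem_univ i)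
    rw [show ∑ j, x j ^ 2 = 1 from hx] at this
    exact this
  have hKcomp : IsCompact K := (isCompact_closedBall (0 : ι → ℝ) 1).of_isClosed_subset hKc hKb
  rcases K.eq_empty_or_nonempty with hKe | hKn
  · -- the index type is empty
    have hι : IsEmpty ι := by
      by_contra hne
      rw [not_isEmpty_iff] at hne
      obtain ⟨i⟩ := hne
      have : (Pi.single i 1 : ι → ℝ) ∈ K := by
        show ∑ j, (Pi.single i (1:ℝ) : ι → ℝ) j ^ 2 = 1
        rw [Finset.sum_eq_single i]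
        · simp
        · intro j _ hj
          simp [Pi.single_apply, hj]
        · simp
      rw [hKe] at this
      exact this.elim
    exact ⟨1, one_pos, fun x => by simp [dotProduct]⟩
  · have hcont : Continuous (fun x : ι → ℝ => x ⬝ᵥ (Q *ᵥ x)) := by
      simp only [dotProduct, mulVec]
      fun_prop
    obtain ⟨x₀, hx₀, hmin⟩ := hKcomp.exists_isMinOn hKn hcont.continuousOn
    have hx₀0 : x₀ ≠ 0 := by
      rintro rfl
      have : ∑ i : ι, (0 : ι → ℝ) i ^ 2 = 1 := hx₀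
      simp at this
    refine ⟨x₀ ⬝ᵥ (Q *ᵥ x₀), hpos x₀ hx₀0, ?_⟩
    intro x
    have hs : 0 ≤ ∑ i, x i ^ 2 := Finset.sum_nonneg (fun i _ => sq_nonneg _)
    rcases hs.eq_or_lt with h0 | h0
    · rw [← h0, mul_zero]
      by_cases hx : x = 0
      · subst hx
        simp
      · exact (hpos x hx).le
    · set r := √(∑ i, x i ^ 2) with hr
      have hr0 : 0 < r := Real.sqrt_pos.mpr h0
      have hr2 : r ^ 2 = ∑ i, x i ^ 2 := Real.sq_sqrt hs
      have hxK : (r⁻¹ • x) ∈ K := by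
        show ∑ i, (r⁻¹ • x) i ^ 2 = 1
        simp only [Pi.smul_apply, smul_eq_mul, mul_pow]
        rw [← Finset.mul_sum, ← hr2]
        field_simp
      have h1 := hmin hxK
      have h2 : (r⁻¹ • x) ⬝ᵥ (Q *ᵥ (r⁻¹ • x)) = r⁻¹ ^ 2 * (x ⬝ᵥ (Q *ᵥ x)) := by
        rw [mulVec_smul, smul_dotProduct, dotProduct_smul]
        simp only [smul_eq_mul]
        ring
      have h3 : x₀ ⬝ᵥ (Q *ᵥ x₀) ≤ r⁻¹ ^ 2 * (x ⬝ᵥ (Q *ᵥ x)) := by
        rw [← h2]
        exact h1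
      rw [← hr2]
      calc x₀ ⬝ᵥ (Q *ᵥ x₀) * r ^ 2 ≤ (r⁻¹ ^ 2 * (x ⬝ᵥ (Q *ᵥ x))) * r ^ 2 := by gcongr
        _ = x ⬝ᵥ (Q *ᵥ x) := by field_simp

lemma quad_diff (D : Matrix ι ι ℝ) (δ : ℝ) (hδ : 0 ≤ δ) (hD : ∀ i j, |D i j| ≤ δ) (x : ι → ℝ) :
    |x ⬝ᵥ (D *ᵥ x)| ≤ δ * (Fintype.card ι : ℝ) * ∑ i, x i ^ 2 := by
  have h1 : |x ⬝ᵥ (D *ᵥ x)| ≤ ∑ i, ∑ j, |x i| * (δ * |x j|) := by
    simp only [dotProduct, mulVec, Finset.mul_sum]
    refine (Finset.abs_sum_le_sum_abs _ _).trans (Finset.sum_le_sum fun i _ => ?_)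
    refine (Finset.abs_sum_le_sum_abs _ _).trans (Finset.sum_le_sum fun j _ => ?_)
    rw [abs_mul, abs_mul]
    have := hD i j
    gcongr
  have h2 : ∑ i, ∑ j, |x i| * (δ * |x j|) = δ * (∑ i, |x i|) ^ 2 := by
    rw [sq, Finset.sum_mul_sum, Finset.mul_sum]
    refine Finset.sum_congr rfl fun i _ => ?_
    rw [Finset.mul_sum]
    refine Finset.sum_congr rfl fun j _ => ?_
    ring
  have h3 : (∑ i, |x i|) ^ 2 ≤ (Fintype.card ι : ℝ) * ∑ i, x i ^ 2 := by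
    have := sq_sum_le_card_mul_sum_sq (s := (Finset.univ : Finset ι)) (f := fun i => |x i|)
    simpa using this
  calc |x ⬝ᵥ (D *ᵥ x)| ≤ δ * (∑ i, |x i|) ^ 2 := h1.trans h2.le
    _ ≤ δ * ((Fintype.card ι : ℝ) * ∑ i, x i ^ 2) := by gcongr
    _ = _ := by ring

end Dom

theorem dom : St_dom := by
  intro ι _ _ C₀ hC₀
  have hdet0 : 0 < C₀.det := hC₀.det_pos
  obtain ⟨c, hc, hcl⟩ := Dom.quad_lower C₀⁻¹ hC₀.inv
  set N : ℝ := (Fintype.card ι : ℝ) with hN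
  have hN0 : 0 ≤ N := by positivity
  set δ : ℝ := min 1 (c / (2 * (N + 1))) with hδ
  have hδ0 : 0 < δ := lt_min one_pos (by positivity)
  have hδN : δ * N ≤ c / 2 := by
    have h1 : δ ≤ c / (2 * (N + 1)) := min_le_right _ _
    calc δ * N ≤ c / (2 * (N + 1)) * (N + 1) := by
          have : N ≤ N + 1 := by linarith
          gcongr
      _ = c / 2 := by field_simp
  have hinv := Dom.cont_inv C₀ hdet0.ne'
  have hev1 : ∀ᶠ C : Matrix ι ι ℝ in 𝓝 C₀, ∀ k l, |C⁻¹ k l - C₀⁻¹ k l| < δ := by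
    rw [Filter.eventually_all]
    intro k
    rw [Filter.eventually_all]
    intro l
    have h1 : Tendsto (fun C : Matrix ι ι ℝ => C⁻¹ k l) (𝓝 C₀) (𝓝 (C₀⁻¹ k l)) :=
      ((continuous_id.matrix_elem k l).tendsto (C₀⁻¹)).comp hinv
    have h2 := (Metric.tendsto_nhds.mp h1) δ hδ0
    simpa only [Real.dist_eq] using h2
  have hev2 : ∀ᶠ C : Matrix ι ι ℝ in 𝓝 C₀, C₀.det / 2 < C.det := by
    have hd : ContinuousAt (fun C : Matrix ι ι ℝ => C.det) C₀ := (continuous_id.matrix_det).continuousAt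
    exact hd.eventually (lt_mem_nhds (by linarith))
  obtain ⟨ε, hε, hb⟩ := Dom.ball_of_nhds C₀ _ (hev1.and hev2)
  set M1 : ℝ := 1 + ∑ k, ∑ l, |C₀⁻¹ k l| with hM1
  set M2 : ℝ := (√((2 * Real.pi) ^ (Fintype.card ι) * (C₀.det / 2)))⁻¹ with hM2
  have hM1' : 1 ≤ M1 := by
    have : 0 ≤ ∑ k, ∑ l, |C₀⁻¹ k l| := Finset.sum_nonneg fun k _ => Finset.sum_nonneg fun l _ => abs_nonneg _
    linarith
  refine ⟨ε, hε, c / 4, by positivity, max M1 M2, lt_of_lt_of_le (by linarith) (le_max_left _ _), ?_⟩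
  intro C hCh hC
  obtain ⟨h1, h2⟩ := hb C hC
  have hCdet : 0 < C.det := by linarith
  have hentry : ∀ k l, |C⁻¹ k l| ≤ M1 := by
    intro k l
    have e1 : |C₀⁻¹ k l| ≤ ∑ k, ∑ l, |C₀⁻¹ k l| :=
      (Finset.single_le_sum (f := fun l => |C₀⁻¹ k l|) (fun l _ => abs_nonneg _) (Finset.mem_univ l)).trans
        (Finset.single_le_sum (f := fun k => ∑ l, |C₀⁻¹ k l|)
          (fun k _ => Finset.sum_nonneg fun l _ => abs_nonneg _) (Finset.mem_univ k))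
    have e2 : |C⁻¹ k l| ≤ |C⁻¹ k l - C₀⁻¹ k l| + |C₀⁻¹ k l| := by
      have := abs_add_le (C⁻¹ k l - C₀⁻¹ k l) (C₀⁻¹ k l)
      rwa [sub_add_cancel] at this
    have e3 : δ ≤ 1 := min_le_left _ _
    have e4 := h1 k l
    linarith
  have hquad : ∀ x : ι → ℝ, c / 2 * ∑ i, x i ^ 2 ≤ x ⬝ᵥ (C⁻¹ *ᵥ x) := by
    intro x
    have e1 := Dom.quad_diff (C⁻¹ - C₀⁻¹) δ hδ0.le (fun i j => (h1 i j).le) x
    have e2 : x ⬝ᵥ ((C⁻¹ - C₀⁻¹) *ᵥ x) = x ⬝ᵥ (C⁻¹ *ᵥ x) - x ⬝ᵥ (C₀⁻¹ *ᵥ x) := by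
      rw [sub_mulVec, dotProduct_sub]
    rw [e2] at e1
    have e3 := (abs_le.mp e1).1
    have e4 := hcl x
    have e5 : 0 ≤ ∑ i, x i ^ 2 := Finset.sum_nonneg fun i _ => sq_nonneg _
    have e6 : δ * N * ∑ i, x i ^ 2 ≤ c / 2 * ∑ i, x i ^ 2 := by gcongr
    linarith
  have hInvPD : (C⁻¹).PosDef := by
    refine Matrix.PosDef.of_dotProduct_mulVec_pos hCh.inv ?_
    intro x hx
    have e5 : 0 < ∑ i, x i ^ 2 := by
      obtain ⟨i, hi⟩ := Function.ne_iff.mp hx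
      exact Finset.sum_pos' (fun j _ => sq_nonneg _) ⟨i, Finset.mem_univ i, by
        have : x i ≠ 0 := hi
        positivity⟩
    have e6 := hquad x
    have e7 : 0 < c / 2 * ∑ i, x i ^ 2 := by positivity
    simpa using lt_of_lt_of_le e7 e6
  have hPD : C.PosDef := by
    have := hInvPD.inv
    rwa [Matrix.nonsing_inv_nonsing_inv C (Ne.isUnit hCdet.ne')] at this
  refine ⟨hPD, ?_, ?_, fun k l => (hentry k l).trans (le_max_left _ _)⟩
  · intro x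
    unfold dens
    have e1 : (√((2 * Real.pi) ^ (Fintype.card ι) * C.det))⁻¹ ≤ max M1 M2 := by
      refine le_trans ?_ (le_max_right _ _)
      rw [hM2]
      have hp : 0 < (2 * Real.pi) ^ (Fintype.card ι) := by positivity
      apply inv_anti₀
      · apply Real.sqrt_pos.mpr
        positivity
      · apply Real.sqrt_le_sqrt
        gcongr
    have e2 : Real.exp (-(x ⬝ᵥ (C⁻¹ *ᵥ x)) / 2) ≤ Real.exp (-(c / 4) * ∑ i, x i ^ 2) := by
      apply Real.exp_le_exp.mpr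
      have := hquad x
      linarith
    have e3 : 0 ≤ max M1 M2 := le_trans (by linarith) (le_max_left _ _)
    gcongr
  · intro k x
    have e1 : |(C⁻¹ *ᵥ x) k| ≤ ∑ l, |C⁻¹ k l| * |x l| := by
      simp only [mulVec, dotProduct]
      refine (Finset.abs_sum_le_sum_abs _ _).trans (Finset.sum_le_sum fun l _ => ?_)
      rw [abs_mul]
    refine e1.trans ?_
    rw [Finset.mul_sum]
    refine Finset.sum_le_sum fun l _ => ?_
    have := (hentry k l).trans (le_max_left M1 M2)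
    gcongr

end Pool.Agent.H604R2.SW
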