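import Pool.Agent.H604R2.SW.Props
import Pool.Agent.Helper553.Orth.Dom

set_option autoImplicit false

namespace Pool.Agent.H604R2.SW

open MeasureTheory Matrix Finset Filter Topology Set ProbabilityTheory
open scoped BigOperators MatrixOrder

section
variable {ι : Type} [Fintype ι] [DecidableEq ι]

theorem law_sq (C : Matrix ι ι ℝ) (hC : C.PosDef) : ∃ B : Matrix ι ι ℝ, B.IsHermitian ∧
    B * B = C ∧ B.det ≠ 0 ∧ B = CFC.sqrt C := by
  refine ⟨CFC.sqrt C, ?_, CFC.sqrt_mul_sqrt_self _ hC.posSemidef.nonneg, ?_, rfl⟩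
  · exact (CFC.sqrt_nonneg C).isSelfAdjoint
  · intro h
    have h1 : C.det = 0 := by
      rw [← CFC.sqrt_mul_sqrt_self _ hC.posSemidef.nonneg, det_mul, h, mul_zero]
    exact hC.det_pos.ne' h1

theorem law_dens (C B : Matrix ι ι ℝ) (hB : B.IsHermitian) (hBB : B * B = C) (hdet : B.det ≠ 0)
    (y : ι → ℝ) :
    ENNReal.ofReal (dens C y) = ENNReal.ofReal |(B.det)⁻¹| *
      Helper553.Orth.rho (B⁻¹ *ᵥ y) := by
  unfold dens Helper553.Orth.rho
  rw [← ENNReal.ofReal_mul (abs_nonneg _)]
  congr 1
  have hT : Bᵀ = B := by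
    have := hB.eq
    rwa [conjTranspose_eq_transpose_of_trivial] at this
  have hinvT : (B⁻¹)ᵀ = B⁻¹ := by rw [transpose_nonsing_inv, hT]
  have h1 : Helper553.Orth.sqn (B⁻¹ *ᵥ y) = y ⬝ᵥ (C⁻¹ *ᵥ y) := by
    have : Helper553.Orth.sqn (B⁻¹ *ᵥ y) = (B⁻¹ *ᵥ y) ⬝ᵥ (B⁻¹ *ᵥ y) := by
      unfold Helper553.Orth.sqn dotProduct
      exact Finset.sum_congr rfl fun i _ => by ring
    rw [this, ← hBB, Matrix.mul_inv_rev, ← mulVec_mulVec, dotProduct_mulVec, ← mulVec_transpose,
      hinvT, ]
    conv_rhs => rw [dotProduct_mulVec, ← mulVec_transpose, hinvT]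
    rw [dotProduct_mulVec, ← mulVec_transpose, hinvT]
  have h2 : (Real.sqrt ((2 * Real.pi) ^ (Fintype.card ι) * C.det))⁻¹ =
      |(B.det)⁻¹| * (√(2 * Real.pi))⁻¹ ^ (Fintype.card ι) := by
    rw [← hBB, det_mul, Real.sqrt_mul (by positivity), ← sq, Real.sqrt_sq_eq_abs, mul_inv, abs_inv,
      mul_comm]
    congr 1
    rw [inv_pow]
    congr 1
    rw [Real.sqrt_eq_iff_mul_self_eq (by positivity) (by positivity), ← mul_pow,
      Real.mul_self_sqrt (by positivity)]
  rw [h1, h2, mul_assoc]

theorem law_cont_dens (C : Matrix ι ι ℝ) : Continuous (dens C) := by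
  unfold dens
  refine continuous_const.mul (Real.continuous_exp.comp ?_)
  refine Continuous.div_const ?_ _
  refine Continuous.neg ?_
  unfold dotProduct mulVec dotProduct
  fun_prop

theorem law_measNeg : MeasurableSet (Neg ι) := by
  have : IsClosed (Neg ι) := by
    unfold Neg
    simp only [Set.ofPred_forall]
    exact isClosed_iInter fun i => isClosed_le (continuous_apply i) continuous_const
  exact this.measurableSet

/-- `orth C` as a Gaussian probability. -/
theorem law_orth (C B : Matrix ι ι ℝ) (hB : B.IsHermitian) (hBB : B * B = C) (hdet : B.det ≠ 0) :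
    orth C = ((Helper553.Orth.gpi ι) {x | ∀ i, (B *ᵥ x) i ≤ 0}).toReal := by
  have hnn : ∀ x, 0 ≤ dens C x := fun x => by unfold dens; positivity
  unfold orth
  rw [integral_eq_lintegral_of_nonneg_ae (Eventually.of_forall hnn)
    (law_cont_dens C).aestronglyMeasurable]
  congr 1
  have hunit : IsUnit B.det := isUnit_iff_ne_zero.2 hdet
  set G : (ι → ℝ) → ENNReal := fun y => (Neg ι).indicator
    (fun y => Helper553.Orth.rho (B⁻¹ *ᵥ y)) y with hGdef
  have hmul : Continuous fun y : ι → ℝ => B⁻¹ *ᵥ y := by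
    unfold mulVec dotProduct
    fun_prop
  have hmulB : Continuous fun y : ι → ℝ => B *ᵥ y := by
    unfold mulVec dotProduct
    fun_prop
  have hG : Measurable G :=
    (Helper553.Orth.measurable_rho.comp hmul.measurable).indicator law_measNeg
  have h1 := Helper553.Orth.lintegral_comp_lin (Matrix.toLin' B) (by
    rw [LinearMap.det_toLin']; exact hdet) G hG
  rw [LinearMap.det_toLin'] at h1
  have h2 : ∫⁻ x in Neg ι, ENNReal.ofReal (dens C x) =
      ENNReal.ofReal |(B.det)⁻¹| * ∫⁻ x, G x := by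
    have hmm : Measurable fun y : ι → ℝ => Helper553.Orth.rho (B⁻¹ *ᵥ y) :=
      Helper553.Orth.measurable_rho.comp hmul.measurable
    rw [hGdef, lintegral_indicator law_measNeg, ← lintegral_const_mul _ hmm]
    refine lintegral_congr fun x => ?_
    exact law_dens C B hB hBB hdet x
  rw [h2, ← h1]
  have hset : MeasurableSet {x : ι → ℝ | ∀ i, (B *ᵥ x) i ≤ 0} :=
    hmulB.measurable law_measNeg
  rw [← lintegral_indicator_one hset, Helper553.Orth.lintegral_gpi _
    ((measurable_one).indicator hset)]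
  refine lintegral_congr fun x => ?_
  rw [hGdef]
  by_cases hx : ∀ i, (B *ᵥ x) i ≤ 0
  · have h3 : (Matrix.toLin' B) x ∈ Neg ι := by
      intro i
      rw [toLin'_apply]
      exact hx i
    rw [indicator_of_mem (show x ∈ {x : ι → ℝ | ∀ i, (B *ᵥ x) i ≤ 0} from hx)]
    simp only
    rw [indicator_of_mem h3, toLin'_apply, mulVec_mulVec, nonsing_inv_mul _ hunit, one_mulVec]
    simp
  · have h3 : (Matrix.toLin' B) x ∉ Neg ι := by
      intro h
      apply hx
      intro i
      have := h i
      rwa [toLin'_apply] at this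
    rw [indicator_of_notMem (show x ∉ {x : ι → ℝ | ∀ i, (B *ᵥ x) i ≤ 0} from hx)]
    simp only
    rw [indicator_of_notMem h3, mul_zero]

end

theorem law : St_law := by
  intro ι _ _ E _ _ _ _ _ a C hC hG
  obtain ⟨B, hB, hBB, hdet, hsq⟩ := law_sq C hC
  rw [law_orth C B hB hBB hdet]
  congr 1
  set f : E → EuclideanSpace ℝ ι := fun z => WithLp.toLp 2 (fun i => inner ℝ (a i) z) with hf
  have hfm : Measurable f := by
    rw [hf]
    have : Continuous fun z : E => (fun i => inner ℝ (a i) z : ι → ℝ) := by fun_prop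
    exact ((PiLp.continuous_toLp 2 _).comp this).measurable
  have hμ : (stdGaussian E).map f = multivariateGaussian 0 C := by
    haveI : IsProbabilityMeasure ((stdGaussian E).map f) :=
      Measure.isProbabilityMeasure_map hfm.aemeasurable
    apply Measure.ext_of_charFun (E := EuclideanSpace ℝ ι)
    ext t
    rw [charFun_multivariateGaussian hC.posSemidef, charFun_apply,
      integral_map hfm.aemeasurable (by fun_prop)]
    have h1 : ∀ z : E, inner ℝ (f z) t = inner ℝ z (∑ i, t i • a i) := by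
      intro z
      rw [hf, inner_sum, PiLp.inner_apply]
      refine Finset.sum_congr rfl fun i _ => ?_
      rw [real_inner_smul_right]
      simp [real_inner_comm]
    simp_rw [h1]
    rw [← charFun_apply, charFun_stdGaussian]
    have h2 : ‖∑ i, t i • a i‖ ^ 2 = t ⬝ᵥ C *ᵥ t := by
      rw [← real_inner_self_eq_norm_sq, sum_inner]
      unfold dotProduct mulVec dotProduct
      refine Finset.sum_congr rfl fun i _ => ?_
      rw [inner_sum, Finset.mul_sum]
      refine Finset.sum_congr rfl fun j _ => ?_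
      rw [real_inner_smul_left, real_inner_smul_right, hG]
      ring
    rw [inner_zero_right]
    congr 1
    rw [← Complex.ofReal_pow, h2]
    simp
    ring
  have hclosed : MeasurableSet {w : EuclideanSpace ℝ ι | ∀ i, w i ≤ 0} := by
    have : IsClosed {w : EuclideanSpace ℝ ι | ∀ i, w i ≤ 0} := by
      simp only [Set.ofPred_forall]
      exact isClosed_iInter fun i => isClosed_le (by fun_prop) continuous_const
    exact this.measurableSet
  have h3 : (stdGaussian E) {z | ∀ i, inner ℝ (a i) z ≤ 0} =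
      ((stdGaussian E).map f) {w : EuclideanSpace ℝ ι | ∀ i, w i ≤ 0} := by
    rw [Measure.map_apply hfm hclosed]
    rfl
  rw [h3, hμ]
  unfold multivariateGaussian
  rw [Measure.map_apply (by fun_prop) hclosed, ← map_pi_eq_stdGaussian,
    Measure.map_apply (by fun_prop) (by
      exact (show Measurable (fun x : EuclideanSpace ℝ ι =>
        (0 : EuclideanSpace ℝ ι) + toEuclideanCLM (𝕜 := ℝ) (CFC.sqrt C) x) by fun_prop) hclosed)]
  unfold Helper553.Orth.gpi
  congr 1
  ext x
  simp only [Set.mem_ofPred_eq, Set.mem_preimage, zero_add]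
  rw [← hsq]
  rfl

end Pool.Agent.H604R2.SW
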