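import Pool.Agent.H604R2.SW.Props

set_option autoImplicit false

namespace Pool.Agent.H604R2.SW

open MeasureTheory Matrix Finset Filter Topology Set ProbabilityTheory
open scoped BigOperators

namespace lciaux

theorem deriv_ge_of_ge {f m : ℝ → ℝ} {f' m' : ℝ} (hf : HasDerivAt f f' 0)
    (hm : HasDerivAt m m' 0) (h0 : f 0 = m 0) (h : ∀ ε, 0 < ε → ε < 1 → m ε ≤ f ε) : m' ≤ f' := by
  have h2 : Tendsto (slope f 0) (𝓝[>] 0) (𝓝 f') :=
    (hasDerivWithinAt_iff_tendsto_slope' (s := Ioi (0:ℝ)) (by simp)).mp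
      (hf.hasDerivWithinAt (s := Ioi 0))
  have h3 : Tendsto (slope m 0) (𝓝[>] 0) (𝓝 m') :=
    (hasDerivWithinAt_iff_tendsto_slope' (s := Ioi (0:ℝ)) (by simp)).mp
      (hm.hasDerivWithinAt (s := Ioi 0))
  refine le_of_tendsto_of_tendsto h3 h2 ?_
  have h4 : Ioo (0:ℝ) 1 ∈ 𝓝[>] (0:ℝ) := Ioo_mem_nhdsGT one_pos
  filter_upwards [h4] with a ha
  rw [slope_def_field, slope_def_field, h0]
  apply div_le_div_of_nonneg_right _ (by linarith [ha.1])
  linarith [h a ha.1 ha.2]

end lciaux

open lciaux in
theorem lci (h3 : St_G1) (h4 : St_refl) (h5 : St_pl) (h6 : St_kkd) (h7 : St_relabel) :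
    St_lci := by
  intro n C hC hdiag s t hs ht
  have hswp : (swp C).PosDef := by
    unfold swp
    exact hC.submatrix (Equiv.injective _)
  have ha := (h3 C hC).1 t
  have hb := (h3 (swp C) hswp).1 s
  have e0 : kk C s t 0 = G1 C t := by
    unfold kk G1
    simp
  have e1 : kk C s t 1 = G1 (swp C) s := by
    unfold kk G1
    congr 1
    funext y
    have a1 : dens C (vec 0 (-s) (fun j => y j + s * kap C j)) = dens C (vec (-s) 0 y) :=
      h4 C hC hdiag s y
    have a2 := (h7 C (Equiv.swap 0 1)).1 (vec (-s) 0 y)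
    have a3 : (fun i => vec (-s) 0 y ((Equiv.swap (0 : Fin (n + 2)) 1) i)) = vec 0 (-s) y := by
      funext i
      refine Fin.cases ?_ (fun i => ?_) i
      · rw [Equiv.swap_apply_left]; simp [vec]
      · refine Fin.cases ?_ (fun j => ?_) i
        · have : (Fin.succ (0 : Fin (n + 1))) = (1 : Fin (n + 2)) := rfl
          rw [this, Equiv.swap_apply_right]; simp [vec]
        · have hj0 : j.succ.succ ≠ (0 : Fin (n + 2)) := Fin.succ_ne_zero _
          have hj1 : j.succ.succ ≠ (1 : Fin (n + 2)) := by
            intro h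
            have h' : j.succ.succ = (Fin.succ (0 : Fin (n + 1))) := h
            exact Fin.succ_ne_zero j (Fin.succ_injective _ h')
          rw [Equiv.swap_apply_of_ne_of_ne hj0 hj1]
          simp [vec]
    rw [a3] at a2
    have a4 : vec 0 (-(t + 1 * (s - t))) (fun j => y j + 1 * s * kap C j) =
        vec 0 (-s) (fun j => y j + s * kap C j) := by
      congr 1
      · ring
      · funext j; ring
    rw [a4, a1]
    exact a2.symm
  have hpl := h5 C hC s t
  have hd := h6 C hC s t
  set a := G1 C t with haa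
  set b := G1 (swp C) s with hbb
  have hm : HasDerivAt (fun ε : ℝ => a * Real.exp (ε * (Real.log b - Real.log a)))
      (a * (Real.log b - Real.log a)) 0 := by
    have h1 : HasDerivAt (fun ε : ℝ => ε * (Real.log b - Real.log a))
        (Real.log b - Real.log a) 0 := by
      simpa using (hasDerivAt_id (0:ℝ)).mul_const (Real.log b - Real.log a)
    have h2 := (h1.exp).const_mul a
    simpa using h2
  have hfin := deriv_ge_of_ge hd hm (by simp [e0]) (by
    intro ε hε0 hε1
    have := hpl ε hε0 hε1
    rw [e0, e1] at this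
    have e2 : a ^ (1 - ε) * b ^ ε = a * Real.exp (ε * (Real.log b - Real.log a)) := by
      rw [Real.rpow_def_of_pos ha, Real.rpow_def_of_pos hb, ← Real.exp_add]
      nth_rewrite 2 [← Real.exp_log ha]
      rw [← Real.exp_add]
      congr 1
      ring
    rw [e2] at this
    exact this)
  exact hfin

end Pool.Agent.H604R2.SW
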